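import Pool.Agent.Lib.MP_544a1b_al.EN.Ome

/-!
EN-Seq: sequences of successive `p`-th roots act trivially on finite sets.

Proof.
`QC.hom_eq_one`: `s 0 = (s m) ^ (p^m)` (`QC.pow`). `φ (s m)` has order `p^j` for some `j` (`G` is a `p`-group) dividing
`Nat.card F`; with `m = Nat.card F`, `p^j ≤ Nat.card F < p^m`-type bounds give `j ≤ m`, so `φ (s m) ^ (p^m) = 1`.
`QC.commute_of_finite`: `X` a finite subset of `G` invariant under conjugation by all elements of `G`. The action of `G` by conjugation on `X`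
is a homomorphism from `G` to the finite group `Equiv.Perm X`; by `QC.hom_eq_one` `s 0` acts trivially. (A direct way without `Perm`: for `x ∈ X` the
conjugates of `x` by the powers of `s m` ... ; `MulAction.toPermHom` for the `ConjAct`/`MulAut.conj` action on the invariant subset.)
`QC.commute_normal`: each element of `N` has order `p^k` for some `k`, and lies in the set `{a ∈ N : a^(p^k) = 1}`, finite by
`PG.finite_omega`, invariant under conjugation.
-/

set_option autoImplicit false

universe u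

namespace Pool.Agent.Lib.MP_544a1b_al

open Subgroup
open scoped commutatorElement

theorem QC.hom_eq_one {p : ℕ} (hp : p.Prime) {G : Type u} [Group G] (hG : IsPGroup p G)
    {F : Type*} [Group F] [Finite F] (φ : G →* F) {s : ℕ → G} (hs : QC p s) : φ (s 0) = 1 := by
  set m := Nat.card F with hm
  have h0 : s m ^ p ^ m = s 0 := by
    have := hs.pow 0 m
    rwa [zero_add] at this
  rw [← h0, map_pow, ← orderOf_dvd_iff_pow_eq_one]
  obtain ⟨j, hj⟩ := hG (s m)
  have h1 : orderOf (φ (s m)) ∣ p ^ j := by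
    rw [orderOf_dvd_iff_pow_eq_one, ← map_pow, hj, map_one]
  obtain ⟨i, _, hi⟩ := (Nat.dvd_prime_pow hp).1 h1
  have h2 : orderOf (φ (s m)) ≤ m := Nat.le_of_dvd Nat.card_pos (orderOf_dvd_natCard _)
  rw [hi] at h2 ⊢
  exact pow_dvd_pow p ((Nat.lt_pow_self hp.one_lt).le.trans h2)

theorem QC.commute_of_finite {p : ℕ} (hp : p.Prime) {G : Type u} [Group G] (hG : IsPGroup p G)
    (X : Set G) (hX : X.Finite) (hc : ∀ x ∈ X, ∀ g : G, g * x * g⁻¹ ∈ X) {s : ℕ → G} (hs : QC p s) :
    ∀ x ∈ X, Commute (s 0) x := by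
  have hfin : Finite X := hX.to_subtype
  let act : G →* Equiv.Perm X :=
    { toFun := fun g =>
        { toFun := fun x => ⟨g * x * g⁻¹, hc x x.2 g⟩
          invFun := fun x => ⟨g⁻¹ * x * g⁻¹⁻¹, hc x x.2 g⁻¹⟩
          left_inv := fun x => by
            apply Subtype.ext
            show g⁻¹ * (g * (x : G) * g⁻¹) * g⁻¹⁻¹ = x
            group
          right_inv := fun x => by
            apply Subtype.ext
            show g * (g⁻¹ * (x : G) * g⁻¹⁻¹) * g⁻¹ = x
            group }
      map_one' := by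
        ext x
        show (1 : G) * (x : G) * 1⁻¹ = x
        group
      map_mul' := fun g k => by
        ext x
        show (g * k) * (x : G) * (g * k)⁻¹ = g * (k * (x : G) * k⁻¹) * g⁻¹
        group }
  intro x hx
  have h1 := QC.hom_eq_one hp hG act hs
  have h2 : (act (s 0)) ⟨x, hx⟩ = ⟨x, hx⟩ := by rw [h1]; rfl
  have h3 : s 0 * x * (s 0)⁻¹ = x := congrArg Subtype.val h2
  show s 0 * x = x * s 0
  exact mul_inv_eq_iff_eq_mul.1 h3

theorem QC.commute_normal {p : ℕ} (hp : p.Prime) {G : Type u} [Group G] (h : PG p G)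
    (N : Subgroup G) [N.Normal] (hN : Ab N) {s : ℕ → G} (hs : QC p s) :
    ∀ x ∈ N, Commute (s 0) x := by
  intro x hx
  obtain ⟨k, hk⟩ := h.pg x
  refine QC.commute_of_finite hp h.pg {a : G | a ∈ N ∧ a ^ p ^ k = 1} (h.finite_omega N hN k) ?_ hs
    x ⟨hx, hk⟩
  rintro a ⟨ha, hak⟩ g
  refine ⟨Subgroup.Normal.conj_mem inferInstance a ha g, ?_⟩
  rw [conj_pow, hak, mul_one, mul_inv_cancel]

end Pool.Agent.Lib.MP_544a1b_al
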