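import Pool.Agent.Lib.MP_544a1b_al.EN.Pig
import Pool.Agent.Lib.MP_544a1b_al.EN.Seq

/-!
EN-Cen: locally finite `p`-groups with finite elementary abelian subgroups.

Proof.
`PG.exists_max_normal`: let `B` be a maximal commutative normal subgroup (Zorn; `⊥` is one; the union of a chain of normal commutative subgroups
is one). `B ≤ centralizer B` as `B` is commutative. If `c₀ ∈ centralizer B`, `c₀ ∉ B` then `PG.exists_central` gives
`k ∈ centralizer B`, `k ∉ B`, `⁅k, g⁆ ∈ B` for all `g`; `B ⊔ zpowers k` is commutative (`comm_closure` in `Rank.lean` for the set `B ∪ {k}`) and normal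
(`g * k * g⁻¹ = ⁅g, k⁆ * k`, and `⁅g, k⁆ = ⁅k, g⁆⁻¹ ∈ B`), strictly larger than `B`. Contradiction.
`QC.mem_of_max`: `s 0` commutes with `B` by `QC.commute_normal`, so `s 0 ∈ centralizer B ≤ B`.
`PG.finite_of_ab_finite`: `B` is finite. The conjugation action of `H` on the finite set `B` has kernel `centralizer B = B`, so `H ⧸ B` embeds into a
finite group (`Equiv.Perm B` or `MulAut B`), so `H` is finite.
-/

set_option autoImplicit false

universe u

namespace Pool.Agent.Lib.MP_544a1b_al

open Subgroup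
open scoped commutatorElement

theorem PG.exists_max_normal {p : ℕ} (hp : p.Prime) {H : Type u} [Group H] (h : PG p H) (hF : LF H) :
    ∃ B : Subgroup H, B.Normal ∧ Ab B ∧ centralizer (B : Set H) ≤ B := by
  obtain ⟨B, -, hB⟩ := zorn_le_nonempty₀ {B : Subgroup H | B.Normal ∧ Ab B} (by
    intro c hc hchain y hy
    have hne : c.Nonempty := ⟨y, hy⟩
    have hmem : ∀ x, x ∈ sSup c ↔ ∃ K ∈ c, x ∈ K := fun x =>
      Subgroup.mem_sSup_of_directedOn hne hchain.directedOn
    refine ⟨sSup c, ⟨⟨?_⟩, ?_⟩, fun z hz => le_sSup hz⟩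
    · intro x hx g
      obtain ⟨K, hK, hxK⟩ := (hmem x).1 hx
      exact (hmem _).2 ⟨K, hK, (hc hK).1.conj_mem x hxK g⟩
    · intro a ha b hb
      obtain ⟨K, hK, haK⟩ := (hmem a).1 ha
      obtain ⟨L, hL, hbL⟩ := (hmem b).1 hb
      rcases hchain.total hK hL with h1 | h1
      · exact (hc hL).2 a (h1 haK) b hbL
      · exact (hc hK).2 a haK b (h1 hbL)) ⊥ ⟨inferInstance, by
    intro a ha b _
    rw [Subgroup.mem_bot] at ha
    rw [ha]
    exact Commute.one_left b⟩
  obtain ⟨⟨hBn, hBa⟩, hmax⟩ := hB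
  refine ⟨B, hBn, hBa, ?_⟩
  intro c₀ hc₀
  by_contra hc₀B
  have := hBn
  obtain ⟨k, hk, hkB, hkg⟩ := PG.exists_central hp h hF B hBa c₀ hc₀ hc₀B
  rw [Subgroup.mem_centralizer_iff] at hk
  have hcomm : ∀ a ∈ (B : Set H) ∪ {k}, ∀ b ∈ (B : Set H) ∪ {k}, Commute a b := by
    rintro a (ha | ha) b (hb | hb)
    · exact hBa a ha b hb
    · rw [Set.mem_singleton_iff] at hb
      rw [hb]
      exact hk a ha
    · rw [Set.mem_singleton_iff] at ha
      rw [ha]
      exact (hk b hb).symm
    · rw [Set.mem_singleton_iff] at ha hb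
      rw [ha, hb]
  have hD : Ab (closure ((B : Set H) ∪ {k})) := comm_closure _ hcomm
  have hBD : B ≤ closure ((B : Set H) ∪ {k}) := fun x hx => subset_closure (Or.inl hx)
  have hDn : (closure ((B : Set H) ∪ {k})).Normal := by
    refine ⟨fun x hx g => ?_⟩
    induction hx using Subgroup.closure_induction with
    | mem x hx =>
      rcases hx with hx | hx
      · exact hBD (hBn.conj_mem x hx g)
      · rw [Set.mem_singleton_iff] at hx
        subst hx
        have h1 : g * x * g⁻¹ = ⁅x, g⁆⁻¹ * x := by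
          rw [commutatorElement_inv, commutatorElement_def]
          group
        rw [h1]
        exact mul_mem (hBD (inv_mem (hkg g))) (subset_closure (Or.inr rfl))
    | one =>
      rw [mul_one, mul_inv_cancel]
      exact one_mem _
    | mul x y _ _ hx hy =>
      have h1 : g * (x * y) * g⁻¹ = (g * x * g⁻¹) * (g * y * g⁻¹) := by group
      rw [h1]
      exact mul_mem hx hy
    | inv x _ hx =>
      have h1 : g * x⁻¹ * g⁻¹ = (g * x * g⁻¹)⁻¹ := by group
      rw [h1]
      exact inv_mem hx
  exact hkB (hmax (y := closure ((B : Set H) ∪ {k})) ⟨hDn, hD⟩ hBD (subset_closure (Or.inr rfl)))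

theorem PG.qc_commute_of_LF {p : ℕ} (hp : p.Prime) {H : Type u} [Group H] (h : PG p H) (hF : LF H)
    {s t : ℕ → H} (hs : QC p s) (ht : QC p t) : Commute (s 0) (t 0) := by
  obtain ⟨B, hBn, hBa, hBc⟩ := PG.exists_max_normal hp h hF
  have := hBn
  have key : ∀ {s : ℕ → H}, QC p s → s 0 ∈ B := by
    intro s hs
    refine hBc ?_
    rw [Subgroup.mem_centralizer_iff]
    intro x hx
    exact (QC.commute_normal hp h B hBa hs x hx).symm.eq
  exact hBa _ (key hs) _ (key ht)

theorem PG.finite_of_ab_finite {p : ℕ} (hp : p.Prime) {H : Type u} [Group H] (h : PG p H) (hF : LF H)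
    (hab : ∀ A : Subgroup H, Ab A → (A : Set H).Finite) : Finite H := by
  obtain ⟨B, hBn, hBa, hBc⟩ := PG.exists_max_normal hp h hF
  have := hBn
  have hBf := hab B hBa
  have : Finite B := hBf
  have : Finite (MulAut B) := Finite.of_injective (fun f : MulAut B => (f : B → B)) (by
    intro f g hfg
    exact MulEquiv.ext fun x => congrFun hfg x)
  have hker : ∀ x : H, MulAut.conjNormal (H := B) x = 1 → x ∈ B := by
    intro x hx
    refine hBc ?_
    rw [Subgroup.mem_centralizer_iff]
    intro b hb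
    have h1 := MulAut.conjNormal_apply (H := B) x ⟨b, hb⟩
    rw [hx] at h1
    have h2 : b = x * b * x⁻¹ := h1
    calc b * x = (x * b * x⁻¹) * x := by rw [← h2]
      _ = x * b := by group
  rw [← Set.finite_univ_iff]
  have h3 : (Set.univ : Set H) = (fun x : H => (MulAut.conjNormal x : MulAut B)) ⁻¹' Set.univ := rfl
  rw [h3]
  refine Set.Finite.preimage' Set.finite_univ fun f _ => ?_
  rcases Set.eq_empty_or_nonempty ((fun x : H => (MulAut.conjNormal x : MulAut B)) ⁻¹' {f}) with h4 | ⟨x0, h0⟩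
  · rw [h4]
    exact Set.finite_empty
  · refine (hBf.image fun y => x0 * y).subset ?_
    intro x hx
    refine ⟨x0⁻¹ * x, ?_, by group⟩
    have e1 : MulAut.conjNormal (H := B) x0 = f := h0
    have e2 : MulAut.conjNormal (H := B) x = f := hx
    refine hker _ ?_
    rw [map_mul, map_inv, e1, e2, inv_mul_cancel]

end Pool.Agent.Lib.MP_544a1b_al
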