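import Pool.Agent.Lib.MP_544a1b_al.EN.Ome

/-!
EN-Cl2: central subgroups with elementary abelian quotient have finite index.

Proof. By Zorn (`zorn_le_nonempty₀` or `exists_maximal...`) there is a maximal commutative subgroup `M` with `B ≤ M ≤ K` (`B` itself is
commutative, since it is central in `K` and `B ≤ K`; unions of chains of commutative subgroups are commutative).
`B.relIndex M ≠ 0` by `PG.relIndex_ne_zero` (for `m ∈ M ≤ K`, `m ^ p ∈ B`).
`M.relIndex K ≠ 0`: For `m ∈ K` the map `k ↦ ⁅k, m⁆` is a homomorphism from `K` to `B` (`⁅k l, m⁆ = k ⁅l, m⁆ k⁻¹ ⁅k, m⁆` and `⁅l, m⁆ ∈ B` is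
central in `K`); its values satisfy `⁅k, m⁆ ^ p = ⁅k ^ p, m⁆ = 1`, as `k ^ p ∈ B` commutes with `m`. So the values lie in the finite set of the
`b ∈ B` with `b ^ p = 1` and the kernel `K ⊓ centralizer {m}` has finite index in `K` (`relIndex ≠ 0`).
Choose finitely many representatives `m i` of the cosets of `B` in `M`. `K ⊓ centralizer M = ⨅ i, K ⊓ centralizer {m i}`, since the
elements of `K` commute with `B`; a finite intersection of subgroups of finite index in `K` has finite index (`relIndex_inf_ne_zero`,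
`relIndex_iInf_ne_zero`). By maximality `K ⊓ centralizer M ≤ M`: if `k ∈ K` commutes with `M` then `M ⊔ zpowers k` is commutative (`comm_closure` in
`Rank.lean`). So `M.relIndex K ≠ 0` (`relIndex_ne_zero_of_le`-like), and `relIndex_ne_zero_trans`.
-/

set_option autoImplicit false

universe u

namespace Pool.Agent.Lib.MP_544a1b_al

open Subgroup
open scoped commutatorElement

/-- the map `k ↦ ⁅k, m⁆` -/
private def cl2_hom {G : Type u} [Group G] (K B : Subgroup G)
    (hc : ∀ b ∈ B, ∀ k ∈ K, Commute b k) (hcomm : ∀ k ∈ K, ∀ l ∈ K, ⁅k, l⁆ ∈ B) (m : G)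
    (hm : m ∈ K) : K →* G where
  toFun k := ⁅(k : G), m⁆
  map_one' := by simp
  map_mul' := by
    intro k l
    have h1 : Commute ⁅(l : G), m⁆ (k : G) := hc _ (hcomm _ l.2 _ hm) _ k.2
    have h2 : Commute ⁅(l : G), m⁆ ⁅(k : G), m⁆ := by
      refine hc _ (hcomm _ l.2 _ hm) _ ?_
      rw [commutatorElement_def]
      exact K.mul_mem (K.mul_mem (K.mul_mem k.2 hm) (K.inv_mem k.2)) (K.inv_mem hm)
    have h3 : ⁅((k * l : K) : G), m⁆ = (k : G) * ⁅(l : G), m⁆ * (k : G)⁻¹ * ⁅(k : G), m⁆ := by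
      rw [commutatorElement_def, commutatorElement_def, commutatorElement_def, Subgroup.coe_mul]
      group
    rw [h3, ← h1.eq, mul_inv_cancel_right, h2.eq]

private theorem cl2_cent {p : ℕ} {G : Type u} [Group G] (h : PG p G)
    (K B : Subgroup G) (hBK : B ≤ K) (hc : ∀ b ∈ B, ∀ k ∈ K, Commute b k)
    (hpB : ∀ k ∈ K, k ^ p ∈ B) (hcomm : ∀ k ∈ K, ∀ l ∈ K, ⁅k, l⁆ ∈ B) (m : G) (hm : m ∈ K) :
    (Subgroup.centralizer {m}).relIndex K ≠ 0 := by
  obtain ⟨f, hf⟩ : ∃ f : K →* G, f = cl2_hom K B hc hcomm m hm := ⟨_, rfl⟩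
  have hfk : ∀ k : K, f k = ⁅(k : G), m⁆ := fun k => by rw [hf]; rfl
  have hker : f.ker = (Subgroup.centralizer {m}).subgroupOf K := by
    ext k
    rw [MonoidHom.mem_ker, hfk, Subgroup.mem_subgroupOf, Subgroup.mem_centralizer_singleton_iff,
      commutatorElement_eq_one_iff_mul_comm]
  have hB : Ab B := fun a ha b hb => hc a ha b (hBK hb)
  have hfin := h.finite_omega B hB 1
  rw [pow_one] at hfin
  have hrange : (f.range : Set G) ⊆ {a : G | a ∈ B ∧ a ^ p = 1} := by
    rintro _ ⟨k, rfl⟩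
    refine ⟨?_, ?_⟩
    · rw [hfk]
      exact hcomm _ k.2 _ hm
    · rw [← map_pow, hfk, commutatorElement_eq_one_iff_mul_comm]
      exact (hc _ (hpB _ k.2) m hm).eq
  have hfr : Finite f.range := (hfin.subset hrange).to_subtype
  rw [Subgroup.relIndex, ← hker, Subgroup.index_ker]
  exact Nat.card_pos.ne'

theorem PG.class_two {p : ℕ} (hp : p.Prime) {G : Type u} [Group G] (h : PG p G)
    (K B : Subgroup G) (hBK : B ≤ K) (hc : ∀ b ∈ B, ∀ k ∈ K, Commute b k) (hpB : ∀ k ∈ K, k ^ p ∈ B)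
    (hcomm : ∀ k ∈ K, ∀ l ∈ K, ⁅k, l⁆ ∈ B) : B.relIndex K ≠ 0 := by
  have hB : Ab B := fun a ha b hb => hc a ha b (hBK hb)
  obtain ⟨M, hBM, hM⟩ := zorn_le_nonempty₀ {M : Subgroup G | Ab M ∧ M ≤ K} (by
    intro c hcs hch y hy
    have hne : c.Nonempty := ⟨y, hy⟩
    have hdir : DirectedOn (· ≤ ·) c := hch.directedOn
    refine ⟨sSup c, ⟨?_, ?_⟩, fun z hz => le_sSup hz⟩
    · intro a ha b hb
      rw [Subgroup.mem_sSup_of_directedOn hne hdir] at ha hb
      obtain ⟨N1, hN1, ha⟩ := ha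
      obtain ⟨N2, hN2, hb⟩ := hb
      obtain ⟨N, hN, h1, h2⟩ := hdir N1 hN1 N2 hN2
      exact (hcs hN).1 a (h1 ha) b (h2 hb)
    · exact sSup_le fun z hz => (hcs hz).2) B ⟨hB, hBK⟩
  have hMA : Ab M := hM.prop.1
  have hMK : M ≤ K := hM.prop.2
  have h1 : B.relIndex M ≠ 0 :=
    PG.relIndex_ne_zero hp h M B hMA hBM fun m hm => hpB m (hMK hm)
  have hfin : Finite (M ⧸ B.subgroupOf M) := by
    have : (B.subgroupOf M).FiniteIndex := ⟨h1⟩
    infer_instance
  obtain ⟨C, hC⟩ : ∃ C : Subgroup G, C = ⨅ q : M ⧸ B.subgroupOf M,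
    Subgroup.centralizer {((Quotient.out q : M) : G)} := ⟨_, rfl⟩
  have h2 : C.relIndex K ≠ 0 := by
    rw [hC]
    apply Subgroup.relIndex_iInf_ne_zero
    intro q
    exact cl2_cent h K B hBK hc hpB hcomm _ (hMK (Quotient.out q : M).2)
  have h3 : C ⊓ K ≤ M := by
    intro k hk
    have hkK : k ∈ K := hk.2
    have hkM : ∀ m ∈ M, Commute k m := by
      intro m hm
      have e1 : k ∈ Subgroup.centralizer {((Quotient.out ((⟨m, hm⟩ : M) : M ⧸ B.subgroupOf M) : M) : G)} := by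
        have e0 : k ∈ C := hk.1
        rw [hC, Subgroup.mem_iInf] at e0
        exact e0 _
      rw [Subgroup.mem_centralizer_singleton_iff] at e1
      have e2 : (Quotient.out ((⟨m, hm⟩ : M) : M ⧸ B.subgroupOf M))⁻¹ * (⟨m, hm⟩ : M) ∈
          B.subgroupOf M := by
        rw [← QuotientGroup.eq]
        exact Quotient.out_eq _
      rw [Subgroup.mem_subgroupOf] at e2
      obtain ⟨r, hr⟩ : ∃ r : G, r = ((Quotient.out ((⟨m, hm⟩ : M) : M ⧸ B.subgroupOf M) : M) : G) :=
        ⟨_, rfl⟩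
      rw [← hr] at e1
      have e3 : r⁻¹ * m ∈ B := by
        rw [hr]
        exact e2
      have e4 : Commute k (r⁻¹ * m) := (hc _ e3 k hkK).symm
      have e5 : m = r * (r⁻¹ * m) := by group
      rw [e5]
      exact Commute.mul_right e1 e4
    have hcl : Ab (Subgroup.closure ((M : Set G) ∪ {k})) := by
      apply comm_closure
      rintro a (ha | ha) b (hb | hb)
      · exact hMA a ha b hb
      · rw [Set.mem_singleton_iff.1 hb]
        exact (hkM a ha).symm
      · rw [Set.mem_singleton_iff.1 ha]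
        exact hkM b hb
      · rw [Set.mem_singleton_iff.1 ha, Set.mem_singleton_iff.1 hb]
    have hclK : Subgroup.closure ((M : Set G) ∪ {k}) ≤ K := by
      rw [Subgroup.closure_le]
      rintro a (ha | ha)
      · exact hMK ha
      · rw [Set.mem_singleton_iff.1 ha]
        exact hkK
    have hMcl : M ≤ Subgroup.closure ((M : Set G) ∪ {k}) := fun a ha =>
      Subgroup.subset_closure (Or.inl ha)
    have := hM.2 (show Subgroup.closure ((M : Set G) ∪ {k}) ∈ {M : Subgroup G | Ab M ∧ M ≤ K} from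
      ⟨hcl, hclK⟩) hMcl
    exact this (Subgroup.subset_closure (Or.inr rfl))
  have h4 : M.relIndex K ≠ 0 := by
    intro h0
    have h5 := Subgroup.relIndex_dvd_of_le_left K h3
    rw [Subgroup.inf_relIndex_right, h0, zero_dvd_iff] at h5
    exact h2 h5
  exact Subgroup.relIndex_ne_zero_trans h1 h4

end Pool.Agent.Lib.MP_544a1b_al
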