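import Pool.Agent.Lib.MP_544a1b_al.Main
import Pool.Agent.Lib.MP_544a1b_al.OnePer

/-!
Engel groups whose abelian subgroups have finite rank: definitions.
-/

set_option autoImplicit false

namespace Pool.Agent.Lib.MP_544a1b_al

open scoped commutatorElement

/-- the iterated commutator `[x, y, ..., y]` (`n` times `y`) -/
def eng {G : Type*} [Group G] (x y : G) : ℕ → G
  | 0 => x
  | n + 1 => ⁅eng x y n, y⁆

theorem eng_zero {G : Type*} [Group G] (x y : G) : eng x y 0 = x := rfl

theorem eng_succ {G : Type*} [Group G] (x y : G) (n : ℕ) : eng x y (n + 1) = ⁅eng x y n, y⁆ := rfl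

/-- Engel groups -/
def Engel (G : Type*) [Group G] : Prop := ∀ x y : G, ∃ n, eng x y n = 1

/-- finite rank of a subgroup -/
def FR {G : Type*} [Group G] (A : Subgroup G) : Prop :=
  ∃ r : ℕ, ∀ H : Subgroup G, H ≤ A → H.FG →
    ∃ s : Finset G, s.card ≤ r ∧ Subgroup.closure (s : Set G) = H

/-- locally nilpotent subgroups -/
def LNs {G : Type*} [Group G] (N : Subgroup G) : Prop :=
  ∀ s : Finset G, (s : Set G) ⊆ (N : Set G) → Group.IsNilpotent (Subgroup.closure (s : Set G))

/-- commutative subgroups -/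
def Ab {G : Type*} [Group G] (A : Subgroup G) : Prop := ∀ a ∈ A, ∀ b ∈ A, Commute a b

/-- locally finite groups -/
def LF (G : Type*) [Group G] : Prop := ∀ s : Finset G, Finite (Subgroup.closure (s : Set G))

/-- `p`-groups whose elementary abelian subgroups are finite -/
structure PG (p : ℕ) (G : Type*) [Group G] : Prop where
  pg : IsPGroup p G
  el : ∀ A : Subgroup G, Ab A → (∀ a ∈ A, a ^ p = 1) → (A : Set G).Finite

/-- sequences of successive `p`-th roots -/
def QC {G : Type*} [Group G] (p : ℕ) (s : ℕ → G) : Prop := ∀ n, s (n + 1) ^ p = s n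

theorem QC.shift {G : Type*} [Group G] {p : ℕ} {s : ℕ → G} (h : QC p s) (k : ℕ) :
    QC p (fun n => s (n + k)) := fun n => by
  show s (n + 1 + k) ^ p = s (n + k)
  rw [show n + 1 + k = n + k + 1 by ring]
  exact h (n + k)

theorem QC.pow {G : Type*} [Group G] {p : ℕ} {s : ℕ → G} (h : QC p s) (n k : ℕ) :
    s (n + k) ^ p ^ k = s n := by
  induction k with
  | zero => simp
  | succ k ih =>
    rw [pow_succ', pow_mul, ← add_assoc, h (n + k), ih]

theorem Ab.mono {G : Type*} [Group G] {A B : Subgroup G} (h : Ab B) (hAB : A ≤ B) : Ab A :=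
  fun a ha b hb => h a (hAB ha) b (hAB hb)

theorem Ab.map {G H : Type*} [Group G] [Group H] {A : Subgroup G} (h : Ab A) (f : G →* H) :
    Ab (A.map f) := by
  rintro _ ⟨a, ha, rfl⟩ _ ⟨b, hb, rfl⟩
  exact (h a ha b hb).map f

theorem PG.subgroup {p : ℕ} {G : Type*} [Group G] (h : PG p G) (H : Subgroup G) : PG p H := by
  refine ⟨h.pg.to_subgroup H, fun A hA hp => ?_⟩
  have h1 := h.el (A.map H.subtype) (hA.map _) (by
    rintro _ ⟨a, ha, rfl⟩
    rw [← map_pow, hp a ha, map_one])
  have h2 : (A.map H.subtype : Set G) = H.subtype '' A := rfl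
  rw [h2] at h1
  exact h1.of_finite_image H.subtype_injective.injOn

theorem LNs.mono {G : Type*} [Group G] {M N : Subgroup G} (h : LNs N) (hMN : M ≤ N) : LNs M :=
  fun s hs => h s (hs.trans hMN)

theorem LNs.of_LN {G : Type*} [Group G] {N : Subgroup G} (h : LN N) : LNs N := by
  classical
  intro s hs
  obtain ⟨t, ht⟩ : ∃ t : Finset N, (N.subtype '' (t : Set N)) = (s : Set G) := by
    refine ⟨s.preimage N.subtype N.subtype_injective.injOn, ?_⟩
    rw [Finset.coe_preimage, Set.image_preimage_eq_inter_range, Set.inter_eq_left]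
    intro x hx
    exact ⟨⟨x, hs hx⟩, rfl⟩
  rw [← ht, ← MonoidHom.map_closure]
  exact isNilpotent_map _ _ (h _)

theorem LNs.LN {G : Type*} [Group G] {N : Subgroup G} (h : LNs N) : LN N := by
  classical
  intro s
  apply isNilpotent_of_map N.subtype N.subtype_injective
  rw [MonoidHom.map_closure]
  have h1 := h (s.image N.subtype) (by
    intro x hx
    simp only [Finset.coe_image, Set.mem_image] at hx
    obtain ⟨y, -, rfl⟩ := hx
    exact y.2)
  rwa [Finset.coe_image] at h1

theorem LN_iff_top {G : Type*} [Group G] : LN G ↔ LNs (⊤ : Subgroup G) :=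
  ⟨fun h s _ => h s, fun h s => h s (by simp)⟩

theorem Engel.of_injective {G H : Type*} [Group G] [Group H] (f : H →* G)
    (hf : Function.Injective f) (h : Engel G) : Engel H := by
  intro x y
  obtain ⟨n, hn⟩ := h (f x) (f y)
  refine ⟨n, hf ?_⟩
  have h1 : ∀ n, f (eng x y n) = eng (f x) (f y) n := by
    intro n
    induction n with
    | zero => rfl
    | succ n ih => rw [eng_succ, eng_succ, map_commutatorElement, ih]
  rw [h1, hn, map_one]

theorem Engel.of_surjective {G H : Type*} [Group G] [Group H] (f : G →* H)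
    (hf : Function.Surjective f) (h : Engel G) : Engel H := by
  intro x y
  obtain ⟨x, rfl⟩ := hf x
  obtain ⟨y, rfl⟩ := hf y
  obtain ⟨n, hn⟩ := h x y
  refine ⟨n, ?_⟩
  have h1 : ∀ n, f (eng x y n) = eng (f x) (f y) n := by
    intro n
    induction n with
    | zero => rfl
    | succ n ih => rw [eng_succ, eng_succ, map_commutatorElement, ih]
  rw [← h1, hn, map_one]

end Pool.Agent.Lib.MP_544a1b_al
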