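import Pool.Agent.Lib.MP_544a1b_al.EN.Defs

/-!
EN-Tor: elements of finite order in groups whose two-generator subgroups are nilpotent.

Proof.
`torsion_of_nilpotent`: `Group.nilpotent_center_quotient_ind` (in `Nilpotent.lean`): by induction we may assume that the statement
holds for `K ⧸ center K`. That group is finitely generated (image of `S`), nilpotent, hence soluble, all elements have finite order, so
it is finite (`finite_of_torsion_aux` in `OnePer`, with `derivedSeries _ n = ⊥`). So `center K` has finite index, and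
`MonoidHom.transferCenterPow K : K →* center K`, `g ↦ g ^ (center K).index` is a homomorphism (Mathlib, `Transfer.lean`). The
set of the `g` whose image has finite order is a subgroup (the target is commutative) containing `S`, so it is everything; `g ^ m` of finite
order and `0 < m` give `g` of finite order. (State the induction with `S` finite and `closure S = ⊤` inside the predicate.)
`BN.finite_pair`: apply it to `K = closure {x, y}`, then `finite_of_torsion_aux` again.
`BN.exists_tors`: closed under products by `BN.finite_pair` (`x * y ∈ closure {x, y}`, finite), inverses and conjugates are clear.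
`BN.commute_of_coprime`: in the nilpotent group `K = closure {x, y}` show by downward induction on `i` that
`⁅x, y⁆ ∈ Subgroup.upperCentralSeries K i`: it is true for the class; if `⁅x, y⁆ ∈ Subgroup.upperCentralSeries K (i+1)` then in `K ⧸ upperCentralSeries K i` the
image of `⁅x, y⁆` is central, `⁅x^m, y⁆ = ⁅x,y⁆^m` (`commutator_pow_left` in `Basic`) so its `m`-th power is `1`; likewise
`⁅y^n, x⁆ = ⁅y,x⁆^n`, so its `n`-th power is `1`; coprime, so it is `1`. At `i = 0`: `⁅x, y⁆ = 1`. (Compare `pow_commutator_mem` and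
`commute_of_pow_aux` in `Basic.lean`.)
`BN.exists_ptors`: let `x ^ p^a = 1`, `y ^ p^b = 1`. `K = closure {x, y}` is finite and nilpotent; its Sylow `p`-subgroup is normal and
contains `x`, `y`. (Or: `x * y` has finite order `p^c * m` with `m` prime to `p`; let `v = (x*y)^(p^c)`, `v^m = 1`, so `v` commutes with `x` and `y` by
`commute_of_coprime`; ... Sylow is simpler: `Sylow.normal_of_normalizerCondition`, `Group.normalizerCondition_of_isNilpotent`,
`IsPGroup.exists_le_sylow`, `IsPGroup.of_surjective`/zpowers.)
-/

set_option autoImplicit false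

universe u

namespace Pool.Agent.Lib.MP_544a1b_al

open Subgroup
open scoped commutatorElement

private theorem tor_solv (K : Type u) [Group K] (hK : Group.IsNilpotent K) :
    ∃ n, derivedSeries K n = ⊥ := by
  have : Group.IsSolvable K := inferInstance
  exact this.solvable

private theorem tor_aux (K : Type u) [Group K] [hK : Group.IsNilpotent K] :
    ∀ S : Set K, S.Finite → closure S = ⊤ → (∀ s ∈ S, IsOfFinOrder s) →
    ∀ g : K, IsOfFinOrder g := by
  refine Group.nilpotent_center_quotient_ind
    (P := fun (K : Type u) [Group K] [Group.IsNilpotent K] => ∀ S : Set K, S.Finite →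
      closure S = ⊤ → (∀ s ∈ S, IsOfFinOrder s) → ∀ g : K, IsOfFinOrder g) K ?_ ?_
  · intro K _ _ S _ _ _ g
    rw [Subsingleton.elim g 1]
    exact IsOfFinOrder.one
  · intro K _ hK ih S hSf hS ht g
    set π := QuotientGroup.mk' (center K) with hπ
    have hsurj : Function.Surjective π := QuotientGroup.mk'_surjective _
    have hcl : closure (π '' S) = ⊤ := by
      rw [← MonoidHom.map_closure, hS]
      exact Subgroup.map_top_of_surjective π hsurj
    have hq := ih (π '' S) (hSf.image π) hcl (by
      rintro _ ⟨s, hs, rfl⟩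
      exact π.isOfFinOrder (ht s hs))
    have hfg : Group.FG (K ⧸ center K) :=
      Group.fg_iff.2 ⟨π '' S, hcl, hSf.image π⟩
    have hnil : Group.IsNilpotent (K ⧸ center K) := inferInstance
    obtain ⟨n, hn⟩ := tor_solv (K ⧸ center K) hnil
    have hfin : Finite (K ⧸ center K) := finite_of_torsion_aux n _ hq hn
    have hidx : (center K).FiniteIndex := Subgroup.finiteIndex_of_finite_quotient
    let φ := MonoidHom.transferCenterPow K
    have hφ : ∀ g : K, IsOfFinOrder (φ g) := by
      intro g
      have hg : g ∈ closure S := by rw [hS]; exact mem_top g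
      induction hg using closure_induction with
      | mem s hs => exact φ.isOfFinOrder (ht s hs)
      | one => rw [map_one]; exact IsOfFinOrder.one
      | mul a b _ _ ha hb =>
        rw [map_mul]
        have hc : Commute (φ a) (φ b) := Subtype.ext (mem_center_iff.1 (φ b).2 (φ a : K))
        exact hc.isOfFinOrder_mul ha hb
      | inv a _ ha => rw [map_inv]; exact ha.inv
    have h2 := hφ g
    rw [isOfFinOrder_iff_pow_eq_one] at h2 ⊢
    obtain ⟨m, hm, h3⟩ := h2
    refine ⟨(center K).index * m, Nat.mul_pos (Nat.pos_of_ne_zero hidx.index_ne_zero) hm, ?_⟩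
    rw [pow_mul]
    have h4 := congrArg (Subtype.val) h3
    simpa [φ, MonoidHom.transferCenterPow_apply] using h4

theorem torsion_of_nilpotent {K : Type u} [Group K] (hK : Group.IsNilpotent K) (S : Set K)
    (hSf : S.Finite) (hS : closure S = ⊤) (ht : ∀ s ∈ S, IsOfFinOrder s) :
    ∀ g : K, IsOfFinOrder g := tor_aux K S hSf hS ht

private theorem closure_pair_subtype {G : Type u} [Group G] (x y : G) :
    closure ({⟨x, subset_closure (by simp)⟩, ⟨y, subset_closure (by simp)⟩} :
      Set (closure ({x, y} : Set G))) = ⊤ := by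
  have h1 := map_closure_pair (closure ({x, y} : Set G)).subtype
    ⟨x, subset_closure (by simp)⟩ ⟨y, subset_closure (by simp)⟩
  simp only [coe_subtype] at h1
  apply Subgroup.map_injective (closure ({x, y} : Set G)).subtype_injective
  rw [h1, ← MonoidHom.range_eq_map, Subgroup.range_subtype]

theorem BN.finite_pair {G : Type u} [Group G] (h : BN G) {x y : G} (hx : IsOfFinOrder x)
    (hy : IsOfFinOrder y) : Finite (closure ({x, y} : Set G)) := by
  have hnil := h x y
  obtain ⟨n, hn⟩ := tor_solv _ hnil
  have hcl := closure_pair_subtype x y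
  have hfg : Group.FG (closure ({x, y} : Set G)) := Group.fg_iff.2 ⟨_, hcl, Set.toFinite _⟩
  have hcoe : ∀ (z : G) (hz : z ∈ closure ({x, y} : Set G)), IsOfFinOrder z →
      IsOfFinOrder (⟨z, hz⟩ : closure ({x, y} : Set G)) := by
    intro z hz h1
    rw [isOfFinOrder_iff_pow_eq_one] at h1 ⊢
    obtain ⟨m, hm, h2⟩ := h1
    exact ⟨m, hm, Subtype.ext (by simpa using h2)⟩
  refine finite_of_torsion_aux n _ (torsion_of_nilpotent hnil _ (Set.toFinite _) hcl ?_) hn
  intro s hs
  rcases hs with rfl | hs
  · exact hcoe _ _ hx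
  · rw [Set.mem_singleton_iff] at hs
    subst hs
    exact hcoe _ _ hy

theorem BN.exists_tors {G : Type u} [Group G] (h : BN G) :
    ∃ T : Subgroup G, T.Normal ∧ ∀ g, g ∈ T ↔ IsOfFinOrder g := by
  refine ⟨{ carrier := {g | IsOfFinOrder g}
            mul_mem' := ?_
            one_mem' := IsOfFinOrder.one
            inv_mem' := fun {x} hx => hx.inv }, ⟨?_⟩, fun g => Iff.rfl⟩
  · intro a b ha hb
    have hfin := h.finite_pair ha hb
    have ham : a ∈ closure ({a, b} : Set G) := subset_closure (by simp)
    have hbm : b ∈ closure ({a, b} : Set G) := subset_closure (by simp)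
    have h1 := isOfFinOrder_of_finite (⟨a * b, mul_mem ham hbm⟩ : closure ({a, b} : Set G))
    exact (closure ({a, b} : Set G)).subtype.isOfFinOrder h1
  · intro n hn g
    exact (MulAut.conj g).toMonoidHom.isOfFinOrder hn

private theorem commute_cop_aux {K : Type u} [Group K] [hK : Group.IsNilpotent K] {x y : K} {m n : ℕ}
    (hmn : Nat.Coprime m n) (hx : x ^ m = 1) (hy : y ^ n = 1) : ⁅x, y⁆ = 1 := by
  obtain ⟨c, hc⟩ := hK.nilpotent
  have key : ∀ k i : ℕ, k + i = c → ⁅x, y⁆ ∈ Subgroup.upperCentralSeries K i := by
    intro k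
    induction k with
    | zero =>
      intro i hi
      rw [zero_add] at hi
      rw [hi, hc]
      exact mem_top _
    | succ k ih =>
      intro i hi
      have h1 := ih (i + 1) (by omega)
      have h2 : ⁅x, y⁆ ^ m ∈ Subgroup.upperCentralSeries K i := by
        apply pow_commutator_mem i x y h1
        rw [hx, commutatorElement_one_left]
        exact one_mem _
      have h1' : ⁅y, x⁆ ∈ Subgroup.upperCentralSeries K (i + 1) := by
        rw [← commutatorElement_inv]
        exact inv_mem h1
      have h3 : ⁅x, y⁆ ^ n ∈ Subgroup.upperCentralSeries K i := by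
        have h4 : ⁅y, x⁆ ^ n ∈ Subgroup.upperCentralSeries K i := by
          apply pow_commutator_mem i y x h1'
          rw [hy, commutatorElement_one_left]
          exact one_mem _
        rw [← commutatorElement_inv, inv_pow] at h4
        exact inv_mem_iff.1 h4
      have h5 := Int.gcd_eq_gcd_ab m n
      rw [Int.gcd_natCast_natCast, hmn.gcd_eq_one] at h5
      have h6 : ⁅x, y⁆ = (⁅x, y⁆ ^ m) ^ (Int.gcdA m n) * (⁅x, y⁆ ^ n) ^ (Int.gcdB m n) := by
        rw [← zpow_natCast, ← zpow_natCast, ← zpow_mul, ← zpow_mul, ← zpow_add, ← h5]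
        simp
      rw [h6]
      exact mul_mem (zpow_mem h2 _) (zpow_mem h3 _)
  have h1 := key c 0 (by omega)
  rwa [Subgroup.upperCentralSeries_zero, mem_bot] at h1

theorem BN.commute_of_coprime {G : Type u} [Group G] (h : BN G) {x y : G} {m n : ℕ}
    (hmn : Nat.Coprime m n) (hx : x ^ m = 1) (hy : y ^ n = 1) : Commute x y := by
  have hnil := h x y
  have h1 := commute_cop_aux (K := closure ({x, y} : Set G))
    (x := ⟨x, subset_closure (by simp)⟩) (y := ⟨y, subset_closure (by simp)⟩) hmn
    (Subtype.ext (by simpa using hx)) (Subtype.ext (by simpa using hy))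
  have h2 := congrArg Subtype.val h1
  exact commutatorElement_eq_one_iff_commute.1 h2

theorem BN.exists_ptors {G : Type u} [Group G] (h : BN G) (p : ℕ) (hp : p.Prime) :
    ∃ T : Subgroup G, T.Normal ∧ ∀ g, g ∈ T ↔ ∃ k : ℕ, g ^ p ^ k = 1 := by
  have : Fact p.Prime := ⟨hp⟩
  refine ⟨{ carrier := {g | ∃ k : ℕ, g ^ p ^ k = 1}
            mul_mem' := ?_
            one_mem' := ⟨0, one_pow _⟩
            inv_mem' := ?_ }, ⟨?_⟩, fun g => Iff.rfl⟩
  · rintro a b ⟨k, hk⟩ ⟨l, hl⟩
    have ha : IsOfFinOrder a := isOfFinOrder_iff_pow_eq_one.2 ⟨p ^ k, pow_pos hp.pos k, hk⟩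
    have hb : IsOfFinOrder b := isOfFinOrder_iff_pow_eq_one.2 ⟨p ^ l, pow_pos hp.pos l, hl⟩
    have hfin := h.finite_pair ha hb
    have hnil := h a b
    have ham : a ∈ closure ({a, b} : Set G) := subset_closure (by simp)
    have hbm : b ∈ closure ({a, b} : Set G) := subset_closure (by simp)
    set K := closure ({a, b} : Set G) with hK
    have hall : ∀ (z : G) (hz : z ∈ K) (j : ℕ), z ^ p ^ j = 1 → ∀ P : Sylow p K,
        (⟨z, hz⟩ : K) ∈ (P : Subgroup K) := by
      intro z hz j hj P
      have hPn : (P : Subgroup K).Normal := Sylow.normal_of_normalizerCondition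
        (Group.normalizerCondition_of_isNilpotent (G := K)) P
      have h1 : IsPGroup p (zpowers (⟨z, hz⟩ : K)) := by
        rintro ⟨_, ⟨i, rfl⟩⟩
        refine ⟨j, Subtype.ext ?_⟩
        simp only [SubmonoidClass.mk_pow, OneMemClass.coe_one]
        apply Subtype.ext
        simp only [SubmonoidClass.coe_pow, SubgroupClass.coe_zpow, OneMemClass.coe_one]
        rw [← zpow_natCast, ← zpow_mul, mul_comm, zpow_mul, zpow_natCast, hj, one_zpow]
      obtain ⟨Q, hQ⟩ := h1.exists_le_sylow
      have hQP : Q = P := by
        have := Sylow.unique_of_normal P hPn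
        exact Subsingleton.elim _ _
      rw [← hQP]
      exact hQ (mem_zpowers _)
    obtain ⟨P⟩ : Nonempty (Sylow p K) := inferInstance
    obtain ⟨c, hc⟩ := P.2 ⟨⟨a, ham⟩ * ⟨b, hbm⟩, mul_mem (hall a ham k hk P) (hall b hbm l hl P)⟩
    refine ⟨c, ?_⟩
    have h3 := congrArg (fun z : P => ((z : K) : G)) hc
    simpa using h3
  · rintro x ⟨k, hk⟩
    exact ⟨k, by rw [inv_pow, hk, inv_one]⟩
  · rintro n ⟨k, hk⟩ g
    refine ⟨k, ?_⟩
    rw [conj_pow, hk]
    group

end Pool.Agent.Lib.MP_544a1b_al
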