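import Pool.Agent.Lib.MP_544a1b_al.EN.Cen
import Pool.Agent.Lib.MP_544a1b_al.EN.Tor

/-!
EN-Div: the divisible part of a binary nilpotent `p`-group with finite elementary abelian subgroups.

Proof.
`PG.pair_LF`: `s` with `QC p s`, `x : G`; `H = closure (range s ∪ {x})` is a locally finite group: `s n ∈ zpowers (s (n+1))`, so
`H` is the union of the increasing sequence of the finite (`BN.finite_pair`, all elements have finite order) subgroups
`closure {s n, x}` (`Subgroup.mem_iSup_of_directed` or `closure_iUnion`); a finite subset of `H` lies in one of them.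
`PG.qc_commute`: (A) for `s` with `QC p s` and `x : G`, `s 0` commutes with `x * s 0 * x⁻¹`: in the group `H` above the sequences `s` and
`n ↦ x * s n * x⁻¹` are `QC`; `PG.qc_commute_of_LF` for `H` (`PG.subgroup`), sequences into `H`.
More generally `s n` commutes with `x * s m * x⁻¹` for all `n, m`: with `k = max n m`, both are powers of `s k`, `x * s k * x⁻¹` (and use the shifted
sequence `QC.shift`). So `N = closure {g * s n * g⁻¹ : n : ℕ, g : G}` is commutative (`comm_closure`; two generators `g * s n * g⁻¹`,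
`h * s m * h⁻¹` commute, conjugate by `g⁻¹`) and normal. (B) for `t` with `QC p t`, `t 0` commutes with `N` by `QC.commute_normal`, in particular with
`s 0`.
`PG.exists_div`: `D = {g | ∃ s, QC p s ∧ s 0 = g}`. Since all the values of all the `QC` sequences commute (`QC.shift`), the
products `s n * t n`, inverses and conjugates are `QC` sequences; so `D` is a commutative normal subgroup. For `d = s 0 ∈ D`,
`e = s 1 ∈ D` (shift), `e ^ p = d`.
-/

set_option autoImplicit false

universe u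

namespace Pool.Agent.Lib.MP_544a1b_al

open Subgroup
open scoped commutatorElement

theorem PG.pair_LF {p : ℕ} (hp : p.Prime) {G : Type u} [Group G] (h : PG p G) (hb : BN G)
    {s : ℕ → G} (hs : QC p s) (x : G) : LF (closure (Set.range s ∪ {x}) : Subgroup G) := by
  classical
  have hfin : ∀ g : G, IsOfFinOrder g := by
    intro g
    obtain ⟨k, hk⟩ := h.pg g
    exact isOfFinOrder_iff_pow_eq_one.2 ⟨p ^ k, pow_pos hp.pos k, hk⟩
  let K : ℕ → Subgroup G := fun n => closure ({s n, x} : Set G)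
  have hKf : ∀ n, Finite (K n) := fun n => hb.finite_pair (hfin _) (hfin _)
  have hmono : Monotone K := by
    refine monotone_nat_of_le_succ fun n => ?_
    refine (closure_le _).2 ?_
    rintro y (rfl | rfl)
    · have h1 : s (n + 1) ∈ K (n + 1) := subset_closure (Or.inl rfl)
      have h2 := pow_mem h1 p
      rwa [hs n] at h2
    · exact subset_closure (Or.inr rfl)
  have hle : closure (Set.range s ∪ {x}) ≤ ⨆ n, K n := by
    refine (closure_le _).2 ?_
    rintro y (⟨n, rfl⟩ | rfl)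
    · exact (le_iSup K n) (subset_closure (Or.inl rfl))
    · exact (le_iSup K 0) (subset_closure (Or.inr rfl))
  have hmem : ∀ y : (closure (Set.range s ∪ {x}) : Subgroup G), ∃ n, (y : G) ∈ K n := fun y =>
    (Subgroup.mem_iSup_of_directed hmono.directed_le).1 (hle y.2)
  choose f hf using hmem
  intro S
  have h1 : (closure (S : Set (closure (Set.range s ∪ {x}) : Subgroup G))).map
      (closure (Set.range s ∪ {x}) : Subgroup G).subtype ≤ K (S.sup f) := by
    rw [MonoidHom.map_closure]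
    refine (closure_le _).2 ?_
    rintro _ ⟨y, hy, rfl⟩
    exact hmono (Finset.le_sup (f := f) hy) (hf y)
  have h2 : Finite (K (S.sup f)) := hKf _
  refine Finite.of_injective (fun z : closure (S : Set (closure (Set.range s ∪ {x}) : Subgroup G)) =>
    (⟨z.1.1, h1 ⟨z.1, z.2, rfl⟩⟩ : K (S.sup f))) ?_
  intro z w hzw
  have h3 : z.1.1 = w.1.1 := congrArg (fun v : K (S.sup f) => (v : G)) hzw
  exact Subtype.ext (Subtype.ext h3)

private theorem div_conj_pow {G : Type*} [Group G] (x a : G) (n : ℕ) :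
    (x * a * x⁻¹) ^ n = x * a ^ n * x⁻¹ := conj_pow

private theorem div_commute_conj {p : ℕ} (hp : p.Prime) {G : Type u} [Group G] (h : PG p G) (hb : BN G)
    {s : ℕ → G} (hs : QC p s) (x : G) : Commute (s 0) (x * s 0 * x⁻¹) := by
  have hx : x ∈ closure (Set.range s ∪ {x}) := subset_closure (Or.inr rfl)
  have hsn : ∀ n, s n ∈ closure (Set.range s ∪ {x}) := fun n => subset_closure (Or.inl ⟨n, rfl⟩)
  have hxs : ∀ n, x * s n * x⁻¹ ∈ closure (Set.range s ∪ {x}) := fun n =>
    mul_mem (mul_mem hx (hsn n)) (inv_mem hx)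
  have h1 := PG.qc_commute_of_LF hp (h.subgroup (closure (Set.range s ∪ {x})))
    (PG.pair_LF hp h hb hs x) (s := fun n => ⟨s n, hsn n⟩) (t := fun n => ⟨x * s n * x⁻¹, hxs n⟩)
    (fun n => Subtype.ext (hs n)) (fun n => Subtype.ext (by
      show (x * s (n + 1) * x⁻¹) ^ p = x * s n * x⁻¹
      rw [div_conj_pow, hs n]))
  exact congrArg Subtype.val h1

private theorem div_commute_conj' {p : ℕ} (hp : p.Prime) {G : Type u} [Group G] (h : PG p G) (hb : BN G)
    {s : ℕ → G} (hs : QC p s) (x : G) (n m : ℕ) : Commute (s n) (x * s m * x⁻¹) := by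
  have h1 := div_commute_conj hp h hb (hs.shift (max n m)) x
  simp only [zero_add] at h1
  obtain ⟨i, hi⟩ := Nat.exists_eq_add_of_le (le_max_left n m)
  obtain ⟨j, hj⟩ := Nat.exists_eq_add_of_le (le_max_right n m)
  have h2 : s (max n m) ^ p ^ i = s n := by
    have h3 := hs.pow n i
    rwa [← hi] at h3
  have h3 : s (max n m) ^ p ^ j = s m := by
    have h4 := hs.pow m j
    rwa [← hj] at h4
  rw [← h2, ← h3, ← div_conj_pow]
  exact h1.pow_pow _ _

theorem PG.qc_commute {p : ℕ} (hp : p.Prime) {G : Type u} [Group G] (h : PG p G) (hb : BN G)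
    {s t : ℕ → G} (hs : QC p s) (ht : QC p t) : Commute (s 0) (t 0) := by
  have hN : Ab (normalClosure (Set.range s)) := by
    refine comm_closure _ ?_
    intro a ha b hb'
    obtain ⟨_, ⟨n, rfl⟩, h1⟩ := Group.mem_conjugatesOfSet_iff.1 ha
    obtain ⟨_, ⟨m, rfl⟩, h2⟩ := Group.mem_conjugatesOfSet_iff.1 hb'
    obtain ⟨g, rfl⟩ := isConj_iff.1 h1
    obtain ⟨k, rfl⟩ := isConj_iff.1 h2
    have h3 := div_commute_conj' hp h hb hs (g⁻¹ * k) n m
    have h4 := (Commute.conj_iff g).2 h3
    have h5 : g * (g⁻¹ * k * s m * (g⁻¹ * k)⁻¹) * g⁻¹ = k * s m * k⁻¹ := by group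
    rwa [h5] at h4
  exact (QC.commute_normal hp h (normalClosure (Set.range s)) hN ht (s 0)
    (subset_normalClosure ⟨0, rfl⟩)).symm

theorem PG.exists_div {p : ℕ} (hp : p.Prime) {G : Type u} [Group G] (h : PG p G) (hb : BN G) :
    ∃ D : Subgroup G, D.Normal ∧ Ab D ∧ (∀ d ∈ D, ∃ e ∈ D, e ^ p = d) ∧
      ∀ s : ℕ → G, QC p s → s 0 ∈ D := by
  refine ⟨{ carrier := {g | ∃ s : ℕ → G, QC p s ∧ s 0 = g}
            one_mem' := ⟨fun _ => 1, fun _ => one_pow p, rfl⟩
            mul_mem' := ?_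
            inv_mem' := ?_ }, ⟨?_⟩, ?_, ?_, ?_⟩
  · rintro _ _ ⟨s, hs, rfl⟩ ⟨t, ht, rfl⟩
    refine ⟨fun n => s n * t n, fun n => ?_, rfl⟩
    have h1 := PG.qc_commute hp h hb (hs.shift (n + 1)) (ht.shift (n + 1))
    simp only [zero_add] at h1
    show (s (n + 1) * t (n + 1)) ^ p = s n * t n
    rw [h1.mul_pow, hs n, ht n]
  · rintro _ ⟨s, hs, rfl⟩
    refine ⟨fun n => (s n)⁻¹, fun n => ?_, rfl⟩
    show (s (n + 1))⁻¹ ^ p = (s n)⁻¹
    rw [inv_pow, hs n]
  · rintro _ ⟨s, hs, rfl⟩ g
    refine ⟨fun n => g * s n * g⁻¹, fun n => ?_, rfl⟩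
    show (g * s (n + 1) * g⁻¹) ^ p = g * s n * g⁻¹
    rw [div_conj_pow, hs n]
  · rintro _ ⟨s, hs, rfl⟩ _ ⟨t, ht, rfl⟩
    exact PG.qc_commute hp h hb hs ht
  · rintro _ ⟨s, hs, rfl⟩
    exact ⟨s 1, ⟨fun n => s (n + 1), hs.shift 1, rfl⟩, hs 0⟩
  · exact fun s hs => ⟨s, hs, rfl⟩

end Pool.Agent.Lib.MP_544a1b_al
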