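import Pool.Agent.Lib.MP_544a1b_al.EN.Cl2
import Pool.Agent.Lib.MP_544a1b_al.EN.Seq

/-!
EN-DqA: modulo the divisible part `D`: subgroups with elementary abelian quotient have finite index over `D`.

Proof. `K ≥ D`, `k ^ p ∈ D` for `k ∈ K`, commutators of `K` in `D`. `D` is commutative, normal, divisible by `p`.
(1) `C = K ⊓ centralizer D` contains `D`, `D` is central in `C`, so `D.relIndex C ≠ 0` by `PG.class_two`.
(2) `X = {d ∈ D : d^(p^2) = 1}` is finite (`PG.finite_omega`) and invariant under conjugation. Let `K₂` be the set of the `k ∈ K` which commute with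
`X`; `K₂.relIndex K ≠ 0` (kernel of the conjugation action on the finite set `X`; or an intersection of finitely many centralizers of
elements with finite orbits).
(3) Claim `K₂ ≤ C`. Let `x ∈ K₂`. By induction on `n` `x` commutes with all `d ∈ D` with `d^(p^n) = 1`. True for `n ≤ 2`. Let `n ≥ 2`,
`d^(p^(n+1)) = 1`, and choose `e ∈ D` with `e ^ p = d`. Let `v = ⁅x, e⁆ = x e x⁻¹ e⁻¹ ∈ D`. Conjugation by `x` is a
homomorphism on the commutative group `D`, so `⁅x, e^m⁆ = ⁅x, e⁆^m`: `v^(p^2) = ⁅x, e^(p^2)⁆ = ⁅x, d^p⁆ = 1` by induction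
(`(d^p)^(p^n) = 1`). So `v ∈ X` commutes with `x`. Hence `x^m e x^(-m) = v^m e` for all `m`, and for `m = p`: `x^p ∈ D` commutes with `e`, so
`v^p = 1`. `⁅x, d⁆ = ⁅x, e^p⁆ = v^p = 1`. Done.
(4) every element of `D` satisfies `d^(p^n) = 1` for some `n`; so `K₂ ≤ C`, `C.relIndex K ≠ 0`, and `relIndex_ne_zero_trans`.
-/

set_option autoImplicit false

universe u

namespace Pool.Agent.Lib.MP_544a1b_al

open Subgroup
open scoped commutatorElement

private theorem DqA_cent_ne_zero {G : Type u} [Group G] (K : Subgroup G) (X : Set G)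
    (hX : X.Finite) (hc : ∀ k ∈ K, ∀ x ∈ X, k * x * k⁻¹ ∈ X) (x : G) (hx : x ∈ X) :
    (centralizer ({x} : Set G)).relIndex K ≠ 0 := by
  have hfX : Finite X := hX.to_subtype
  have hf : Finite (K ⧸ (centralizer ({x} : Set G)).subgroupOf K) := by
    let f : K ⧸ (centralizer ({x} : Set G)).subgroupOf K → X :=
      Quotient.lift (fun k : K => (⟨(k : G) * x * (k : G)⁻¹, hc k k.2 x hx⟩ : X)) (by
        intro a b hab
        have h1 : a⁻¹ * b ∈ (centralizer ({x} : Set G)).subgroupOf K := by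
          rw [← QuotientGroup.leftRel_apply]
          exact hab
        rw [mem_subgroupOf, mem_centralizer_singleton_iff] at h1
        apply Subtype.ext
        show (a : G) * x * (a : G)⁻¹ = (b : G) * x * (b : G)⁻¹
        have h2 : ((a : G)⁻¹ * (b : G)) * x = x * ((a : G)⁻¹ * (b : G)) := h1
        calc (a : G) * x * (a : G)⁻¹
            = (a : G) * (x * ((a : G)⁻¹ * (b : G))) * (b : G)⁻¹ := by group
          _ = (a : G) * (((a : G)⁻¹ * (b : G)) * x) * (b : G)⁻¹ := by rw [h2]
          _ = (b : G) * x * (b : G)⁻¹ := by group)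
    refine Finite.of_injective f ?_
    intro a b
    refine Quotient.inductionOn₂ a b ?_
    intro a b hab
    have h3 : (a : G) * x * (a : G)⁻¹ = (b : G) * x * (b : G)⁻¹ := congrArg Subtype.val hab
    apply Quotient.sound
    show (QuotientGroup.leftRel _) a b
    rw [QuotientGroup.leftRel_apply, mem_subgroupOf, mem_centralizer_singleton_iff]
    show ((a : G)⁻¹ * (b : G)) * x = x * ((a : G)⁻¹ * (b : G))
    calc ((a : G)⁻¹ * (b : G)) * x
        = (a : G)⁻¹ * ((b : G) * x * (b : G)⁻¹) * (b : G) := by group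
      _ = (a : G)⁻¹ * ((a : G) * x * (a : G)⁻¹) * (b : G) := by rw [h3]
      _ = x * ((a : G)⁻¹ * (b : G)) := by group
  exact Subgroup.index_ne_zero_of_finite

private theorem DqA_conj_pow {G : Type u} [Group G] {x e v : G} (hv : v = x * e * x⁻¹ * e⁻¹)
    (hxv : Commute x v) (m : ℕ) : x ^ m * e * (x ^ m)⁻¹ = v ^ m * e := by
  induction m with
  | zero => simp
  | succ m ih =>
    have h1 : x * e * x⁻¹ = v * e := by rw [hv]; group
    calc x ^ (m + 1) * e * (x ^ (m + 1))⁻¹
        = x * (x ^ m * e * (x ^ m)⁻¹) * x⁻¹ := by rw [pow_succ']; group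
      _ = x * (v ^ m * e) * x⁻¹ := by rw [ih]
      _ = (x * v ^ m) * e * x⁻¹ := by group
      _ = (v ^ m * x) * e * x⁻¹ := by rw [(hxv.pow_right m).eq]
      _ = v ^ m * (x * e * x⁻¹) := by group
      _ = v ^ m * (v * e) := by rw [h1]
      _ = v ^ (m + 1) * e := by rw [pow_succ]; group

theorem PG.elem_quotient {p : ℕ} (hp : p.Prime) {G : Type u} [Group G] (h : PG p G)
    (D : Subgroup G) [D.Normal] (hD : Ab D) (hdiv : ∀ d ∈ D, ∃ e ∈ D, e ^ p = d) (K : Subgroup G)
    (hDK : D ≤ K) (hpK : ∀ k ∈ K, k ^ p ∈ D) (hK : ∀ k ∈ K, ∀ l ∈ K, ⁅k, l⁆ ∈ D) :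
    D.relIndex K ≠ 0 := by
  have hnorm : ∀ d ∈ D, ∀ g : G, g * d * g⁻¹ ∈ D := fun d hd g =>
    Subgroup.Normal.conj_mem inferInstance d hd g
  -- the elements of order dividing `p^2`
  set X : Set G := {a : G | a ∈ D ∧ a ^ p ^ 2 = 1} with hXdef
  have hX : X.Finite := h.finite_omega D hD 2
  have hXc : ∀ k ∈ K, ∀ x ∈ X, k * x * k⁻¹ ∈ X := by
    rintro k - x ⟨hx, hx2⟩
    refine ⟨hnorm x hx k, ?_⟩
    rw [conj_pow, hx2]
    group
  set K₂ : Subgroup G := ⨅ x : X, centralizer ({(x : G)} : Set G) with hK₂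
  have hfX : Finite X := hX.to_subtype
  have hK₂K : K₂.relIndex K ≠ 0 :=
    relIndex_iInf_ne_zero fun x => DqA_cent_ne_zero K X hX hXc x x.2
  have hK₂X : ∀ x ∈ K₂, ∀ a ∈ X, Commute x a := by
    intro x hx a ha
    have h1 := (Subgroup.mem_iInf.1 hx) ⟨a, ha⟩
    rw [mem_centralizer_singleton_iff] at h1
    exact h1
  -- the main claim
  have hcl : ∀ x ∈ K₂ ⊓ K, ∀ n : ℕ, ∀ d ∈ D, d ^ p ^ n = 1 → Commute x d := by
    rintro x ⟨hx2, hxK⟩ n
    induction n with
    | zero =>
      intro d hd h1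
      rw [pow_zero, pow_one] at h1
      rw [h1]
      exact Commute.one_right x
    | succ n ih =>
      intro d hd h1
      by_cases hn : n + 1 ≤ 2
      · apply hK₂X x hx2 d
        refine ⟨hd, ?_⟩
        obtain ⟨c, hc⟩ := Nat.exists_eq_add_of_le hn
        rw [hc, pow_add, pow_mul, h1, one_pow]
      · obtain ⟨e, he, hed⟩ := hdiv d hd
        set v := x * e * x⁻¹ * e⁻¹ with hv
        have hxe : x * e * x⁻¹ ∈ D := hnorm e he x
        have hvD : v ∈ D := D.mul_mem hxe (D.inv_mem he)
        have hcm : Commute (x * e * x⁻¹) e⁻¹ := hD _ hxe _ (D.inv_mem he)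
        have hvm : ∀ m : ℕ, v ^ m = x * e ^ m * x⁻¹ * (e ^ m)⁻¹ := by
          intro m
          rw [hv, hcm.mul_pow, conj_pow, inv_pow]
        have hvX : v ∈ X := by
          refine ⟨hvD, ?_⟩
          have h3 : e ^ p ^ 2 = d ^ p := by
            rw [← hed, ← pow_mul, pow_two]
          have h4 : Commute x (d ^ p) := by
            apply ih (d ^ p) (D.pow_mem hd p)
            rw [← pow_mul, ← pow_succ']
            exact h1
          rw [hvm, h3, h4.eq]
          group
        have hxv : Commute x v := hK₂X x hx2 v hvX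
        have hxp : x ^ p * e * (x ^ p)⁻¹ = e := by
          have h5 : Commute (x ^ p) e := hD _ (hpK x hxK) _ he
          rw [h5.eq]
          group
        have hvp : v ^ p = 1 := by
          have h6 := DqA_conj_pow hv hxv p
          rw [hxp] at h6
          exact (mul_eq_right.1 h6.symm)
        rw [hvm p, hed] at hvp
        show x * d = d * x
        calc x * d = (x * d * x⁻¹ * d⁻¹) * d * x := by group
          _ = d * x := by rw [hvp]; group
  set C : Subgroup G := K ⊓ centralizer (D : Set G) with hC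
  have hK₂C : K₂ ⊓ K ≤ C := by
    intro x hx
    refine ⟨hx.2, mem_centralizer_iff.2 ?_⟩
    intro d hd
    obtain ⟨n, hn⟩ := h.pg d
    exact ((hcl x hx n d hd hn).eq).symm
  have hCK : C.relIndex K ≠ 0 := by
    intro h0
    apply hK₂K
    have h1 := relIndex_eq_zero_of_le_left hK₂C h0
    rwa [inf_relIndex_right] at h1
  have hDC : D.relIndex C ≠ 0 := by
    apply h.class_two hp C D
    · intro d hd
      refine ⟨hDK hd, mem_centralizer_iff.2 ?_⟩
      intro c hc
      exact (hD c hc d hd).eq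
    · intro b hb k hk
      exact (mem_centralizer_iff.1 hk.2) b hb
    · exact fun k hk => hpK k hk.1
    · exact fun k hk l hl => hK k hk.1 l hl.1
  exact relIndex_ne_zero_trans hDC hCK

end Pool.Agent.Lib.MP_544a1b_al
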