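import Pool.Agent.Lib.MP_544a1b_al.EN.Defs

/-!
EN-Kon: an infinite commutative `p`-group with finitely many elements of order `p` contains a non-trivial sequence of successive
`p`-th roots.

Proof. By induction all the sets `Ω k = {x : x^(p^k) = 1}` are finite (as `x ↦ x^p` maps `Ω (k+1)` to `Ω k` with finite fibres, cosets of `Ω 1`).
As `X` is infinite, for each `n` there is `y ∉ Ω n`, of order `p^m`, `m > n`; its power `y' = y^(p^(m-n-1))` satisfies
`y'^(p^n) ≠ 1`, `y'^(p^(n+1)) = 1`. So for each `n` the set `{x ∈ Ω 1 : x ≠ 1, ∃ y, y^(p^n) = x}` is not empty; it is decreasing in `n` and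
contained in a finite set, so there is an `x ≠ 1`, `x^p = 1` which belongs to all of them.
`F n = {y : y^(p^n) = x}` is finite (contained in `Ω (n+1)`), non-empty, and `y ↦ y^p` maps `F (n+1)` to `F n`. König's lemma
(`nonempty_sections_of_finite_inverse_system` over `ℕᵒᵖ`, or a direct recursion: choose `s n` such that for all `m ≥ n` there is `y ∈ F m` with
`y^(p^(m-n)) = s n`) gives `s` with `s n ∈ F n`, `s (n+1)^p = s n`; `s 0 = x ≠ 1`.
-/

set_option autoImplicit false

universe u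

namespace Pool.Agent.Lib.MP_544a1b_al

open Subgroup

private theorem Kon_pigeon {X : Type u} {F : Set X} (hF : F.Finite) (Q : X → ℕ → Prop)
    (hQ : ∀ x n, Q x (n + 1) → Q x n) (h : ∀ n, ∃ x ∈ F, Q x n) : ∃ x ∈ F, ∀ n, Q x n := by
  by_contra hc
  push Not at hc
  choose! n hn using hc
  obtain ⟨N, hN⟩ := (hF.image n).bddAbove
  obtain ⟨x, hx, hxN⟩ := h N
  have h1 : n x ≤ N := hN ⟨x, hx, rfl⟩
  have h2 : ∀ k, Q x (n x + k) → Q x (n x) := by
    intro k
    induction k with
    | zero => exact fun h => h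
    | succ k ih => exact fun h => ih (hQ x _ h)
  refine hn x hx (h2 (N - n x) ?_)
  rwa [Nat.add_sub_cancel' h1]

private theorem Kon_fiber {p : ℕ} {X : Type u} [CommGroup X] (hf : {x : X | x ^ p = 1}.Finite) (b : X) :
    {x : X | x ^ p = b}.Finite := by
  rcases Set.eq_empty_or_nonempty {x : X | x ^ p = b} with h | ⟨x0, h0⟩
  · rw [h]
    exact Set.finite_empty
  · refine (hf.image fun y => x0 * y).subset ?_
    intro x hx
    refine ⟨x0⁻¹ * x, ?_, by group⟩
    have h1 : x0 ^ p = b := h0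
    have h2 : x ^ p = b := hx
    show (x0⁻¹ * x) ^ p = 1
    rw [mul_pow, inv_pow, h1, h2, inv_mul_cancel]

private theorem Kon_om {p : ℕ} {X : Type u} [CommGroup X] (hf : {x : X | x ^ p = 1}.Finite) (k : ℕ) :
    {x : X | x ^ p ^ k = 1}.Finite := by
  induction k with
  | zero =>
    refine (Set.finite_singleton (1 : X)).subset ?_
    intro x hx
    have h1 : x ^ p ^ 0 = 1 := hx
    rw [pow_zero, pow_one] at h1
    exact h1
  | succ k ih =>
    have h1 : {x : X | x ^ p ^ (k + 1) = 1} = (fun x : X => x ^ p) ⁻¹' {x : X | x ^ p ^ k = 1} := by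
      ext x
      show x ^ p ^ (k + 1) = 1 ↔ (x ^ p) ^ p ^ k = 1
      rw [← pow_mul, pow_succ' p k]
    rw [h1]
    exact ih.preimage' fun b _ => Kon_fiber hf b

theorem exists_qc {p : ℕ} (hp : p.Prime) {X : Type u} [CommGroup X] (hX : IsPGroup p X)
    (hinf : Infinite X) (hf : {x : X | x ^ p = 1}.Finite) : ∃ s : ℕ → X, QC p s ∧ s 0 ≠ 1 := by
  -- the elements which are `p ^ n`-th powers for all `n`
  have hdec : ∀ (x : X) (n : ℕ), (∃ y : X, y ^ p ^ (n + 1) = x) → ∃ y : X, y ^ p ^ n = x := by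
    rintro x n ⟨y, hy⟩
    refine ⟨y ^ p, ?_⟩
    rw [← pow_mul, ← pow_succ' p n]
    exact hy
  -- a non-trivial element of order `p`
  obtain ⟨x, ⟨hx1, hxp⟩, hx⟩ : ∃ x ∈ {x : X | x ≠ 1 ∧ x ^ p = 1}, ∀ n, ∃ y : X, y ^ p ^ n = x := by
    refine Kon_pigeon (hf.subset fun x hx => hx.2) (fun x n => ∃ y : X, y ^ p ^ n = x) hdec ?_
    intro N
    by_contra hc
    push Not at hc
    have h1 : ∀ z : X, z ^ p ^ (N + 1) = 1 → z ^ p ^ N = 1 := by
      intro z hz
      by_contra hz1
      refine hc (z ^ p ^ N) ⟨hz1, ?_⟩ z rfl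
      rw [← pow_mul, ← pow_succ p N]
      exact hz
    have h2 : ∀ (k : ℕ) (z : X), z ^ p ^ (N + k) = 1 → z ^ p ^ N = 1 := by
      intro k
      induction k with
      | zero => exact fun z hz => hz
      | succ k ih =>
        intro z hz
        refine ih z ?_
        have h3 : (z ^ p ^ k) ^ p ^ (N + 1) = 1 := by
          rw [← pow_mul, ← pow_add, show k + (N + 1) = N + (k + 1) by ring]
          exact hz
        have h4 := h1 _ h3
        rw [← pow_mul, ← pow_add, add_comm k N] at h4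
        exact h4
    have h5 : (Set.univ : Set X) ⊆ {x : X | x ^ p ^ N = 1} := by
      intro z _
      obtain ⟨m, hm⟩ := hX z
      refine h2 m z ?_
      show z ^ p ^ (N + m) = 1
      rw [add_comm, pow_add, pow_mul, hm, one_pow]
    exact (Set.infinite_univ_iff.2 hinf) ((Kon_om hf N).subset h5)
  -- roots of the elements of infinite height
  have hroot : ∀ x : {x : X // ∀ n, ∃ y : X, y ^ p ^ n = x},
      ∃ y : {x : X // ∀ n, ∃ y : X, y ^ p ^ n = x}, (y : X) ^ p = x := by
    rintro ⟨x, hx⟩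
    obtain ⟨y, hy, hyn⟩ := Kon_pigeon (Kon_fiber hf x) (fun x n => ∃ y : X, y ^ p ^ n = x) hdec (by
      intro n
      obtain ⟨z, hz⟩ := hx (n + 1)
      refine ⟨z ^ p ^ n, ?_, z, rfl⟩
      show (z ^ p ^ n) ^ p = x
      rw [← pow_mul, ← pow_succ p n]
      exact hz)
    exact ⟨⟨y, hyn⟩, hy⟩
  choose g hg using hroot
  refine ⟨fun n => ((g^[n]) ⟨x, hx⟩ : X), fun n => ?_, hx1⟩
  show (((g^[n + 1]) ⟨x, hx⟩ : {x : X // ∀ n, ∃ y : X, y ^ p ^ n = x}) : X) ^ p = _
  rw [Function.iterate_succ_apply']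
  exact hg _

end Pool.Agent.Lib.MP_544a1b_al
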