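import Pool.Agent.Lib.MP_544a1b_al.EN.DqA
import Pool.Agent.Lib.MP_544a1b_al.EN.Kon

/-!
EN-DqB: modulo the divisible part commutative subgroups are finite.

Proof. `D` commutative, normal, divisible by `p`, containing `s 0` for all `QC` sequences `s`. Let `A ≤ G ⧸ D` be commutative.
(1) `{a ∈ A : a ^ p = 1}` is finite: its preimage `K` in `G` (a subgroup: `A` is commutative) satisfies the hypotheses of
`PG.elem_quotient`, so `D.relIndex K ≠ 0`, which says that the image of `K` is finite.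
(2) Suppose `A` is infinite. `exists_qc` for the group `A` (as a `CommGroup`; it is a `p`-group) gives `a : ℕ → G ⧸ D`, `QC p a`,
`a 0 ≠ 1`, `a n ∈ A`. Choose `g n : G` with image `a n`: `(g (n+1)) ^ p ∈ g n * D`.
(3) The `g n` commute with `D`: let `d ∈ D`, `d^(p^k) = 1`, `X = {e ∈ D : e^(p^k) = 1}` finite (`PG.finite_omega`), invariant under
conjugation; the conjugation action `G → Perm X` is trivial on `D` (commutative), so it factors through `G ⧸ D`; `QC.hom_eq_one` for the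
`p`-group `G ⧸ D` and the shifted sequence `a (· + n)` says that `a n` acts trivially, i.e. `g n` commutes with `X`.
(4) Recursively there is `c : ℕ → G` with `c 0 = g 0`, `c n ∈ g n * D` (image of `c n` is `a n`), `c (n+1) ^ p = c n`: given `c n`, `g (n+1) ^ p` has the
same image as `c n`, so `g (n+1) ^ p = c n * d` with `d ∈ D`, `d = e ^ p` with `e ∈ D`; `c (n+1) = g (n+1) * e⁻¹`; as `g (n+1)` commutes
with `e`, `c (n+1) ^ p = g (n+1)^p * e^(-p) = c n`.
(5) `c` is `QC`, so `c 0 ∈ D`, so `a 0 = 1`, a contradiction.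
-/

set_option autoImplicit false

universe u

namespace Pool.Agent.Lib.MP_544a1b_al

open Subgroup
open scoped commutatorElement

/-- the conjugation action on an invariant set -/
private def dqb_act {G : Type u} [Group G] (X : Set G) (hX : ∀ x ∈ X, ∀ g : G, g * x * g⁻¹ ∈ X) :
    G →* Equiv.Perm X where
  toFun g :=
    { toFun := fun x => ⟨g * x * g⁻¹, hX x x.2 g⟩
      invFun := fun x => ⟨g⁻¹ * x * g, by simpa using hX x x.2 g⁻¹⟩
      left_inv := fun x => by
        apply Subtype.ext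
        simp [mul_assoc]
      right_inv := fun x => by
        apply Subtype.ext
        simp [mul_assoc] }
  map_one' := by
    ext x
    simp
  map_mul' g k := by
    ext x
    simp [mul_assoc]

private theorem dqb_comm {p : ℕ} (hp : p.Prime) {G : Type u} [Group G] (h : PG p G)
    (D : Subgroup G) [D.Normal] (hD : Ab D) {a : ℕ → G ⧸ D} (ha : QC p a) (n : ℕ) (g : G)
    (hg : (g : G ⧸ D) = a n) : ∀ d ∈ D, Commute g d := by
  intro d hd
  obtain ⟨k, hk⟩ := h.pg d
  obtain ⟨X, hX⟩ : ∃ X : Set G, X = {e : G | e ∈ D ∧ e ^ p ^ k = 1} := ⟨_, rfl⟩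
  have hXfin : X.Finite := by
    rw [hX]
    exact h.finite_omega D hD k
  have hXc : ∀ x ∈ X, ∀ g : G, g * x * g⁻¹ ∈ X := by
    intro x hx g
    rw [hX] at hx ⊢
    refine ⟨(inferInstance : D.Normal).conj_mem x hx.1 g, ?_⟩
    rw [conj_pow, hx.2, mul_one, mul_inv_cancel]
  have hXD : ∀ x ∈ X, x ∈ D := by
    intro x hx
    rw [hX] at hx
    exact hx.1
  have hdX : d ∈ X := by
    rw [hX]
    exact ⟨hd, hk⟩
  have : Finite X := hXfin
  have hker : D ≤ (dqb_act X hXc).ker := by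
    intro e he
    rw [MonoidHom.mem_ker]
    ext x
    show e * (x : G) * e⁻¹ = x
    rw [(hD e he x (hXD x x.2)).eq, mul_inv_cancel_right]
  have h1 := QC.hom_eq_one hp (h.pg.to_quotient D) (QuotientGroup.lift D (dqb_act X hXc) hker)
    (ha.shift n)
  simp only [zero_add] at h1
  rw [← hg, QuotientGroup.lift_mk] at h1
  have h2 := congrArg (fun f : Equiv.Perm X => ((f ⟨d, hdX⟩ : X) : G)) h1
  have h3 : g * d * g⁻¹ = d := h2
  exact mul_inv_eq_iff_eq_mul.1 h3

theorem PG.ab_quotient_finite {p : ℕ} (hp : p.Prime) {G : Type u} [Group G] (h : PG p G)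
    (D : Subgroup G) [D.Normal] (hD : Ab D) (hdiv : ∀ d ∈ D, ∃ e ∈ D, e ^ p = d)
    (hqc : ∀ s : ℕ → G, QC p s → s 0 ∈ D) (A : Subgroup (G ⧸ D)) (hA : Ab A) :
    (A : Set (G ⧸ D)).Finite := by
  classical
  -- the elements of order `p`
  obtain ⟨A₁, hA₁⟩ : ∃ A₁ : Subgroup (G ⧸ D), ∀ x, x ∈ A₁ ↔ x ∈ A ∧ x ^ p = 1 := by
    refine ⟨{ carrier := {x | x ∈ A ∧ x ^ p = 1}, mul_mem' := ?_, one_mem' := ?_, inv_mem' := ?_ },
      fun x => Iff.rfl⟩
    · rintro x y ⟨hx1, hx2⟩ ⟨hy1, hy2⟩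
      refine ⟨A.mul_mem hx1 hy1, ?_⟩
      rw [(hA x hx1 y hy1).mul_pow, hx2, hy2, mul_one]
    · exact ⟨A.one_mem, one_pow _⟩
    · rintro x ⟨hx1, hx2⟩
      refine ⟨A.inv_mem hx1, ?_⟩
      rw [inv_pow, hx2, inv_one]
  have hfin1 : Finite A₁ := by
    obtain ⟨K, hK⟩ : ∃ K : Subgroup G, K = A₁.comap (QuotientGroup.mk' D) := ⟨_, rfl⟩
    have hmem : ∀ k, k ∈ K ↔ (k : G ⧸ D) ∈ A ∧ (k : G ⧸ D) ^ p = 1 := by
      intro k
      rw [hK, Subgroup.mem_comap, hA₁]
      rfl
    have h1 : D.relIndex K ≠ 0 := by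
      refine h.elem_quotient hp D hD hdiv K ?_ ?_ ?_
      · intro d hd
        rw [hmem, (QuotientGroup.eq_one_iff d).2 hd]
        exact ⟨A.one_mem, one_pow _⟩
      · intro k hk
        rw [← QuotientGroup.eq_one_iff, QuotientGroup.mk_pow]
        exact ((hmem k).1 hk).2
      · intro k hk l hl
        rw [← QuotientGroup.eq_one_iff]
        have h2 := hA _ ((hmem k).1 hk).1 _ ((hmem l).1 hl).1
        have h3 : ((⁅k, l⁆ : G) : G ⧸ D) = ⁅(k : G ⧸ D), (l : G ⧸ D)⁆ := rfl
        rw [h3, commutatorElement_eq_one_iff_mul_comm]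
        exact h2
    have h2 : (⊥ : Subgroup (G ⧸ D)).comap (QuotientGroup.mk' D) = D := by
      rw [MonoidHom.comap_bot, QuotientGroup.ker_mk']
    have h3 : D.relIndex K = (⊥ : Subgroup (G ⧸ D)).relIndex (K.map (QuotientGroup.mk' D)) := by
      conv_lhs => rw [← h2]
      exact Subgroup.relIndex_comap _ _ _
    rw [h3, hK, Subgroup.map_comap_eq_self_of_surjective (QuotientGroup.mk'_surjective D),
      Subgroup.relIndex_bot_left] at h1
    exact Nat.finite_of_card_ne_zero h1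
  by_contra hinf
  have hinf' : Infinite A := by
    rw [← not_finite_iff_infinite]
    exact fun h => hinf (Set.toFinite _)
  let _ : CommGroup A :=
    { (inferInstance : Group A) with
      mul_comm := fun x y => Subtype.ext (hA x x.2 y y.2) }
  have hpA : IsPGroup p A := (h.pg.to_quotient D).to_subgroup A
  have hfA : {x : A | x ^ p = 1}.Finite := by
    have h1 : {x : A | x ^ p = 1} ⊆ Set.range fun y : A₁ => (⟨y, ((hA₁ y).1 y.2).1⟩ : A) := by
      intro x hx
      have hx' : (x : G ⧸ D) ^ p = 1 := by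
        have := congrArg (Subtype.val) (show x ^ p = 1 from hx)
        simpa using this
      exact ⟨⟨x, (hA₁ x).2 ⟨x.2, hx'⟩⟩, rfl⟩
    exact (Set.finite_range _).subset h1
  obtain ⟨s, hs, hs0⟩ := exists_qc hp hpA hinf' hfA
  obtain ⟨a, ha⟩ : ∃ a : ℕ → G ⧸ D, ∀ n, a n = (s n : G ⧸ D) := ⟨_, fun _ => rfl⟩
  have haq : QC p a := by
    intro n
    rw [ha, ha, ← hs n]
    rfl
  have ha0 : a 0 ≠ 1 := by
    rw [ha]
    intro hcon
    exact hs0 (Subtype.ext hcon)
  -- the lift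
  have hstep : ∀ n, ∀ x : G, (x : G ⧸ D) = a n → ∃ y : G, (y : G ⧸ D) = a (n + 1) ∧ y ^ p = x := by
    intro n x hx
    obtain ⟨g, hg⟩ := QuotientGroup.mk_surjective (a (n + 1))
    have h1 : ((x⁻¹ * g ^ p : G) : G ⧸ D) = 1 := by
      rw [QuotientGroup.mk_mul, QuotientGroup.mk_inv, QuotientGroup.mk_pow, hx, hg, haq n,
        inv_mul_cancel]
    rw [QuotientGroup.eq_one_iff] at h1
    obtain ⟨e, he, hep⟩ := hdiv _ h1
    have hc := dqb_comm hp h D hD haq (n + 1) g hg e he
    refine ⟨g * e⁻¹, ?_, ?_⟩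
    · rw [QuotientGroup.mk_mul, hg, (QuotientGroup.eq_one_iff (e⁻¹)).2 (D.inv_mem he), mul_one]
    · rw [hc.inv_right.mul_pow, inv_pow, hep]
      group
  obtain ⟨g₀, hg₀⟩ := QuotientGroup.mk_surjective (a 0)
  choose! f hf1 hf2 using hstep
  let c : ℕ → G := fun n => Nat.rec g₀ (fun n x => f n x) n
  have hc1 : ∀ n, (QuotientGroup.mk (c n) : G ⧸ D) = a n := by
    intro n
    induction n with
    | zero => exact hg₀
    | succ n ih => exact hf1 n (c n) ih
  have hcq : QC p c := fun n => hf2 n (c n) (hc1 n)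
  have h5 := hqc c hcq
  exact ha0 (by rw [← hc1 0]; exact (QuotientGroup.eq_one_iff _).2 h5)

end Pool.Agent.Lib.MP_544a1b_al
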