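import Pool.Agent.Lib.MP_544a1b_al.EN.Defs

/-!
EN-Elm: finite rank implies that elementary abelian subgroups are finite.

Proof. `A` commutative, `a ^ p = 1` for `a ∈ A`, `p > 0`, `FR A` with rank `r`. If `A` were infinite, choose a finite subset `F ⊆ A` with more than
`p ^ r` elements; `H = closure F` is finitely generated, so `H = closure s`, `s.card ≤ r`. The group `H` is commutative of exponent dividing `p` and
generated by `s`, so it has at most `p ^ r` elements: every element is a product `∏ i ∈ s, i ^ (k i)` with `0 ≤ k i < p` (the set of these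
products is a subgroup as `H` is commutative: a surjection from the functions `s → Fin p` / `s → ZMod p`). But `F ⊆ H`. Contradiction.
(By induction on `s` one can show: `(closure s : Set G)` is finite with `Nat.card ≤ p ^ s.card`.)
`PG_of_FR`: `P` a subgroup of `G` which is a `p`-group, all commutative subgroups of `G` have finite rank; a commutative subgroup `A` of `P`
gives the commutative subgroup `A.map P.subtype` of `G`.
-/

set_option autoImplicit false

universe u

namespace Pool.Agent.Lib.MP_544a1b_al

open Subgroup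
open scoped commutatorElement

private theorem Elm_bound {G : Type u} [Group G] {p : ℕ} (hp : 0 < p) (s : Finset G)
    (hc : ∀ a ∈ s, ∀ b ∈ s, Commute a b) (he : ∀ a ∈ s, a ^ p = 1) :
    ∃ T : Finset G, T.card ≤ p ^ s.card ∧ ((Subgroup.closure (s : Set G) : Subgroup G) : Set G) ⊆ T := by
  classical
  induction s using Finset.induction_on with
  | empty =>
    refine ⟨{1}, by simp, ?_⟩
    intro x hx
    have h1 : x ∈ Subgroup.closure (∅ : Set G) := by simpa using hx
    rw [Subgroup.closure_empty, Subgroup.mem_bot] at h1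
    simp [h1]
  | insert a s ha ih =>
    obtain ⟨T, hT1, hT2⟩ := ih
      (fun x hx y hy => hc x (Finset.mem_insert_of_mem hx) y (Finset.mem_insert_of_mem hy))
      (fun x hx => he x (Finset.mem_insert_of_mem hx))
    refine ⟨Finset.image₂ (fun (k : ℕ) (t : G) => a ^ k * t) (Finset.range p) T, ?_, ?_⟩
    · refine Finset.card_image₂_le _ _ _ |>.trans ?_
      rw [Finset.card_range, Finset.card_insert_of_notMem ha, pow_succ']
      exact Nat.mul_le_mul_left p hT1
    · have hcen : Subgroup.closure (s : Set G) ≤ Subgroup.centralizer {a} := by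
        rw [Subgroup.closure_le]
        intro x hx
        rw [SetLike.mem_coe, Subgroup.mem_centralizer_singleton_iff]
        exact (hc x (Finset.mem_insert_of_mem hx) a (Finset.mem_insert_self _ _)).eq
      have hcom : ∀ h ∈ Subgroup.closure (s : Set G), ∀ k : ℤ, h * a ^ k = a ^ k * h := by
        intro h hh k
        have h1 : Commute h a := (Subgroup.mem_centralizer_singleton_iff.1 (hcen hh))
        exact (h1.zpow_right k).eq
      have key : ∀ x ∈ Subgroup.closure ((insert a s : Finset G) : Set G),
          ∃ k : ℤ, ∃ h ∈ Subgroup.closure (s : Set G), x = a ^ k * h := by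
        intro x hx
        induction hx using Subgroup.closure_induction with
        | mem x hx =>
          rw [Finset.coe_insert] at hx
          rcases hx with rfl | hx
          · exact ⟨1, 1, one_mem _, by simp⟩
          · exact ⟨0, x, Subgroup.subset_closure hx, by simp⟩
        | one => exact ⟨0, 1, one_mem _, by simp⟩
        | mul x y _ _ h1 h2 =>
          obtain ⟨k, h, hh, rfl⟩ := h1
          obtain ⟨k', h', hh', rfl⟩ := h2
          refine ⟨k + k', h * h', mul_mem hh hh', ?_⟩
          rw [zpow_add, mul_assoc, ← mul_assoc h, hcom h hh k']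
          simp only [mul_assoc]
        | inv x _ h1 =>
          obtain ⟨k, h, hh, rfl⟩ := h1
          refine ⟨-k, h⁻¹, inv_mem hh, ?_⟩
          rw [mul_inv_rev, ← zpow_neg, hcom _ (inv_mem hh)]
      intro x hx
      obtain ⟨k, h, hh, rfl⟩ := key x hx
      have hap : a ^ (p : ℤ) = 1 := by
        rw [zpow_natCast]
        exact he a (Finset.mem_insert_self _ _)
      have hp' : (0 : ℤ) < p := by exact_mod_cast hp
      rw [Finset.coe_image₂]
      refine ⟨(k % (p : ℤ)).toNat, ?_, h, hT2 hh, ?_⟩
      · rw [Finset.mem_coe, Finset.mem_range]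
        have h1 := Int.emod_nonneg k hp'.ne'
        have h2 := Int.emod_lt_of_pos k hp'
        omega
      · show a ^ (k % (p : ℤ)).toNat * h = a ^ k * h
        congr 1
        rw [← zpow_natCast, Int.toNat_of_nonneg (Int.emod_nonneg k hp'.ne')]
        exact (zpow_eq_zpow_emod k hap).symm

theorem FR.finite_of_exponent {G : Type u} [Group G] {A : Subgroup G} (hA : Ab A) (hr : FR A) {p : ℕ}
    (hp : 0 < p) (h : ∀ a ∈ A, a ^ p = 1) : (A : Set G).Finite := by
  classical
  by_contra hinf
  obtain ⟨r, hr⟩ := hr
  obtain ⟨F, hF1, hF2⟩ := Set.Infinite.exists_subset_card_eq hinf (p ^ r + 1)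
  have hHA : Subgroup.closure (F : Set G) ≤ A := by
    rw [Subgroup.closure_le]
    exact hF1
  obtain ⟨s, hs1, hs2⟩ := hr _ hHA ⟨F, rfl⟩
  have hsA : ∀ a ∈ s, a ∈ A := fun a ha => hHA (by
    rw [← hs2]
    exact Subgroup.subset_closure ha)
  obtain ⟨T, hT1, hT2⟩ := Elm_bound hp s (fun a ha b hb => hA a (hsA a ha) b (hsA b hb))
    (fun a ha => h a (hsA a ha))
  have h1 : F ⊆ T := by
    intro x hx
    have h2 : x ∈ Subgroup.closure (s : Set G) := by
      rw [hs2]
      exact Subgroup.subset_closure hx
    exact hT2 h2
  have h2 := Finset.card_le_card h1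
  have h3 : p ^ s.card ≤ p ^ r := Nat.pow_le_pow_right hp hs1
  omega

theorem PG_of_FR {G : Type u} [Group G] (hab : ∀ A : Subgroup G, Ab A → FR A) {p : ℕ}
    (hp : 0 < p) (P : Subgroup G) (hP : ∀ g ∈ P, ∃ k : ℕ, g ^ p ^ k = 1) : PG p P := by
  refine ⟨fun g => ?_, fun A hA hAp => ?_⟩
  · obtain ⟨k, hk⟩ := hP g.1 g.2
    exact ⟨k, Subtype.ext hk⟩
  · have h1 := FR.finite_of_exponent (hA.map P.subtype) (hab _ (hA.map P.subtype)) hp (by
      rintro _ ⟨a, ha, rfl⟩
      rw [← map_pow, hAp a ha, map_one])
    have h2 : (A.map P.subtype : Set G) = P.subtype '' A := rfl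
    rw [h2] at h1
    exact h1.of_finite_image P.subtype_injective.injOn

end Pool.Agent.Lib.MP_544a1b_al
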