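import Pool.Agent.Lib.MP_544a1b_al.EN.Plk

/-!
EN-Ext: extensions of locally nilpotent groups by soluble groups which are Engel groups; soluble Engel groups
(Gruenberg).

Proof.
`ab_step`: `K ≤ L`, all commutators of `L` in `K`. By `Finset.induction_on`, for every finite `s` with `s ⊆ L` (as sets)
`LNs (K ⊔ closure s)`: `s = ∅`: `K ⊔ ⊥ = K`. `insert x s`: `K ⊔ closure (insert x s) = (K ⊔ closure s) ⊔ zpowers x`, and `x ∈ L`
normalises `K ⊔ closure s =: R ≤ L`: for `n ∈ R`, `x * n * x⁻¹ = ⁅x, n⁆ * n ∈ R` since `⁅x, n⁆ ∈ K`, and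
`x⁻¹ * n * x = ⁅x⁻¹, n⁆ * n`. So `plotkin` applies. Then `closure s ≤ K ⊔ closure s`, apply the statement to the finite set `s`.
`LN_of_derived`: `L j = N ⊔ derivedSeries G j`. `⁅L j, L j⁆ ≤ L (j+1)`: modulo `N` (in `G ⧸ N`) elements of `L j` are images of
elements of `derivedSeries G j`. `L d = N`, so `LNs (L d)`; by `ab_step` and downward induction `LNs (L 0)`, `L 0 = ⊤`, so `LN G`.
`LN_of_quotient`: `G ⧸ N` nilpotent, hence soluble: `derivedSeries (G ⧸ N) d = ⊥` for some `d`, so
`derivedSeries G d ≤ N` (`map_derivedSeries_eq` or `map_derivedSeries_le_derivedSeries`).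
`LN_of_solvable`: `N = ⊥`.
`BN_of_engel`: the group `closure {x, y}` is soluble and Engel (`Engel.of_injective`), so it is locally nilpotent, and it is
generated by two elements, so nilpotent (use `LN.. ` for the finite set `{⟨x,_⟩, ⟨y,_⟩}` whose closure is `⊤`, `Subgroup.isNilpotent_top`, or the
maps `isNilpotent_map`, `isNilpotent_of_map` of `Basic`).
`Engel_of_BN`: in the nilpotent group `closure {x, y}`, `eng x y n ∈ lowerCentralSeries n`.
-/

set_option autoImplicit false

universe u

namespace Pool.Agent.Lib.MP_544a1b_al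

open Subgroup
open scoped commutatorElement

theorem ab_step {G : Type u} [Group G] (hE : Engel G) (K L : Subgroup G) (hKL : K ≤ L)
    (hc : ∀ a ∈ L, ∀ b ∈ L, ⁅a, b⁆ ∈ K) (hK : LNs K) : LNs L := by
  classical
  have key : ∀ s : Finset G, (s : Set G) ⊆ (L : Set G) → LNs (K ⊔ closure (s : Set G)) := by
    intro s
    induction s using Finset.induction_on with
    | empty =>
      intro _
      rw [Finset.coe_empty, Subgroup.closure_empty, sup_bot_eq]
      exact hK
    | insert x s hx ih =>
      intro hs
      rw [Finset.coe_insert] at hs ⊢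
      have hxL : x ∈ L := hs (Set.mem_insert _ _)
      have hsL : (s : Set G) ⊆ L := fun y hy => hs (Set.mem_insert_of_mem _ hy)
      have hRL : K ⊔ closure (s : Set G) ≤ L := sup_le hKL ((closure_le _).2 hsL)
      have heq : K ⊔ closure (insert x (s : Set G)) =
          (K ⊔ closure (s : Set G)) ⊔ zpowers x := by
        rw [Set.insert_eq, Subgroup.closure_union, ← zpowers_eq_closure, sup_assoc,
          sup_comm (zpowers x)]
      rw [heq]
      refine plotkin _ x ?_ (ih hsL) (fun m _ => hE m x)
      intro n hn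
      have hnL := hRL hn
      constructor
      · have h1 : x * n * x⁻¹ = ⁅x, n⁆ * n := by rw [commutatorElement_def]; group
        rw [h1]
        exact mul_mem (mem_sup_left (hc x hxL n hnL)) hn
      · have h1 : x⁻¹ * n * x = ⁅x⁻¹, n⁆ * n := by rw [commutatorElement_def]; group
        rw [h1]
        exact mul_mem (mem_sup_left (hc _ (inv_mem hxL) n hnL)) hn
  intro s hs
  exact key s hs s (fun y hy => mem_sup_right (subset_closure hy))

theorem LN_of_derived {G : Type u} [Group G] (hE : Engel G) (N : Subgroup G) (hn : N.Normal)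
    (hN : LNs N) (d : ℕ) (hd : derivedSeries G d ≤ N) : LN G := by
  have key : ∀ j : ℕ, LNs (N ⊔ derivedSeries G j) → LN G := by
    intro j
    induction j with
    | zero =>
      intro h
      rw [derivedSeries_zero, sup_top_eq] at h
      exact LN_iff_top.2 h
    | succ j ih =>
      intro h
      refine ih (ab_step hE _ _ (sup_le_sup_left (derivedSeries_antitone G (Nat.le_succ j)) N)
        ?_ h)
      intro a ha b hb
      obtain ⟨n, hn', g, hg, rfl⟩ := mem_sup_of_normal_left.1 ha
      obtain ⟨m, hm, k, hk, rfl⟩ := mem_sup_of_normal_left.1 hb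
      have h1 : QuotientGroup.mk' N (⁅n * g, m * k⁆ * ⁅g, k⁆⁻¹) = 1 := by
        have h2 : ∀ z ∈ N, QuotientGroup.mk' N z = 1 := by
          intro z hz
          rw [← MonoidHom.mem_ker, QuotientGroup.ker_mk']
          exact hz
        rw [map_mul, map_inv, map_commutatorElement, map_commutatorElement, map_mul, map_mul,
          h2 n hn', h2 m hm, one_mul, one_mul, mul_inv_cancel]
      have h3 : ⁅n * g, m * k⁆ * ⁅g, k⁆⁻¹ ∈ N := by
        rw [← MonoidHom.mem_ker, QuotientGroup.ker_mk'] at h1
        exact h1
      have h4 : ⁅n * g, m * k⁆ = (⁅n * g, m * k⁆ * ⁅g, k⁆⁻¹) * ⁅g, k⁆ := by group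
      rw [h4]
      exact mul_mem (mem_sup_left h3) (mem_sup_right (commutator_mem_commutator hg hk))
  refine key d ?_
  rw [sup_eq_left.2 hd]
  exact hN

theorem LN_of_quotient {G : Type u} [Group G] (hE : Engel G) (N : Subgroup G) [N.Normal]
    (hN : LNs N) (hq : Group.IsNilpotent (G ⧸ N)) : LN G := by
  have := hq
  obtain ⟨d, hd⟩ := (inferInstance : Group.IsSolvable (G ⧸ N)).solvable
  refine LN_of_derived hE N inferInstance hN d ?_
  have h1 := map_derivedSeries_le_derivedSeries (QuotientGroup.mk' N) d
  rw [hd, le_bot_iff, (derivedSeries G d).map_eq_bot_iff, QuotientGroup.ker_mk'] at h1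
  exact h1

theorem LN_of_solvable {G : Type u} [Group G] (hE : Engel G) (hs : Group.IsSolvable G) : LN G := by
  obtain ⟨d, hd⟩ := hs.solvable
  refine LN_of_derived hE ⊥ inferInstance ?_ d hd.le
  intro s hs
  have h1 : closure (s : Set G) ≤ ⊥ := (closure_le _).2 hs
  have h2 : Group.IsNilpotent (⊥ : Subgroup G) := inferInstance
  exact isNilpotent_mono h1 h2

theorem BN_of_engel {G : Type u} [Group G] (hE : Engel G)
    (hs : ∀ x y : G, Group.IsSolvable (closure ({x, y} : Set G))) : BN G := by
  classical
  intro x y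
  have hx : x ∈ closure ({x, y} : Set G) := subset_closure (Set.mem_insert _ _)
  have hy : y ∈ closure ({x, y} : Set G) :=
    subset_closure (Set.mem_insert_of_mem _ (Set.mem_singleton _))
  have h1 : Engel (closure ({x, y} : Set G)) :=
    Engel.of_injective (closure ({x, y} : Set G)).subtype (subtype_injective _) hE
  have h2 : LN (closure ({x, y} : Set G)) := LN_of_solvable h1 (hs x y)
  have h3 := h2 {⟨x, hx⟩, ⟨y, hy⟩}
  have h4 := isNilpotent_map (closure ({x, y} : Set G)).subtype _ h3
  rw [Finset.coe_insert, Finset.coe_singleton, map_closure_pair] at h4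
  exact h4

theorem Engel_of_BN {G : Type u} [Group G] (h : BN G) : Engel G := by
  intro x y
  have hx : x ∈ closure ({x, y} : Set G) := subset_closure (Set.mem_insert _ _)
  have hy : y ∈ closure ({x, y} : Set G) :=
    subset_closure (Set.mem_insert_of_mem _ (Set.mem_singleton _))
  obtain ⟨n, hn⟩ := (isNilpotent_iff_lowerCentralSeries _).1 (h x y)
  have key : ∀ k, eng x y k ∈ (closure ({x, y} : Set G)).lowerCentralSeries k := by
    intro k
    induction k with
    | zero =>
      rw [eng_zero, Subgroup.lowerCentralSeries_zero]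
      exact hx
    | succ k ih =>
      rw [eng_succ, Subgroup.lowerCentralSeries_succ]
      exact commutator_mem_commutator ih hy
  refine ⟨n, ?_⟩
  have h1 := key n
  rw [hn, mem_bot] at h1
  exact h1

end Pool.Agent.Lib.MP_544a1b_al
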