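import Pool.Agent.Lib.MP_544a1b_al.EN.Defs

/-!
EN-Rnk: torsion-free commutative groups: finite rank or an infinite independent sequence.

Proof. `M = Additive A` is a torsion-free `ℤ`-module.
`rank_dichotomy`: Suppose there is no infinite linearly independent sequence. Take a maximal linearly independent set `b ⊆ M`
(`exists_linearIndependent'`, `exists_set_linearIndependent`, or `Module.rank`); it is finite, since an infinite set contains
the range of an injective sequence, which is independent; let `r` be its cardinality, so `Module.rank ℤ M = r` (`Module.rank ℤ M < ℵ₀`).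
Let `H` be a finitely generated subgroup: as a `ℤ`-submodule `H'` of `M` it is finitely generated and torsion-free, so free
(`Module.free_of_finite_type_torsion_free'` or instance) with a basis of `finrank ≤ r` elements (`Submodule.finrank_le`,
`Submodule.rank_le`). The image of the basis is a set of at most `r` elements with closure `H`.
(`Subgroup.FG`/`Submodule.FG`: `AddSubgroup.toIntSubmodule`, `Subgroup.fg_iff_add_fg`, `Submodule.fg_iff_addSubgroup_fg`.)
`indep_card_le`: if `x 0, …, x (r-1)` (`ι = Fin n`) are linearly independent over `ℤ` in `Additive A`, `k i > 0`, and all the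
`x i ^ k i` lie in `closure s`, `s` finite, then `n ≤ s.card`: the `k i • x i` are still independent (`LinearIndependent.units_smul` does not
apply; use `linearIndependent_iff'`), they lie in the span of `s`, so `n ≤ s.card` (`linearIndependent_le_span_finset`-like lemmas, for the
submodule `span ℤ s`; or `rank_span_finset_le` and `LinearIndependent.cardinal_le_rank`).
-/

set_option autoImplicit false

universe u

namespace Pool.Agent.Lib.MP_544a1b_al

open Subgroup

private theorem Rnk_span {A : Type u} [CommGroup A] (s : Set A) (x : A) :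
    x ∈ closure s ↔ Additive.ofMul x ∈ Submodule.span ℤ (Additive.toMul ⁻¹' s) := by
  have h1 : (Submodule.span ℤ (Additive.toMul ⁻¹' s)).toAddSubgroup =
      Subgroup.toAddSubgroup (closure s) := by
    rw [Subgroup.toAddSubgroup_closure, Submodule.span_int_eq_addSubgroupClosure]
  have h2 : Additive.ofMul x ∈ Submodule.span ℤ (Additive.toMul ⁻¹' s) ↔
      Additive.ofMul x ∈ (Submodule.span ℤ (Additive.toMul ⁻¹' s)).toAddSubgroup := Iff.rfl
  rw [h2, h1]
  exact Iff.rfl

theorem rank_dichotomy {A : Type u} [CommGroup A] (ht : ∀ (g : A) (n : ℕ), 0 < n → g ^ n = 1 → g = 1) :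
    (∃ r : ℕ, ∀ H : Subgroup A, H.FG →
      ∃ s : Finset A, s.card ≤ r ∧ closure (s : Set A) = H) ∨
    ∃ x : ℕ → A, LinearIndependent ℤ (fun n => Additive.ofMul (x n)) := by
  classical
  have htf : Module.IsTorsionFree ℤ (Additive A) := by
    refine Module.IsTorsionFree.of_smul_eq_zero fun r m hrm => ?_
    by_cases hr : r = 0
    · exact Or.inl hr
    · right
      have h1 : (Additive.toMul m) ^ r = 1 := hrm
      have h2 : (Additive.toMul m) ^ r.natAbs = 1 := by
        rcases Int.natAbs_eq r with h | h
        · rw [h, zpow_natCast] at h1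
          exact h1
        · rw [h, zpow_neg, zpow_natCast, inv_eq_one] at h1
          exact h1
      exact ht _ _ (Int.natAbs_pos.2 hr) h2
  obtain ⟨b, hbc, hb⟩ := exists_set_linearIndependent_of_isDomain ℤ (Additive A)
  by_cases hfin : b.Finite
  · left
    have hrank : Module.rank ℤ (Additive A) < Cardinal.aleph0 := by
      rw [← hbc]
      exact Cardinal.lt_aleph0_iff_set_finite.2 hfin
    refine ⟨Module.finrank ℤ (Additive A), fun H hH => ?_⟩
    obtain ⟨t, ht⟩ := hH
    obtain ⟨W, hW⟩ : ∃ W : Submodule ℤ (Additive A),
      W = Submodule.span ℤ (Additive.toMul ⁻¹' (t : Set A)) := ⟨_, rfl⟩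
    have hWfg : W.FG := by
      rw [hW]
      exact Submodule.fg_span (t.finite_toSet.preimage (Additive.toMul.injective.injOn))
    have hWf : Module.Finite ℤ W := Module.Finite.iff_fg.2 hWfg
    have hWfree : Module.Free ℤ W := Module.free_of_finite_type_torsion_free'
    have hle : Module.finrank ℤ W ≤ Module.finrank ℤ (Additive A) := by
      unfold Module.finrank
      exact Cardinal.toNat_le_toNat (Submodule.rank_le W) hrank
    obtain ⟨β⟩ : Nonempty (Module.Basis (Fin (Module.finrank ℤ W)) ℤ W) :=
      ⟨Module.finBasis ℤ W⟩
    refine ⟨Finset.univ.image fun i => Additive.toMul ((β i : W) : Additive A), ?_, ?_⟩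
    · refine Finset.card_image_le.trans ?_
      rw [Finset.card_univ, Fintype.card_fin]
      exact hle
    · ext x
      rw [← ht, Rnk_span, Rnk_span, ← hW]
      have h1 : Additive.toMul ⁻¹' ((Finset.univ.image fun i =>
          Additive.toMul ((β i : W) : Additive A) : Finset A) : Set A) =
          W.subtype '' (Set.range β) := by
        ext y
        simp only [Finset.coe_image, Finset.coe_univ, Set.image_univ, Set.mem_preimage,
          Set.mem_range, Set.mem_image, exists_exists_eq_and, Submodule.subtype_apply]
        constructor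
        · rintro ⟨i, hi⟩
          exact ⟨i, Additive.toMul.injective hi⟩
        · rintro ⟨i, hi⟩
          exact ⟨i, congrArg _ hi⟩
      rw [h1, Submodule.span_image, β.span_eq, Submodule.map_top, Submodule.range_subtype]
  · right
    obtain ⟨f⟩ : Nonempty (ℕ ↪ b) := ⟨Set.Infinite.natEmbedding b hfin⟩
    refine ⟨fun n => Additive.toMul (f n : Additive A), ?_⟩
    have h1 : LinearIndependent ℤ (fun x : b => (x : Additive A)) := hb
    exact h1.comp f f.injective

theorem indep_card_le {A : Type u} [CommGroup A] {n : ℕ} (x : Fin n → A)
    (hx : LinearIndependent ℤ (fun i => Additive.ofMul (x i))) (k : Fin n → ℕ) (hk : ∀ i, 0 < k i)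
    (s : Finset A) (hs : ∀ i, x i ^ k i ∈ closure (s : Set A)) : n ≤ s.card := by
  classical
  have hx' : LinearIndependent ℤ (fun i => (k i : ℤ) • Additive.ofMul (x i)) := by
    rw [linearIndependent_iff'] at hx ⊢
    intro S g hg i hi
    have h1 := hx S (fun i => g i * (k i : ℤ)) (by
      rw [← hg]
      refine Finset.sum_congr rfl fun j _ => ?_
      rw [mul_smul]) i hi
    have h2 : (k i : ℤ) ≠ 0 := by exact_mod_cast (hk i).ne'
    exact (mul_eq_zero.1 h1).resolve_right h2
  have h3 : Set.range (fun i => (k i : ℤ) • Additive.ofMul (x i)) ≤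
      Submodule.span ℤ ((s.image Additive.ofMul : Finset (Additive A)) : Set (Additive A)) := by
    rintro _ ⟨i, rfl⟩
    have h4 := (Rnk_span _ _).1 (hs i)
    have h5 : Additive.toMul ⁻¹' (s : Set A) =
        ((s.image Additive.ofMul : Finset (Additive A)) : Set (Additive A)) := by
      ext y
      simp only [Finset.coe_image, Set.mem_preimage, Set.mem_image]
      constructor
      · intro h
        exact ⟨_, h, rfl⟩
      · rintro ⟨z, hz, rfl⟩
        exact hz
    rw [h5] at h4
    have h6 : (k i : ℤ) • Additive.ofMul (x i) = Additive.ofMul (x i ^ k i) := by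
      rw [natCast_zsmul]
      rfl
    show (k i : ℤ) • Additive.ofMul (x i) ∈ _
    rw [h6]
    exact h4
  have h7 := linearIndependent_le_span_aux' _ hx'
    ((s.image Additive.ofMul : Finset (Additive A)) : Set (Additive A)) h3
  rw [Fintype.card_fin] at h7
  refine h7.trans ?_
  simp only [Finset.coe_sort_coe, Fintype.card_coe]
  exact Finset.card_image_le

end Pool.Agent.Lib.MP_544a1b_al
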