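import Pool.Agent.Lib.MP_544a1b_al.EN.Pow
import Pool.Agent.Lib.MP_544a1b_al.EN.Rnk

/-!
EN-Quo: commutative subgroups modulo the torsion subgroup have finite rank.

Proof. `T` is the torsion subgroup, `G ⧸ T` is torsion-free. Let `A ≤ G ⧸ T` be commutative; regard it as a `CommGroup`
(`{ (inferInstance : Group A) with mul_comm := ... }`), torsion-free. By `rank_dichotomy` for the group `A` either all finitely generated subgroups of
`A` are generated by at most `r` elements: then `FR A` (move from subgroups of `A` to subgroups of `G ⧸ T` contained in `A` by `map A.subtype`,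
`subgroupOf`, with `Finset.image`/`map`), or there is a sequence `x : ℕ → A`, independent over `ℤ`. We show that the second case is
impossible. Choose `g n : G` with `mk (g n) = x n`. For all `i, j, a, b` the commutator `⁅g i ^ a, g j ^ b⁆` is in `T` (its image is
trivial, as `A` is commutative), so it has finite order.
Claim: there are `φ : ℕ → ℕ × ℕ` with `(φ n).1` strictly increasing (at least injective), `(φ n).2 > 0` and the elements
`y n = g (φ n).1 ^ (φ n).2` commute pairwise. Use `exists_seq_of_forall_finset_exists` with `α = ℕ × ℕ`, `P (i, k) := 0 < k`,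
`r (i, k) (j, l) := i < j ∧ Commute (g i ^ k) (g j ^ l)`: given a finite `s` of such pairs, let `j` be larger than all first components, and for each
`(i, k) ∈ s` let `l_{(i,k)} > 0` be such that `g j ^ l_{(i,k)}` commutes with `g i ^ k` (`BN.exists_pow_commute`); let `l` be the product.
`B = closure (range y)` is commutative (`comm_closure` in `Rank.lean`), so it has finite rank `r` by `hab`. Let
`H = closure {y 0, …, y r}`, finitely generated, contained in `B`: there is `s` with `s.card ≤ r` and `closure s = H`. The image of `H` in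
`G ⧸ T` is generated by the image of `s`; the images of the `y n` lie in `A`, so the image of `H` and of `s` are in `A`. So in the group `A`
the elements `x (φ n).1 ^ (φ n).2`, `n ≤ r`, lie in the closure of a set of at most `r` elements; the `x (φ n).1`, `n ≤ r`, are
independent (`LinearIndependent.comp` with an injective map). `indep_card_le` gives `r + 1 ≤ r`, a contradiction.
-/

set_option autoImplicit false

universe u

namespace Pool.Agent.Lib.MP_544a1b_al

open Subgroup
open scoped commutatorElement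

private theorem Quo_move {Q : Type u} [Group Q] (A : Subgroup Q) (r : ℕ)
    (h : ∀ H : Subgroup A, H.FG → ∃ s : Finset A, s.card ≤ r ∧ closure (s : Set A) = H) :
    FR A := by
  classical
  refine ⟨r, fun H hHA hH => ?_⟩
  have h1 : Group.FG H := (Group.fg_iff_subgroup_fg H).2 hH
  have h2 : Group.FG (H.subgroupOf A) :=
    Group.fg_of_surjective (f := (Subgroup.subgroupOfEquivOfLe hHA).symm.toMonoidHom)
      (Subgroup.subgroupOfEquivOfLe hHA).symm.surjective
  obtain ⟨s, hs1, hs2⟩ := h (H.subgroupOf A) ((Group.fg_iff_subgroup_fg _).1 h2)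
  refine ⟨s.image A.subtype, Finset.card_image_le.trans hs1, ?_⟩
  rw [Finset.coe_image, ← MonoidHom.map_closure, hs2, Subgroup.map_subgroupOf_eq_of_le hHA]

private theorem Quo_seq {G : Type u} [Group G] (h : BN G) (g : ℕ → G)
    (hg : ∀ (i j a : ℕ), IsOfFinOrder ⁅g j, g i ^ a⁆) :
    ∃ φ : ℕ → ℕ × ℕ, (∀ n, 0 < (φ n).2) ∧ (∀ m n, m < n → (φ m).1 < (φ n).1) ∧
      ∀ m n, Commute (g (φ m).1 ^ (φ m).2) (g (φ n).1 ^ (φ n).2) := by
  classical
  obtain ⟨φ, h1, h2⟩ := exists_seq_of_forall_finset_exists (α := ℕ × ℕ) (fun p => 0 < p.2)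
    (fun p q => p.1 < q.1 ∧ Commute (g p.1 ^ p.2) (g q.1 ^ q.2)) (by
      intro s _
      set j := s.sup Prod.fst + 1 with hj
      have h3 : ∀ p : ℕ × ℕ, ∃ l : ℕ, 0 < l ∧ Commute (g j ^ l) (g p.1 ^ p.2) := fun p =>
        h.exists_pow_commute (hg p.1 j p.2)
      choose l hl1 hl2 using h3
      refine ⟨(j, ∏ p ∈ s, l p), Finset.prod_pos fun p _ => hl1 p, fun p hp => ⟨?_, ?_⟩⟩
      · have h4 : p.1 ≤ s.sup Prod.fst := Finset.le_sup (f := Prod.fst) hp
        show p.1 < j
        omega
      · obtain ⟨c, hc⟩ := Finset.dvd_prod_of_mem l hp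
        show Commute (g p.1 ^ p.2) (g j ^ ∏ p ∈ s, l p)
        rw [hc, pow_mul]
        exact ((hl2 p).pow_left c).symm)
  refine ⟨φ, h1, fun m n hmn => (h2 m n hmn).1, fun m n => ?_⟩
  rcases lt_trichotomy m n with hmn | rfl | hmn
  · exact (h2 m n hmn).2
  · exact Commute.refl _
  · exact (h2 n m hmn).2.symm

theorem BN.fr_quotient {G : Type u} [Group G] (h : BN G) (hab : ∀ A : Subgroup G, Ab A → FR A)
    (T : Subgroup G) [T.Normal] (hT : ∀ g, g ∈ T ↔ IsOfFinOrder g) (A : Subgroup (G ⧸ T))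
    (hA : Ab A) : FR A := by
  classical
  let _ : CommGroup A :=
    { (inferInstance : Group A) with mul_comm := fun a b => Subtype.ext (hA a a.2 b b.2) }
  have ht : ∀ (g : A) (n : ℕ), 0 < n → g ^ n = 1 → g = 1 := by
    intro g n hn hg
    obtain ⟨y, hy⟩ := QuotientGroup.mk_surjective (g : G ⧸ T)
    have h1 : (g : G ⧸ T) ^ n = 1 := congrArg (Subtype.val : A → G ⧸ T) hg
    have h2 : y ^ n ∈ T := by
      rw [← QuotientGroup.eq_one_iff, QuotientGroup.mk_pow, hy, h1]
    have h3 : IsOfFinOrder y := (isOfFinOrder_pow.1 ((hT _).1 h2)).resolve_right hn.ne'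
    apply Subtype.ext
    show (g : G ⧸ T) = 1
    rw [← hy, QuotientGroup.eq_one_iff, hT]
    exact h3
  rcases rank_dichotomy ht with ⟨r, hr⟩ | ⟨x, hx⟩
  · exact Quo_move A r hr
  exfalso
  choose g hg using fun n => QuotientGroup.mk_surjective (x n : G ⧸ T)
  have hcomm : ∀ i j a : ℕ, IsOfFinOrder ⁅g j, g i ^ a⁆ := by
    intro i j a
    rw [← hT, ← QuotientGroup.eq_one_iff]
    have h1 : ((⁅g j, g i ^ a⁆ : G) : G ⧸ T) = ⁅(x j : G ⧸ T), (x i : G ⧸ T) ^ a⁆ := by
      rw [← hg i, ← hg j]
      exact map_commutatorElement (QuotientGroup.mk' T) _ _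
    rw [h1]
    exact (commutatorElement_eq_one_iff_commute.2
      (hA _ (x j).2 _ (A.pow_mem (x i).2 a)))
  obtain ⟨φ, hφ1, hφ2, hφ3⟩ := Quo_seq h g hcomm
  set y : ℕ → G := fun n => g (φ n).1 ^ (φ n).2 with hy
  have hB : Ab (closure (Set.range y)) := comm_closure _ (by
    rintro _ ⟨m, rfl⟩ _ ⟨n, rfl⟩
    exact hφ3 m n)
  obtain ⟨r, hr⟩ := hab _ hB
  obtain ⟨s, hs1, hs2⟩ := hr (closure (Set.range fun i : Fin (r + 1) => y i))
    (closure_mono (by rintro _ ⟨i, rfl⟩; exact ⟨i, rfl⟩))
    ((Subgroup.fg_iff _).2 ⟨_, rfl, Set.finite_range _⟩)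
  have hyx : ∀ n, ((y n : G) : G ⧸ T) = (x (φ n).1 : G ⧸ T) ^ (φ n).2 := by
    intro n
    rw [hy]
    show ((g (φ n).1 ^ (φ n).2 : G) : G ⧸ T) = _
    rw [QuotientGroup.mk_pow, hg]
  have hHA : (closure (Set.range fun i : Fin (r + 1) => y i)).map (QuotientGroup.mk' T) ≤ A := by
    rw [MonoidHom.map_closure, closure_le]
    rintro _ ⟨_, ⟨i, rfl⟩, rfl⟩
    show ((y i : G) : G ⧸ T) ∈ A
    rw [hyx]
    exact A.pow_mem (x _).2 _
  have hsA : ∀ t ∈ s, ((t : G) : G ⧸ T) ∈ A := by
    intro t ht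
    apply hHA
    refine ⟨t, ?_, rfl⟩
    rw [← hs2]
    exact subset_closure ht
  set s' : Finset A := s.attach.image
    fun t : {t : G // t ∈ s} => ⟨((t.1 : G) : G ⧸ T), hsA t.1 t.2⟩ with hs'
  have hcard : s'.card ≤ r := by
    rw [hs']
    exact Finset.card_image_le.trans (by rw [Finset.card_attach]; exact hs1)
  have himg : A.subtype '' (s' : Set A) = QuotientGroup.mk' T '' (s : Set G) := by
    ext z
    constructor
    · rintro ⟨a, ha, rfl⟩
      rw [hs', Finset.mem_coe, Finset.mem_image] at ha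
      obtain ⟨t, -, rfl⟩ := ha
      exact ⟨t, t.2, rfl⟩
    · rintro ⟨t, ht, rfl⟩
      exact ⟨⟨((t : G) : G ⧸ T), hsA t ht⟩, Finset.mem_coe.2
        (Finset.mem_image.2 ⟨⟨t, ht⟩, Finset.mem_attach _ _, rfl⟩), rfl⟩
  have hinj : Function.Injective fun i : Fin (r + 1) => (φ i).1 := by
    intro i j hij
    rcases lt_trichotomy (i : ℕ) j with h1 | h1 | h1
    · exact absurd hij (hφ2 _ _ h1).ne
    · exact Fin.ext h1
    · exact absurd hij (hφ2 _ _ h1).ne'
  have hfin := indep_card_le (fun i : Fin (r + 1) => x (φ i).1)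
    (hx.comp (fun i : Fin (r + 1) => (φ i).1) hinj) (fun i => (φ i).2) (fun i => hφ1 i) s' (by
      intro i
      have h1 : ((y i : G) : G ⧸ T) ∈ (closure (s' : Set A)).map A.subtype := by
        rw [MonoidHom.map_closure, himg, ← MonoidHom.map_closure, hs2]
        exact ⟨y i, subset_closure ⟨i, rfl⟩, rfl⟩
      obtain ⟨z, hz, hz'⟩ := h1
      have h2 : z = x (φ i).1 ^ (φ i).2 := by
        apply Subtype.ext
        show A.subtype z = (x (φ i).1 : G ⧸ T) ^ (φ i).2
        rw [hz', hyx]
      rw [← h2]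
      exact hz)
  omega

end Pool.Agent.Lib.MP_544a1b_al
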