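import Pool.Agent.Lib.MP_544a1b_al.EN.Tor

/-!
EN-Tlp: the torsion subgroup is locally nilpotent if its primary components are.

Proof.
`LNs.sup_commute`: `M`, `N` commute elementwise. `closure s` for a finite `s ⊆ M ⊔ N`: every element of `M ⊔ N` is `m * n`
(`M ⊔ N` as the range of the homomorphism `M × N →* G`, `(m, n) ↦ m * n`, `MonoidHom.noncommCoprod`, or by
closure induction). So there are finite `A ⊆ M`, `B ⊆ N` with `s ⊆ closure A ⊔ closure B`. `closure A × closure B` is nilpotent (Mathlib has the
instance for products), and `closure A ⊔ closure B` is the image of the homomorphism `closure A × closure B →* G`; so it is nilpotent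
(`isNilpotent_map` in `Basic`, or `Group.nilpotent_of_surjective`), and `isNilpotent_mono`.
`BN.tors_LN`: let `P p` (for each prime) be the subgroup of `exists_ptors`. For a finite set `F` of primes `LNs (⨆ p ∈ F, P p)` by
`Finset.induction_on` and `LNs.sup_commute`: for `p ∉ F`, elements of `P p` commute with the elements of each `P q`, `q ≠ p`
(`commute_of_coprime`), so with the supremum (`centralizer` is a subgroup).
Each element `g` of order `n > 0` is in the supremum of the `P p`, `p ∣ n`: by induction on `n`
(`Nat.recOnPrimeCoprime`, or strong induction: if `n = p^a * m` with `m` prime to `p`, Bezout gives `g` as a product of a power of `g^m` and a power of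
`g^(p^a)`). So for finite `s ⊆ T`, `s` lies in `⨆ p ∈ F, P p` with `F` the set of the primes dividing the orders of the elements of `s`.
-/

set_option autoImplicit false

universe u

namespace Pool.Agent.Lib.MP_544a1b_al

open Subgroup
open scoped commutatorElement

theorem LNs.sup_commute {G : Type u} [Group G] {M N : Subgroup G} (hM : LNs M) (hN : LNs N)
    (h : ∀ m ∈ M, ∀ n ∈ N, Commute m n) : LNs (M ⊔ N) := by
  classical
  intro s hs
  have hφ : ∀ x ∈ M ⊔ N, ∃ c : M × N, (c.1 : G) * c.2 = x := by
    intro x hx
    have h1 : x ∈ (MonoidHom.noncommCoprod M.subtype N.subtype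
        (fun m n => h m m.2 n n.2)).range := by
      rw [MonoidHom.noncommCoprod_range, Subgroup.range_subtype, Subgroup.range_subtype]
      exact hx
    obtain ⟨c, hc⟩ := h1
    exact ⟨c, hc⟩
  choose! f hf using hφ
  have hA : ((s.image fun x => ((f x).1 : G) : Finset G) : Set G) ⊆ (M : Set G) := by
    intro x hx
    simp only [Finset.coe_image, Set.mem_image] at hx
    obtain ⟨y, -, rfl⟩ := hx
    exact (f y).1.2
  have hB : ((s.image fun x => ((f x).2 : G) : Finset G) : Set G) ⊆ (N : Set G) := by
    intro x hx
    simp only [Finset.coe_image, Set.mem_image] at hx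
    obtain ⟨y, -, rfl⟩ := hx
    exact (f y).2.2
  have h1 := hM _ hA
  have h2 := hN _ hB
  have hA' := (closure_le M).2 hA
  have hB' := (closure_le N).2 hB
  set A := closure ((s.image fun x => ((f x).1 : G) : Finset G) : Set G) with hAd
  set B := closure ((s.image fun x => ((f x).2 : G) : Finset G) : Set G) with hBd
  have h3 : Group.IsNilpotent (A × B) := inferInstance
  let ψ : A × B →* G := MonoidHom.noncommCoprod A.subtype B.subtype
    (fun a b => h a (hA' a.2) b (hB' b.2))
  have h4 : Group.IsNilpotent ψ.range :=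
    Group.nilpotent_of_surjective ψ.rangeRestrict ψ.rangeRestrict_surjective
  refine isNilpotent_mono ?_ h4
  rw [closure_le]
  intro x hx
  refine ⟨(⟨(f x).1, subset_closure ?_⟩, ⟨(f x).2, subset_closure ?_⟩), hf x (hs hx)⟩
  · exact Finset.mem_coe.2 (Finset.mem_image_of_mem _ hx)
  · exact Finset.mem_coe.2 (Finset.mem_image_of_mem _ hx)

theorem BN.tors_LN {G : Type u} [Group G] (h : BN G)
    (hp : ∀ p : ℕ, p.Prime → ∀ P : Subgroup G, (∀ g, g ∈ P ↔ ∃ k : ℕ, g ^ p ^ k = 1) → LNs P)
    (T : Subgroup G) (hT : ∀ g, g ∈ T ↔ IsOfFinOrder g) : LNs T := by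
  classical
  have hex : ∀ p : ℕ, ∃ P : Subgroup G, p.Prime → ∀ g, g ∈ P ↔ ∃ k : ℕ, g ^ p ^ k = 1 := by
    intro p
    by_cases hpp : p.Prime
    · obtain ⟨P, -, hP⟩ := h.exists_ptors p hpp
      exact ⟨P, fun _ => hP⟩
    · exact ⟨⊥, fun hpp' => absurd hpp' hpp⟩
  choose P hP using hex
  have hA : ∀ F : Finset ℕ, (∀ p ∈ F, p.Prime) → LNs (⨆ p ∈ F, P p) := by
    intro F
    induction F using Finset.induction_on with
    | empty =>
      intro _ s hs
      have h1 : closure (s : Set G) ≤ ⊥ := by
        rw [closure_le]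
        simpa using hs
      exact isNilpotent_mono h1 inferInstance
    | insert p F hpF ih =>
      intro hF
      rw [Finset.iSup_insert]
      refine LNs.sup_commute (hp p (hF p (Finset.mem_insert_self _ _)) _
        (hP p (hF p (Finset.mem_insert_self _ _))))
        (ih fun q hq => hF q (Finset.mem_insert_of_mem hq)) fun m hm n hn => ?_
      have h1 : (⨆ q ∈ F, P q) ≤ centralizer {m} := by
        refine iSup₂_le fun q hq z hz => ?_
        obtain ⟨k, hk⟩ := (hP p (hF p (Finset.mem_insert_self _ _)) m).1 hm
        obtain ⟨l, hl⟩ := (hP q (hF q (Finset.mem_insert_of_mem hq)) z).1 hz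
        have hne : p ≠ q := fun e => hpF (e ▸ hq)
        have h2 := h.commute_of_coprime (Nat.coprime_pow_primes k l
          (hF p (Finset.mem_insert_self _ _)) (hF q (Finset.mem_insert_of_mem hq)) hne) hk hl
        rw [mem_centralizer_singleton_iff]
        exact h2.eq.symm
      have h2 := h1 hn
      rw [mem_centralizer_singleton_iff] at h2
      exact h2.symm
  have hB : ∀ n : ℕ, 0 < n → ∀ g : G, g ^ n = 1 → g ∈ ⨆ p ∈ n.primeFactors, P p := by
    intro n
    induction n using Nat.recOnPosPrimePosCoprime with
    | prime_pow p k hpp hk =>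
      intro _ g hg
      have h1 : g ∈ P p := (hP p hpp g).2 ⟨k, hg⟩
      refine (le_iSup₂ (f := fun q (_ : q ∈ (p ^ k).primeFactors) => P q) p ?_) h1
      rw [Nat.primeFactors_prime_pow hk.ne' hpp]
      exact Finset.mem_singleton_self p
    | zero => intro h0; exact absurd h0 (lt_irrefl 0)
    | one =>
      intro _ g hg
      rw [pow_one] at hg
      rw [hg]
      exact one_mem _
    | coprime a b ha hb hab iha ihb =>
      intro _ g hg
      have h1 := ihb (by omega) (g ^ a) (by rw [← pow_mul]; exact hg)
      have h2 := iha (by omega) (g ^ b) (by rw [← pow_mul, mul_comm]; exact hg)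
      have h3 : (⨆ p ∈ b.primeFactors, P p) ≤ ⨆ p ∈ (a * b).primeFactors, P p :=
        biSup_mono fun p hp' => by
          rw [hab.primeFactors_mul]
          exact Finset.mem_union_right _ hp'
      have h4 : (⨆ p ∈ a.primeFactors, P p) ≤ ⨆ p ∈ (a * b).primeFactors, P p :=
        biSup_mono fun p hp' => by
          rw [hab.primeFactors_mul]
          exact Finset.mem_union_left _ hp'
      have h5 := Int.gcd_eq_gcd_ab a b
      rw [Int.gcd_natCast_natCast, hab.gcd_eq_one] at h5
      have h6 : g = (g ^ a) ^ (Int.gcdA a b) * (g ^ b) ^ (Int.gcdB a b) := by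
        rw [← zpow_natCast, ← zpow_natCast, ← zpow_mul, ← zpow_mul, ← zpow_add, ← h5]
        simp
      rw [h6]
      exact mul_mem (zpow_mem (h3 h1) _) (zpow_mem (h4 h2) _)
  intro s hs
  refine hA (s.biUnion fun g => (orderOf g).primeFactors) ?_ s ?_
  · intro p hp'
    rw [Finset.mem_biUnion] at hp'
    obtain ⟨g, -, hg⟩ := hp'
    exact Nat.prime_of_mem_primeFactors hg
  · intro g hg
    have h1 : IsOfFinOrder g := (hT g).1 (hs hg)
    have h2 := hB (orderOf g) h1.orderOf_pos g (pow_orderOf_eq_one g)
    have h3 : (⨆ p ∈ (orderOf g).primeFactors, P p) ≤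
        ⨆ p ∈ (s.biUnion fun g => (orderOf g).primeFactors), P p :=
      biSup_mono fun p hp' => Finset.mem_biUnion.2 ⟨g, Finset.mem_coe.1 hg, hp'⟩
    exact h3 h2

end Pool.Agent.Lib.MP_544a1b_al
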