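import Pool.Agent.Lib.MP_544a1b_al.EN.Pmn
import Pool.Agent.Lib.MP_544a1b_al.EN.Elm
import Pool.Agent.Lib.MP_544a1b_al.EN.Tlp
import Pool.Agent.Lib.MP_544a1b_al.EN.Quo

/-!
EN-Fin: Engel groups whose two-generator subgroups are soluble and whose abelian subgroups have finite rank.
-/

set_option autoImplicit false

universe u

namespace Pool.Agent.Lib.MP_544a1b_al

open Subgroup
open scoped commutatorElement

theorem BN.main {G : Type u} [Group G] (h : BN G) (hab : ∀ A : Subgroup G, Ab A → FR A) :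
    LN G ∧ ∃ (T : Subgroup G) (_ : T.Normal), (∀ g, g ∈ T ↔ IsOfFinOrder g) ∧
      Group.IsNilpotent (G ⧸ T) := by
  obtain ⟨T, hTn, hT⟩ := h.exists_tors
  have hq : BN (G ⧸ T) := h.of_surjective (QuotientGroup.mk' T) (QuotientGroup.mk'_surjective T)
  have htf : TF (G ⧸ T) := by
    intro g n hn hg
    obtain ⟨g, rfl⟩ := QuotientGroup.mk'_surjective T g
    rw [← map_pow, mk'_eq_one_iff, hT] at hg
    rw [mk'_eq_one_iff, hT]
    obtain ⟨m, hm, h1⟩ := isOfFinOrder_iff_pow_eq_one.1 hg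
    exact isOfFinOrder_iff_pow_eq_one.2 ⟨n * m, Nat.mul_pos hn hm, by rw [pow_mul]; exact h1⟩
  have hnil : Group.IsNilpotent (G ⧸ T) := by
    refine TB.isNilpotent ⟨htf, hq⟩ ?_
    intro A hA
    obtain ⟨r, hr⟩ := h.fr_quotient hab T hT A hA
    exact ⟨r, len_of_abelian A (fun a ha b hb => (hA a ha b hb).eq) r hr⟩
  refine ⟨?_, T, hTn, hT, hnil⟩
  refine LN_of_quotient (Engel_of_BN h) T ?_ hnil
  refine h.tors_LN (fun p hp P hP => ?_) T hT
  have hPG : PG p P := PG_of_FR hab hp.pos P (fun g hg => (hP g).1 hg)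
  exact LNs.of_LN (hPG.LN_of_BN hp (h.of_injective P.subtype P.subtype_injective))

end Pool.Agent.Lib.MP_544a1b_al
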