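import Pool.Agent.Lib.MP_544a1b_al.EN.Defs

/-!
EN-Lcs: the last non-trivial term of the lower central series of a finitely generated nilpotent group is
finitely generated.

Proof.
General claim by induction on `n`: there is a finite set `S_n` contained in `M.lowerCentralSeries n` such that
`M.lowerCentralSeries n ≤ closure S_n ⊔ M.lowerCentralSeries (n + 1)`.
For `n = 0` take a finite set `S` of generators of `M`.
Step: let `S_{n+1} = {⁅a, s⁆ : a ∈ S_n, s ∈ S}` and `L = closure S_{n+1} ⊔ M.lowerCentralSeries (n + 2)`.
`L ≤ M.lowerCentralSeries (n+1)`, and `⁅γ_{n+1}, M⁆ = γ_{n+2} ≤ L`, so `M` normalises `L`.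
The set of the `a ∈ γ_n` which satisfy `⁅a, m⁆ ∈ L` for all `m ∈ M` is a subgroup (`a` centralises `M` modulo `L`); it
contains `γ_{n+1}`; it contains each `a ∈ S_n`, because the set of the `m ∈ M` with `⁅a, m⁆ ∈ L` is a
subgroup which contains the generators `S`. So it is all of `γ_n`, and `γ_{n+1} = ⁅γ_n, M⁆ ≤ L`.
(It is convenient to work with `G := M`, `N := ⊤`, and the quotient `M / L`, where '`⁅a, m⁆ ∈ L`' reads 'the images commute';
`map_lowerCentralSeries`, `Subgroup.commutator_le`, `Subgroup.lowerCentralSeries_succ` are in Mathlib.)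
With `M.lowerCentralSeries (n + 1) = ⊥` the claim says that `M.lowerCentralSeries n = closure S_n`.
-/

set_option autoImplicit false

namespace Pool.Agent.Lib.MP_544a1b_al

open Subgroup
open scoped commutatorElement

private theorem Lcs_step {G : Type*} [Group G] (M : Subgroup G) (hfg : M.FG) (n : ℕ) :
    ∃ S : Finset G, (S : Set G) ⊆ (M.lowerCentralSeries n : Set G) ∧
      M.lowerCentralSeries n ≤ closure (S : Set G) ⊔ M.lowerCentralSeries (n + 1) := by
  classical
  obtain ⟨S, hS⟩ := hfg
  induction n with
  | zero =>
    refine ⟨S, ?_, ?_⟩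
    · rw [Subgroup.lowerCentralSeries_zero, ← hS]
      exact subset_closure
    · rw [Subgroup.lowerCentralSeries_zero, hS]
      exact le_sup_left
  | succ n ih =>
    obtain ⟨T, hT1, hT2⟩ := ih
    have hM : ∀ k, M.lowerCentralSeries k ≤ M := M.lowerCentralSeries_le_self
    refine ⟨Finset.image₂ (fun a s : G => ⁅a, s⁆) T S, ?_, ?_⟩
    · intro x hx
      rw [Finset.coe_image₂] at hx
      obtain ⟨a, ha, s, hs, rfl⟩ := hx
      have h1 : s ∈ M := by
        rw [← hS]
        exact subset_closure hs
      exact commutator_mem_commutator (hT1 ha) h1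
    · obtain ⟨L, hL⟩ : ∃ L : Subgroup G, L = closure ((Finset.image₂ (fun a s : G => ⁅a, s⁆) T S :
          Finset G) : Set G) ⊔ M.lowerCentralSeries (n + 1 + 1) := ⟨_, rfl⟩
      rw [← hL]
      have hL2 : M.lowerCentralSeries (n + 1 + 1) ≤ L := by
        rw [hL]
        exact le_sup_right
      have hL1 : L ≤ M.lowerCentralSeries (n + 1) := by
        rw [hL]
        refine sup_le ?_ (M.lowerCentralSeries_antitone (Nat.le_succ _))
        rw [closure_le]
        intro x hx
        rw [Finset.coe_image₂] at hx
        obtain ⟨a, ha, s, hs, rfl⟩ := hx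
        have h1 : s ∈ M := by
          rw [← hS]
          exact subset_closure hs
        exact commutator_mem_commutator (hT1 ha) h1
      have hnorm : ∀ l ∈ L, ∀ m ∈ M, m * l * m⁻¹ ∈ L := by
        intro l hl m hm
        have h1 : ⁅l, m⁆ ∈ L := hL2 (commutator_mem_commutator (hL1 hl) hm)
        have h2 : m * l * m⁻¹ = (l⁻¹ * ⁅l, m⁆)⁻¹ := by
          rw [commutatorElement_def]
          group
        rw [h2]
        exact L.inv_mem (L.mul_mem (L.inv_mem hl) h1)
      have hc1 : ∀ a ∈ T, ∀ m ∈ M, ⁅a, m⁆ ∈ L := by
        intro a ha m hm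
        have haM : a ∈ M := hM n (hT1 ha)
        have hm' : m ∈ closure (S : Set G) := by
          rw [hS]
          exact hm
        have h1 : m ∈ M ∧ ⁅a, m⁆ ∈ L := by
          induction hm' using closure_induction with
          | mem s hs =>
            refine ⟨?_, ?_⟩
            · rw [← hS]
              exact subset_closure hs
            · rw [hL]
              refine le_sup_left (α := Subgroup G) (subset_closure ?_)
              rw [Finset.coe_image₂]
              exact ⟨a, ha, s, hs, rfl⟩
          | one => exact ⟨M.one_mem, by rw [commutatorElement_one_right]; exact L.one_mem⟩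
          | mul x y hx hy h1 h2 =>
            have hxM : x ∈ M := by
              rw [← hS]
              exact hx
            have hyM : y ∈ M := by
              rw [← hS]
              exact hy
            refine ⟨M.mul_mem hxM hyM, ?_⟩
            have h3 : ⁅a, x * y⁆ = ⁅a, x⁆ * (x * ⁅a, y⁆ * x⁻¹) := by
              simp only [commutatorElement_def]
              group
            rw [h3]
            exact L.mul_mem (h1 hxM).2 (hnorm _ (h2 hyM).2 x hxM)
          | inv x hx h1 =>
            have hxM : x ∈ M := by
              rw [← hS]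
              exact hx
            refine ⟨M.inv_mem hxM, ?_⟩
            have h3 : ⁅a, x⁻¹⁆ = x⁻¹ * ⁅a, x⁆⁻¹ * x⁻¹⁻¹ := by
              simp only [commutatorElement_def]
              group
            rw [h3]
            exact hnorm _ (L.inv_mem (h1 hxM).2) _ (M.inv_mem hxM)
        exact h1.2
      rw [Subgroup.lowerCentralSeries_succ, commutator_le]
      intro a ha m hm
      have ha' : a ∈ closure ((T : Set G) ∪ (M.lowerCentralSeries (n + 1) : Set G)) := by
        rw [Subgroup.closure_union, Subgroup.closure_eq]
        exact hT2 ha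
      have h1 : a ∈ M ∧ ∀ m ∈ M, ⁅a, m⁆ ∈ L := by
        clear ha
        induction ha' using closure_induction with
        | mem x hx =>
          rcases hx with hx | hx
          · exact ⟨hM n (hT1 hx), hc1 x hx⟩
          · exact ⟨hM _ hx, fun m hm => hL2 (commutator_mem_commutator hx hm)⟩
        | one => exact ⟨M.one_mem, fun m _ => by rw [commutatorElement_one_left]; exact L.one_mem⟩
        | mul x y _ _ h1 h2 =>
          refine ⟨M.mul_mem h1.1 h2.1, fun m hm => ?_⟩
          have h3 : ⁅x * y, m⁆ = (x * ⁅y, m⁆ * x⁻¹) * ⁅x, m⁆ := by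
            simp only [commutatorElement_def]
            group
          rw [h3]
          exact L.mul_mem (hnorm _ (h2.2 m hm) x h1.1) (h1.2 m hm)
        | inv x _ h1 =>
          refine ⟨M.inv_mem h1.1, fun m hm => ?_⟩
          have h3 : ⁅x⁻¹, m⁆ = x⁻¹ * ⁅x, m⁆⁻¹ * x⁻¹⁻¹ := by
            simp only [commutatorElement_def]
            group
          rw [h3]
          exact hnorm _ (L.inv_mem (h1.2 m hm)) _ (M.inv_mem h1.1)
      exact h1.2 m hm

theorem fg_lcs_last {G : Type*} [Group G] (M : Subgroup G) (hfg : M.FG) (n : ℕ)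
    (h : M.lowerCentralSeries (n + 1) = ⊥) : (M.lowerCentralSeries n).FG := by
  obtain ⟨S, h1, h2⟩ := Lcs_step M hfg n
  refine ⟨S, le_antisymm ?_ ?_⟩
  · rw [closure_le]
    exact h1
  · rw [h, sup_bot_eq] at h2
    exact h2

end Pool.Agent.Lib.MP_544a1b_al
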