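import Pool.Agent.Lib.MP_544a1b_al.EN.Cen
import Pool.Agent.Lib.MP_544a1b_al.EN.Tor

/-!
EN-Max: a binary nilpotent `p`-group with finite commutative subgroups is finite.

Proof. (All commutative subgroups finite, so `PG p X`, and the same for all subgroups.)
(1) No strictly increasing sequence `f : ℕ → Subgroup X` of finite subgroups: its union `U = ⨆ i, f i` is a locally finite group, so `U` is finite by
`PG.finite_of_ab_finite`, but a strictly increasing sequence has an infinite union. (Compare the proof of `TB.isNilpotent` in `Main.lean`, which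
is the model for all of this module.)
(2) By `exists_max_of_no_chain` (in `Len.lean`) every finite subgroup is contained in a maximal finite subgroup.
(3) Suppose `X` is infinite. Let `M` be a maximal finite subgroup (above `⊥`), `M ≠ ⊤`, so there is `x ∉ M`; `zpowers x` is finite and contained in
a maximal finite subgroup `N ≠ M`. By (1) and `exists_max_of_no_chain` there is a maximal element `D` among the intersections `M ⊓ N` of two different
maximal finite subgroups `M ≠ N`. `D < M` and `D < N` (otherwise `M ≤ N`, so `M = N`).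
(4) `M`, `N` are finite `p`-groups, so nilpotent (`IsPGroup.isNilpotent`): `exists_normalizing` (in `Main.lean`) gives `a ∈ M`, `a ∉ D`, `b ∈ N`, `b ∉ D`
which normalise `D`. `P = closure {a, b}` is finite (`BN.finite_pair`) and normalises `D`, so `L₀ = D ⊔ P` is finite (`D ⊔ P` is the set
of the products `d * q`; `Subgroup.mul_normal`-like lemmas or `exists_finite_sup` in `OnePer.lean`, applied to generators). Let
`L ≥ L₀` be maximal finite. `D < L ⊓ M` as `a ∈ L ⊓ M`; if `L ≠ M` this contradicts the maximality of `D`. So `L = M`, and in the same way `L = N`. So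
`M = N`, a contradiction.
-/

set_option autoImplicit false

universe u

namespace Pool.Agent.Lib.MP_544a1b_al

open Subgroup
open scoped commutatorElement

private theorem max_LF {X : Type u} [Group X] (f : ℕ → Subgroup X) (hf : Monotone f)
    (hn : ∀ i, (f i : Set X).Finite) : LF (⨆ i, f i : Subgroup X) := by
  intro s
  have hex : ∀ x : (⨆ i, f i : Subgroup X), ∃ i, (x : X) ∈ f i := by
    intro x
    have := x.2
    rwa [Subgroup.mem_iSup_of_directed hf.directed_le] at this
  choose ix hix using hex
  have h1 : (closure (s : Set (⨆ i, f i : Subgroup X))).map (⨆ i, f i : Subgroup X).subtype ≤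
      f (s.sup ix) := by
    rw [MonoidHom.map_closure, Subgroup.closure_le]
    rintro _ ⟨x, hx, rfl⟩
    exact hf (Finset.le_sup hx) (hix x)
  have h2 : ((closure (s : Set (⨆ i, f i : Subgroup X)) :
      Set (⨆ i, f i : Subgroup X))).Finite := by
    apply Set.Finite.of_finite_image _ (Subtype.val_injective.injOn)
    exact (hn (s.sup ix)).subset h1
  exact h2.to_subtype

theorem BN.finite_of_ab_finite {p : ℕ} (hp : p.Prime) {X : Type u} [Group X] (hX : IsPGroup p X)
    (hb : BN X) (hab : ∀ A : Subgroup X, Ab A → (A : Set X).Finite) : Finite X := by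
  have : Fact p.Prime := ⟨hp⟩
  by_contra hG
  have hPG : PG p X := ⟨hX, fun A hA _ => hab A hA⟩
  have hfo : ∀ x : X, IsOfFinOrder x := by
    intro x
    obtain ⟨k, hk⟩ := hX x
    exact isOfFinOrder_iff_pow_eq_one.2 ⟨p ^ k, pow_pos hp.pos k, hk⟩
  have hchain : ∀ f : ℕ → Subgroup X, StrictMono f → (∀ i, (f i : Set X).Finite) → False := by
    intro f hf hp'
    have hUf : Finite (⨆ i, f i : Subgroup X) := by
      refine (hPG.subgroup (⨆ i, f i : Subgroup X)).finite_of_ab_finite hp
        (max_LF f hf.monotone hp') ?_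
      intro A hA
      apply Set.Finite.of_finite_image _ (Subtype.val_injective.injOn)
      exact hab (A.map (⨆ i, f i : Subgroup X).subtype) (hA.map _)
    have h1 : (Set.range f).Finite := by
      apply Set.Finite.subset (Set.Finite.preimage (f := fun D : Subgroup X => (D : Set X))
        (SetLike.coe_injective.injOn) ((Set.toFinite ((⨆ i, f i : Subgroup X) : Set X)).finite_subsets))
      rintro _ ⟨i, rfl⟩
      exact le_iSup f i
    exact Set.infinite_range_of_injective hf.injective h1
  have hmaxex : ∀ D : Subgroup X, (D : Set X).Finite →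
      ∃ M : Subgroup X, (M : Set X).Finite ∧ D ≤ M ∧
        ∀ N : Subgroup X, (N : Set X).Finite → M ≤ N → M = N :=
    fun D hD => exists_max_of_no_chain (fun D : Subgroup X => (D : Set X).Finite) hchain D hD
  have hnil : ∀ D : Subgroup X, (D : Set X).Finite → Group.IsNilpotent D := by
    intro D hD
    have : Finite D := hD.to_subtype
    exact (hX.to_subgroup D).isNilpotent
  obtain ⟨R, hR, -, hRmax⟩ := hmaxex ⊥ (by simp)
  have hRt : R ≠ ⊤ := by
    intro hcon
    apply hG
    rw [hcon, coe_top] at hR
    exact Set.finite_univ_iff.1 hR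
  obtain ⟨g, hg⟩ : ∃ g, g ∉ R := by
    by_contra hcon
    push Not at hcon
    exact hRt ((Subgroup.eq_top_iff' R).2 hcon)
  have hgf : ((closure ({g, g} : Set X) : Subgroup X) : Set X).Finite := by
    have := hb.finite_pair (hfo g) (hfo g)
    exact Set.toFinite _
  obtain ⟨M, hM, hIM, hMmax⟩ := hmaxex _ hgf
  have hgM : g ∈ M := hIM (Subgroup.subset_closure (by simp))
  have hRM : R ≠ M := by
    intro hcon
    rw [hcon] at hg
    exact hg hgM
  let Mx : Subgroup X → Prop := fun M => (M : Set X).Finite ∧
    ∀ N : Subgroup X, (N : Set X).Finite → M ≤ N → M = N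
  have hqp : ∀ D : Subgroup X, (∃ L M, Mx L ∧ Mx M ∧ L ≠ M ∧ D = L ⊓ M) →
      (D : Set X).Finite := by
    rintro D ⟨L, M, hL, hM, _, rfl⟩
    exact hL.1.subset inf_le_left
  obtain ⟨D, ⟨L, M, hL, hM, hLM, hD⟩, -, hDmax⟩ := exists_max_of_no_chain
    (fun D : Subgroup X => ∃ L M, Mx L ∧ Mx M ∧ L ≠ M ∧ D = L ⊓ M)
    (fun f hf hp => hchain f hf (fun i => hqp _ (hp i))) (R ⊓ M)
    ⟨R, M, ⟨hR, hRmax⟩, ⟨hM, hMmax⟩, hRM, rfl⟩
  have hDf := hqp D ⟨L, M, hL, hM, hLM, hD⟩
  have hDL : D < L := by
    apply lt_of_le_of_ne (hD ▸ inf_le_left)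
    intro hcon
    apply hLM
    exact hL.2 M hM.1 (by rw [← hcon, hD]; exact inf_le_right)
  have hDM : D < M := by
    apply lt_of_le_of_ne (hD ▸ inf_le_right)
    intro hcon
    apply hLM
    exact (hM.2 L hL.1 (by rw [← hcon, hD]; exact inf_le_left)).symm
  obtain ⟨x, hxL, hxD, hxn⟩ := exists_normalizing (hnil L hL.1) hDL
  obtain ⟨y, hyM, hyD, hyn⟩ := exists_normalizing (hnil M hM.1) hDM
  have hpf : ((closure ({x, y} : Set X) : Subgroup X) : Set X).Finite := by
    have := hb.finite_pair (hfo x) (hfo y)
    exact Set.toFinite _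
  have hle : closure ({x, y} : Set X) ≤ Subgroup.normalizer (D : Set X) := by
    rw [Subgroup.closure_le]
    intro z hz
    rw [SetLike.mem_coe, Subgroup.mem_normalizer_iff]
    rcases hz with rfl | hz
    · exact hxn
    · rw [Set.mem_singleton_iff] at hz
      rw [hz]; exact hyn
  have hsup : ((D ⊔ closure ({x, y} : Set X) : Subgroup X) : Set X).Finite := by
    rw [coe_mul_of_right_le_normalizer_left _ _ hle]
    exact hDf.mul hpf
  obtain ⟨T, hT, hXT, hTmax⟩ := hmaxex _ hsup
  have hxT : x ∈ T := hXT ((le_sup_right : closure ({x, y} : Set X) ≤ _)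
    (Subgroup.subset_closure (by simp)))
  have hyT : y ∈ T := hXT ((le_sup_right : closure ({x, y} : Set X) ≤ _)
    (Subgroup.subset_closure (by simp)))
  have hDT : D ≤ T := le_sup_left.trans hXT
  have hTL : T = L := by
    by_contra hne
    have h1 := hDmax (T ⊓ L) ⟨T, L, ⟨hT, hTmax⟩, hL, hne, rfl⟩ (le_inf hDT hDL.le)
    apply hxD
    rw [h1]
    exact ⟨hxT, hxL⟩
  have hTM : T = M := by
    by_contra hne
    have h1 := hDmax (T ⊓ M) ⟨T, M, ⟨hT, hTmax⟩, hM, hne, rfl⟩ (le_inf hDT hDM.le)
    apply hyD
    rw [h1]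
    exact ⟨hyT, hyM⟩
  exact hLM (hTL.symm.trans hTM)

end Pool.Agent.Lib.MP_544a1b_al
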