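import Pool.Agent.Lib.MP_544a1b_al.EN.Defs

/-!
EN-Ome: commutative subgroups of `p`-groups with finite elementary abelian subgroups.

Proof.
`PG.finite_omega`: induction on `k`. `k = 0`: only `1`. `k + 1`: the map `a ↦ a ^ p` maps `{a ∈ A : a^(p^(k+1)) = 1}` into the finite set
`{a ∈ A : a^(p^k) = 1}`; two elements with the same image differ by an element of `{a ∈ A : a^p = 1}`, which is the carrier of an
elementary abelian subgroup (commutative), so finite. (`Set.Finite.of_finite_fibers`, or `Set.Finite.preimage`-like arguments;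
fibres are finite.)
`PG.relIndex_ne_zero`: let `N` be the number of the elements `a ∈ M` with `a ^ p = 1` (finite, `PG.el`). Claim `B.relIndex M ≤ N` and it is finite:
otherwise there are elements `m 0, …, m N` of `M` in different cosets of `B`. `M₀ = closure {m i}` is a finitely generated commutative
torsion group, so finite (`CommGroup.finite_of_fg_isMulTorsion`, or via the lemma `finite_of_torsion_aux` in `OnePer`). The homomorphism
`M₀ → M₀`, `x ↦ x ^ p` has kernel of order `≤ N` and image contained in `B ⊓ M₀`, so `|M₀ : B ⊓ M₀| ≤ |M₀| / |image| = |kernel| ≤ N`. But the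
`m i` are in different cosets of `B ⊓ M₀` in `M₀`: contradiction.
(For instance: if `B.relIndex M = 0`, i.e. `M ⧸ B.subgroupOf M` infinite, choose `N + 1` different elements, `Infinite.exists_subset_card_eq`, and
representatives by `Quotient.out`.)
-/

set_option autoImplicit false

universe u

namespace Pool.Agent.Lib.MP_544a1b_al

open Subgroup
open scoped commutatorElement

/-- the elements of order `p` of a commutative subgroup -/
private def Ome_E {G : Type u} [Group G] (p : ℕ) (A : Subgroup G) (hA : Ab A) : Subgroup G where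
  carrier := {a | a ∈ A ∧ a ^ p = 1}
  one_mem' := ⟨A.one_mem, one_pow p⟩
  mul_mem' := by
    rintro a b ⟨ha, ha'⟩ ⟨hb, hb'⟩
    exact ⟨A.mul_mem ha hb, by rw [(hA a ha b hb).mul_pow, ha', hb', one_mul]⟩
  inv_mem' := by
    rintro a ⟨ha, ha'⟩
    exact ⟨A.inv_mem ha, by rw [inv_pow, ha', inv_one]⟩

private theorem Ome_E_fin {p : ℕ} {G : Type u} [Group G] (h : PG p G) (A : Subgroup G) (hA : Ab A) :
    {a : G | a ∈ A ∧ a ^ p = 1}.Finite :=
  h.el (Ome_E p A hA) (hA.mono fun _ ha => ha.1) fun _ ha => ha.2

theorem PG.finite_omega {p : ℕ} {G : Type u} [Group G] (h : PG p G) (A : Subgroup G) (hA : Ab A)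
    (k : ℕ) : {a : G | a ∈ A ∧ a ^ p ^ k = 1}.Finite := by
  induction k with
  | zero =>
    refine (Set.finite_singleton (1 : G)).subset ?_
    rintro a ⟨-, ha⟩
    rw [pow_zero, pow_one] at ha
    exact ha
  | succ k ih =>
    refine Set.Finite.of_finite_fibers (fun a : G => a ^ p) (ih.subset ?_) ?_
    · rintro _ ⟨a, ⟨ha, ha'⟩, rfl⟩
      refine ⟨A.pow_mem ha p, ?_⟩
      show (a ^ p) ^ p ^ k = 1
      rw [← pow_mul, ← pow_succ', ha']
    · rintro _ ⟨a, ⟨ha, -⟩, rfl⟩
      refine ((Ome_E_fin h A hA).image (fun e => a * e)).subset ?_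
      rintro b ⟨⟨hb, -⟩, hab⟩
      have hab' : b ^ p = a ^ p := hab
      refine ⟨a⁻¹ * b, ⟨A.mul_mem (A.inv_mem ha) hb, ?_⟩, by group⟩
      rw [(hA _ (A.inv_mem ha) _ hb).mul_pow, inv_pow, hab', inv_mul_cancel]

theorem PG.relIndex_ne_zero {p : ℕ} (hp : p.Prime) {G : Type u} [Group G] (h : PG p G)
    (M B : Subgroup G) (hM : Ab M) (hB : B ≤ M) (hpB : ∀ m ∈ M, m ^ p ∈ B) : B.relIndex M ≠ 0 := by
  classical
  letI : CommGroup M := { (inferInstance : Group M) with
    mul_comm := fun a b => Subtype.ext (hM a a.2 b b.2) }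
  -- the elements of order `p`
  have hEfin : Finite {x : M // x ^ p = 1} := by
    have h1 := Ome_E_fin h M hM
    have h2 : Finite {a : G // a ∈ M ∧ a ^ p = 1} := h1.to_subtype
    refine Finite.of_injective (fun x : {x : M // x ^ p = 1} =>
      (⟨(x.1 : G), x.1.2, by
        have := congrArg (fun y : M => (y : G)) x.2
        simpa using this⟩ : {a : G // a ∈ M ∧ a ^ p = 1})) ?_
    intro x y hxy
    apply Subtype.ext
    apply Subtype.ext
    exact congrArg (fun z => z.1) hxy
  set N := Nat.card {x : M // x ^ p = 1} with hN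
  set B' : Subgroup M := B.subgroupOf M with hB'
  show B'.index ≠ 0
  intro hidx
  have hinf : Infinite (M ⧸ B') := by
    rw [← not_finite_iff_infinite]
    intro hf
    exact (Subgroup.index_ne_zero_of_finite (H := B')) hidx
  obtain ⟨t, ht⟩ := Infinite.exists_subset_card_eq (M ⧸ B') (N + 1)
  set r : M ⧸ B' → M := Quotient.out with hr
  have hrq : ∀ q : M ⧸ B', (QuotientGroup.mk (r q) : M ⧸ B') = q := fun q => Quotient.out_eq q
  set S : Subgroup M := Subgroup.closure ((t.image r : Finset M) : Set M) with hS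
  have hfg : Group.FG S := by
    rw [Group.fg_iff_subgroup_fg]
    exact ⟨t.image r, rfl⟩
  have hfin : Finite S := by
    refine CommGroup.finite_of_fg_isMulTorsion S fun x => ?_
    obtain ⟨k, hk⟩ := h.pg (x : M)
    rw [isOfFinOrder_iff_pow_eq_one]
    refine ⟨p ^ k, pow_pos hp.pos k, ?_⟩
    apply Subtype.ext
    apply Subtype.ext
    simpa using hk
  set f : S →* S := powMonoidHom p with hf
  have hker : Nat.card f.ker ≤ N := by
    rw [hN]
    refine Nat.card_le_card_of_injective (fun x : f.ker =>
      (⟨((x : S) : M), by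
        have h1 : f x.1 = 1 := x.2
        have h2 : (x.1 : S) ^ p = 1 := h1
        have := congrArg (fun y : S => (y : M)) h2
        simpa using this⟩ : {x : M // x ^ p = 1})) ?_
    intro x y hxy
    apply Subtype.ext
    apply Subtype.ext
    exact congrArg (fun z => z.1) hxy
  have hidx1 : f.range.index = Nat.card f.ker := by
    have e1 := Subgroup.card_mul_index f.ker
    have e2 := Subgroup.card_mul_index f.range
    rw [Subgroup.index_ker] at e1
    have e3 : 0 < Nat.card f.range := Nat.card_pos
    have e4 : Nat.card f.range * f.range.index = Nat.card f.range * Nat.card f.ker := by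
      rw [e2, ← e1, mul_comm]
    exact Nat.eq_of_mul_eq_mul_left e3 e4
  have hle : f.range ≤ B'.subgroupOf S := by
    rintro _ ⟨x, rfl⟩
    rw [Subgroup.mem_subgroupOf, hB', Subgroup.mem_subgroupOf]
    have h1 := hpB ((x : M) : G) (x : M).2
    simpa [hf] using h1
  have hidx2 : (B'.subgroupOf S).index ≤ N := by
    have e1 := Subgroup.index_dvd_of_le hle
    rw [hidx1] at e1
    exact (Nat.le_of_dvd Nat.card_pos e1).trans hker
  -- the representatives are in different cosets
  have hmem : ∀ q ∈ t, r q ∈ S := fun q hq =>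
    Subgroup.subset_closure (Finset.mem_coe.2 (Finset.mem_image_of_mem r hq))
  have hcard : t.card ≤ (B'.subgroupOf S).index := by
    have e1 : Nat.card {q // q ∈ t} ≤ Nat.card (S ⧸ B'.subgroupOf S) := by
      refine Nat.card_le_card_of_injective (fun q : {q // q ∈ t} =>
        (QuotientGroup.mk (⟨r q.1, hmem q.1 q.2⟩ : S) : S ⧸ B'.subgroupOf S)) ?_
      intro q q' hqq
      have h1 := QuotientGroup.eq.1 hqq
      rw [Subgroup.mem_subgroupOf] at h1
      have h2 : (r q.1)⁻¹ * r q'.1 ∈ B' := h1
      have h3 := QuotientGroup.eq.2 h2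
      rw [hrq, hrq] at h3
      exact Subtype.ext h3
    rwa [Nat.card_eq_fintype_card, Fintype.card_coe] at e1
  omega

end Pool.Agent.Lib.MP_544a1b_al
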