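import Pool.Agent.Lib.MP_544a1b_al.EN.Cl2

/-!
EN-Pig: in a locally finite `p`-group with finite elementary abelian subgroups, a normal commutative subgroup `B` which is not its
own centralizer can be enlarged by an element central modulo `B`.

Proof. `C = centralizer B` is normal, `B ≤ C`, `c₀ ∈ C`, `c₀ ∉ B`.
`exists_local` (for each finite `S` with `c₀ ∈ S` there is `z ∈ C`, `z ∉ B`, `z ^ p ∈ B`, `⁅z, f⁆ ∈ B` for all `f ∈ closure S`, `z ∈ closure S`):
`F = closure S` is a finite `p`-group, `B' = B.subgroupOf F` is normal in `F`, `C' = C.subgroupOf F` too; the image `X` of `C'` in the finite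
`p`-group `F ⧸ B'` is a non-trivial normal subgroup, so it contains a central element `≠ 1` (finite `p`-groups are nilpotent, `IsPGroup.isNilpotent`;
a non-trivial normal subgroup of a nilpotent group meets the center: take the least `i` with `X ⊓ upperCentralSeries i ≠ ⊥`; or
class equation for the action of `F ⧸ B'` on `X` by conjugation, `IsPGroup.card_modEq_card_fixedPoints`), and a power of it is central of
order `p` and in `X`. Let `z ∈ C ⊓ F` be a preimage.
Let `K` be maximal (Zorn) among the subgroups with `B ≤ K ≤ C`, `k ^ p ∈ B` for `k ∈ K`, `⁅k, l⁆ ∈ B` for `k, l ∈ K`. By `PG.class_two` (the elements of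
`C` commute with `B`) `B.relIndex K ≠ 0`. So there is a finite `R ⊆ K` meeting all cosets of `B` in `K`.
If `z ∈ C`, `z ^ p ∈ B` and `⁅z, k⁆ ∈ B` for all `k ∈ R`, then `z ∈ K`: for all `k ∈ K` also `⁅z, k⁆ ∈ B` (`k = r * b`, `z` commutes with `b`), so
`K ⊔ zpowers z` has the same properties (modulo `B` it is generated by commuting elements of order dividing `p`) and is `≤ C`; maximality.
For a finite `S ⊇ R ∪ {c₀}` let `X S` be the set of the `r ∈ R` with `r ∉ B` and `⁅r, f⁆ ∈ B` for all `f ∈ S`. It is non-empty: the `z` of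
`exists_local` is in `K`, `z ∉ B`, and the representative `r ∈ R` with `r⁻¹ * z ∈ B` works (`⁅r, f⁆` and `⁅z, f⁆` agree modulo the normal `B`).
`X` is decreasing in `S` and its values are subsets of the finite `R`. If no `r ∈ R`, `r ∉ B` satisfied `⁅r, g⁆ ∈ B` for all `g`, choose for each such
`r` an element `g_r` with `⁅r, g_r⁆ ∉ B`; with `S = R ∪ {c₀} ∪ {g_r}` the set `X S` is empty, a contradiction.
-/

set_option autoImplicit false

universe u

namespace Pool.Agent.Lib.MP_544a1b_al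

open Subgroup
open scoped commutatorElement

private theorem pig_central {p : ℕ} (hp : p.Prime) {Q : Type*} [Group Q] [Finite Q]
    (hQ : IsPGroup p Q) (X : Subgroup Q) [X.Normal] (hX : X ≠ ⊥) :
    ∃ b ∈ X, b ≠ 1 ∧ b ^ p = 1 ∧ ∀ q : Q, q * b = b * q := by
  have := Fact.mk hp
  have h1 : IsPGroup p (ConjAct Q) := hQ.of_equiv ConjAct.toConjAct
  have hXp : IsPGroup p X := hQ.to_subgroup X
  have hnt : Nontrivial X := (Subgroup.nontrivial_iff_ne_bot X).2 hX
  obtain ⟨n, hn0, hn⟩ := hXp.nontrivial_iff_card.1 hnt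
  have hdvd : p ∣ Nat.card X := by
    rw [hn]
    exact dvd_pow_self p (by omega)
  have hfix1 : (1 : X) ∈ MulAction.fixedPoints (ConjAct Q) X := fun g => smul_one g
  obtain ⟨b, hb, hb1⟩ := h1.exists_fixed_point_of_prime_dvd_card_of_fixed_point X hdvd hfix1
  have hc : ∀ q : Q, q * (b : Q) = (b : Q) * q := by
    intro q
    have h2 := congrArg Subtype.val (hb (ConjAct.toConjAct q))
    rw [ConjAct.Subgroup.val_conj_smul, ConjAct.toConjAct_smul] at h2
    exact mul_inv_eq_iff_eq_mul.1 h2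
  obtain ⟨k, hk⟩ := IsPGroup.iff_orderOf.1 hXp b
  have hk0 : k ≠ 0 := by
    rintro rfl
    rw [pow_zero, orderOf_eq_one_iff] at hk
    exact hb1 hk.symm
  obtain ⟨j, rfl⟩ : ∃ j, k = j + 1 := ⟨k - 1, by omega⟩
  refine ⟨(b : Q) ^ p ^ j, X.pow_mem b.2 _, ?_, ?_, ?_⟩
  · intro h2
    have h3 : b ^ p ^ j = 1 := Subtype.ext (by rw [Subgroup.coe_pow]; exact h2)
    have h4 := orderOf_dvd_of_pow_eq_one h3
    rw [hk] at h4
    have h5 := (Nat.pow_dvd_pow_iff_le_right hp.one_lt).1 h4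
    omega
  · have h3 : b ^ p ^ (j + 1) = 1 := by
      rw [← hk]
      exact pow_orderOf_eq_one b
    rw [← pow_mul, ← pow_succ, ← Subgroup.coe_pow, h3, Subgroup.coe_one]
  · intro q
    exact ((show Commute q (b : Q) from hc q).pow_right _).eq

theorem exists_local {p : ℕ} (hp : p.Prime) {H : Type u} [Group H] (hP : IsPGroup p H) (hF : LF H)
    (B : Subgroup H) [B.Normal] (c₀ : H) (hc₀ : c₀ ∈ centralizer (B : Set H)) (hc₀B : c₀ ∉ B)
    (S : Finset H) (hS : c₀ ∈ S) :
    ∃ z ∈ centralizer (B : Set H), z ∉ B ∧ z ^ p ∈ B ∧ ∀ f ∈ closure (S : Set H), ⁅z, f⁆ ∈ B := by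
  have hCn : (centralizer (B : Set H)).Normal := inferInstance
  obtain ⟨F, hFd⟩ : ∃ F : Subgroup H, F = closure (S : Set H) := ⟨_, rfl⟩
  have hFf : Finite F := by
    rw [hFd]
    exact hF S
  have hc₀F : c₀ ∈ F := by
    rw [hFd]
    exact subset_closure hS
  obtain ⟨N, hN⟩ : ∃ N : Subgroup F, N = B.subgroupOf F := ⟨_, rfl⟩
  have hNn : N.Normal := by
    rw [hN]
    infer_instance
  obtain ⟨C', hC'⟩ : ∃ C' : Subgroup F, C' = (centralizer (B : Set H)).subgroupOf F := ⟨_, rfl⟩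
  have hC'n : C'.Normal := by
    rw [hC']
    infer_instance
  obtain ⟨X, hXd⟩ : ∃ X : Subgroup (F ⧸ N), X = C'.map (QuotientGroup.mk' N) := ⟨_, rfl⟩
  have hXn : X.Normal := by
    rw [hXd]
    exact hC'n.map _ (QuotientGroup.mk'_surjective N)
  have hQp : IsPGroup p (F ⧸ N) := (hP.to_subgroup F).to_quotient N
  have hX : X ≠ ⊥ := by
    intro h
    have h1 : QuotientGroup.mk' N ⟨c₀, hc₀F⟩ ∈ X := by
      rw [hXd]
      refine Subgroup.mem_map_of_mem _ ?_
      rw [hC', Subgroup.mem_subgroupOf]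
      exact hc₀
    rw [h, Subgroup.mem_bot, QuotientGroup.mk'_apply, QuotientGroup.eq_one_iff, hN,
      Subgroup.mem_subgroupOf] at h1
    exact hc₀B h1
  obtain ⟨b, hbX, hb1, hbp, hbc⟩ := pig_central hp hQp X hX
  rw [hXd, Subgroup.mem_map] at hbX
  obtain ⟨z, hz, rfl⟩ := hbX
  rw [hC', Subgroup.mem_subgroupOf] at hz
  refine ⟨z, hz, ?_, ?_, ?_⟩
  · intro hzB
    apply hb1
    rw [QuotientGroup.mk'_apply, QuotientGroup.eq_one_iff, hN, Subgroup.mem_subgroupOf]
    exact hzB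
  · rw [← map_pow, QuotientGroup.mk'_apply, QuotientGroup.eq_one_iff, hN,
      Subgroup.mem_subgroupOf] at hbp
    exact hbp
  · intro f hf
    rw [← hFd] at hf
    have h1 : QuotientGroup.mk' N ⁅z, (⟨f, hf⟩ : F)⁆ = 1 := by
      rw [map_commutatorElement, commutatorElement_eq_one_iff_mul_comm]
      exact (hbc _).symm
    rw [QuotientGroup.mk'_apply, QuotientGroup.eq_one_iff, hN, Subgroup.mem_subgroupOf] at h1
    exact h1

theorem PG.exists_central {p : ℕ} (hp : p.Prime) {H : Type u} [Group H] (h : PG p H) (hF : LF H)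
    (B : Subgroup H) [B.Normal] (hB : Ab B) (c₀ : H) (hc₀ : c₀ ∈ centralizer (B : Set H))
    (hc₀B : c₀ ∉ B) :
    ∃ k ∈ centralizer (B : Set H), k ∉ B ∧ ∀ g, ⁅k, g⁆ ∈ B := by
  classical
  obtain ⟨C, hC⟩ : ∃ C : Subgroup H, C = centralizer (B : Set H) := ⟨_, rfl⟩
  rw [← hC] at hc₀ ⊢
  have hBC : B ≤ C := by
    intro b hb
    rw [hC, Subgroup.mem_centralizer_iff]
    intro a ha
    exact (hB a ha b hb).eq
  have hCB : ∀ c ∈ C, ∀ b ∈ B, Commute b c := by
    intro c hc b hb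
    rw [hC, Subgroup.mem_centralizer_iff] at hc
    exact hc b hb
  obtain ⟨π, hπ⟩ : ∃ π : H →* H ⧸ B, π = QuotientGroup.mk' B := ⟨_, rfl⟩
  have hπB : ∀ x, π x = 1 ↔ x ∈ B := by
    intro x
    rw [hπ, QuotientGroup.mk'_apply, QuotientGroup.eq_one_iff]
  -- a maximal subgroup `K`
  obtain ⟨Z, hZ⟩ : ∃ Z : Set (Subgroup H), Z = {K | B ≤ K ∧ K ≤ C ∧ (∀ k ∈ K, k ^ p ∈ B) ∧
      ∀ k ∈ K, ∀ l ∈ K, ⁅k, l⁆ ∈ B} := ⟨_, rfl⟩
  have hZm : ∀ K, K ∈ Z ↔ B ≤ K ∧ K ≤ C ∧ (∀ k ∈ K, k ^ p ∈ B) ∧ ∀ k ∈ K, ∀ l ∈ K, ⁅k, l⁆ ∈ B := by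
    intro K
    rw [hZ]
    rfl
  have hBZ : B ∈ Z := by
    rw [hZm]
    refine ⟨le_rfl, hBC, fun k hk => B.pow_mem hk p, fun k hk l hl => ?_⟩
    rw [commutatorElement_eq_one_iff_mul_comm.2 (hB k hk l hl).eq]
    exact B.one_mem
  obtain ⟨K, -, hKm⟩ := zorn_le_nonempty₀ Z (by
    intro c hcZ hch y hy
    have hne : c.Nonempty := ⟨y, hy⟩
    have hdir : DirectedOn (· ≤ ·) c := hch.directedOn
    have hmem : ∀ x, x ∈ sSup c ↔ ∃ s ∈ c, x ∈ s := fun x =>
      Subgroup.mem_sSup_of_directedOn hne hdir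
    refine ⟨sSup c, ?_, fun z hz => le_sSup hz⟩
    rw [hZm]
    refine ⟨((hZm y).1 (hcZ hy)).1.trans (le_sSup hy), sSup_le fun s hs => ((hZm s).1 (hcZ hs)).2.1,
      ?_, ?_⟩
    · intro k hk
      obtain ⟨s, hs, hks⟩ := (hmem k).1 hk
      exact ((hZm s).1 (hcZ hs)).2.2.1 k hks
    · intro k hk l hl
      obtain ⟨s, hs, hks⟩ := (hmem k).1 hk
      obtain ⟨s', hs', hls⟩ := (hmem l).1 hl
      obtain ⟨u, hu, hsu, hs'u⟩ := hdir s hs s' hs'
      exact ((hZm u).1 (hcZ hu)).2.2.2 k (hsu hks) l (hs'u hls)) B hBZ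
  obtain ⟨hBK, hKC, hKp, hKc⟩ := (hZm K).1 hKm.prop
  have hidx := PG.class_two hp h K B hBK (fun b hb k hk => hCB k (hKC hk) b hb) hKp hKc
  -- representatives
  obtain ⟨R, hRK, hR⟩ : ∃ R : Finset H, (∀ r ∈ R, r ∈ K) ∧ ∀ k ∈ K, ∃ r ∈ R, r⁻¹ * k ∈ B := by
    have hfi : (B.subgroupOf K).FiniteIndex := ⟨hidx⟩
    have hfin : Finite (K ⧸ B.subgroupOf K) := inferInstance
    have hfr : (Set.range fun q : K ⧸ B.subgroupOf K => ((Quotient.out q : K) : H)).Finite :=
      Set.finite_range _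
    refine ⟨hfr.toFinset, ?_, ?_⟩
    · intro r hr
      rw [Set.Finite.mem_toFinset] at hr
      obtain ⟨q, rfl⟩ := hr
      exact (Quotient.out q : K).2
    · intro k hk
      refine ⟨((Quotient.out ((⟨k, hk⟩ : K) : K ⧸ B.subgroupOf K) : K) : H), ?_, ?_⟩
      · rw [Set.Finite.mem_toFinset]
        exact ⟨_, rfl⟩
      · have h1 : ((Quotient.out ((⟨k, hk⟩ : K) : K ⧸ B.subgroupOf K) : K) : K ⧸ B.subgroupOf K) =
            ((⟨k, hk⟩ : K) : K ⧸ B.subgroupOf K) := Quotient.out_eq' _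
        rw [QuotientGroup.eq, Subgroup.mem_subgroupOf] at h1
        exact h1
  -- absorption
  have habs : ∀ z ∈ C, z ^ p ∈ B → (∀ r ∈ R, ⁅z, r⁆ ∈ B) → z ∈ K := by
    intro z hzC hzp hzR
    have hzK : ∀ k ∈ K, Commute (π z) (π k) := by
      intro k hk
      obtain ⟨r, hr, hrk⟩ := hR k hk
      have e1 : π k = π r := by
        have := (hπB _).2 hrk
        rw [map_mul, map_inv] at this
        exact (inv_mul_eq_one.1 this).symm
      have e2 := (hπB _).2 (hzR r hr)
      rw [map_commutatorElement, commutatorElement_eq_one_iff_mul_comm] at e2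
      rw [e1]
      exact e2
    obtain ⟨gen, hgen⟩ : ∃ gen : Set (H ⧸ B), gen = insert (π z) (π '' (K : Set H)) := ⟨_, rfl⟩
    have hgc : ∀ a ∈ gen, ∀ b ∈ gen, Commute a b := by
      intro a ha b hb
      rw [hgen, Set.mem_insert_iff] at ha hb
      rcases ha with rfl | ⟨k, hk, rfl⟩
      · rcases hb with rfl | ⟨l, hl, rfl⟩
        · exact Commute.refl _
        · exact hzK l hl
      · rcases hb with rfl | ⟨l, hl, rfl⟩
        · exact (hzK k hk).symm
        · have e2 := (hπB _).2 (hKc k hk l hl)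
          rw [map_commutatorElement, commutatorElement_eq_one_iff_mul_comm] at e2
          exact e2
    have hDc := comm_closure gen hgc
    obtain ⟨D, hD⟩ : ∃ D : Subgroup (H ⧸ B), D = closure gen := ⟨_, rfl⟩
    rw [← hD] at hDc
    have hDp : ∀ x ∈ D, x ^ p = 1 := by
      intro x hx
      rw [hD] at hx
      induction hx using Subgroup.closure_induction with
      | mem x hx =>
        rw [hgen, Set.mem_insert_iff] at hx
        rcases hx with rfl | ⟨k, hk, rfl⟩
        · rw [← map_pow, hπB]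
          exact hzp
        · rw [← map_pow, hπB]
          exact hKp k hk
      | one => exact one_pow p
      | mul x y hx hy hxp hyp =>
        rw [(hDc x (by rw [hD]; exact hx) y (by rw [hD]; exact hy)).mul_pow, hxp, hyp, one_mul]
      | inv x hx hxp => rw [inv_pow, hxp, inv_one]
    have hDC : D ≤ C.map π := by
      rw [hD, Subgroup.closure_le, hgen]
      intro x hx
      rcases hx with rfl | ⟨k, hk, rfl⟩
      · exact Subgroup.mem_map_of_mem _ hzC
      · exact Subgroup.mem_map_of_mem _ (hKC hk)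
    have hK' : D.comap π ∈ Z := by
      rw [hZm]
      refine ⟨?_, ?_, ?_, ?_⟩
      · intro b hb
        rw [Subgroup.mem_comap, (hπB b).2 hb]
        exact D.one_mem
      · intro x hx
        obtain ⟨c, hc, hcx⟩ := Subgroup.mem_map.1 (hDC (Subgroup.mem_comap.1 hx))
        have e1 : c⁻¹ * x ∈ B := by
          rw [← hπB, map_mul, map_inv, hcx, inv_mul_cancel]
        have e2 : x = c * (c⁻¹ * x) := by group
        rw [e2]
        exact C.mul_mem hc (hBC e1)
      · intro k hk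
        rw [← hπB, map_pow]
        exact hDp _ (Subgroup.mem_comap.1 hk)
      · intro k hk l hl
        rw [← hπB, map_commutatorElement, commutatorElement_eq_one_iff_mul_comm]
        exact (hDc _ (Subgroup.mem_comap.1 hk) _ (Subgroup.mem_comap.1 hl)).eq
    have hKK' : K ≤ D.comap π := by
      intro k hk
      rw [Subgroup.mem_comap, hD]
      apply Subgroup.subset_closure
      rw [hgen]
      exact Set.mem_insert_of_mem _ ⟨k, hk, rfl⟩
    have h5 := hKm.le_of_ge hK' hKK'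
    apply h5
    rw [Subgroup.mem_comap, hD]
    apply Subgroup.subset_closure
    rw [hgen]
    exact Set.mem_insert _ _
  -- every finite set
  have hloc : ∀ S : Finset H, R ⊆ S → c₀ ∈ S → ∃ r ∈ R, r ∉ B ∧ ∀ f ∈ S, ⁅r, f⁆ ∈ B := by
    intro S hRS hcS
    obtain ⟨z, hzC, hzB, hzp, hzf⟩ := exists_local hp h.pg hF B c₀ (by rw [← hC]; exact hc₀) hc₀B S hcS
    rw [← hC] at hzC
    have hzK : z ∈ K := habs z hzC hzp fun r hr => hzf r (Subgroup.subset_closure (hRS hr))
    obtain ⟨r, hr, hrz⟩ := hR z hzK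
    have e1 : π z = π r := by
      have := (hπB _).2 hrz
      rw [map_mul, map_inv] at this
      exact (inv_mul_eq_one.1 this).symm
    refine ⟨r, hr, ?_, ?_⟩
    · intro hrB
      apply hzB
      rw [← hπB, e1, hπB]
      exact hrB
    · intro f hf
      rw [← hπB, map_commutatorElement, ← e1, ← map_commutatorElement, hπB]
      exact hzf f (Subgroup.subset_closure hf)
  by_contra hcon
  push Not at hcon
  have hg : ∀ r : H, ∃ g : H, r ∈ R → r ∉ B → ⁅r, g⁆ ∉ B := by
    intro r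
    by_cases hr : r ∈ R ∧ r ∉ B
    · obtain ⟨g, hg⟩ := hcon r (hKC (hRK r hr.1)) hr.2
      exact ⟨g, fun _ _ => hg⟩
    · exact ⟨1, fun h1 h2 => absurd ⟨h1, h2⟩ hr⟩
  choose g hg using hg
  obtain ⟨r, hr, hrB, hrf⟩ := hloc (R ∪ {c₀} ∪ R.image g)
    (fun x hx => Finset.mem_union_left _ (Finset.mem_union_left _ hx))
    (Finset.mem_union_left _ (Finset.mem_union_right _ (Finset.mem_singleton_self _)))
  exact hg r hr hrB (hrf (g r) (Finset.mem_union_right _ (Finset.mem_image_of_mem g hr)))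

end Pool.Agent.Lib.MP_544a1b_al
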