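import Pool.Agent.Lib.MP_544a1b_al.EN.Plo

/-!
EN-Plk: Plotkin's lemma. `N` locally nilpotent, normalised by `x`, Engel conditions of `x` on `N`; then
`N ⊔ zpowers x` is locally nilpotent.

Proof. Let `s` be a finite subset of `N ⊔ zpowers x`. Each element of `N ⊔ zpowers x` is `n * x ^ k` with `n ∈ N`
(`x` normalises `N`: `Subgroup.closure_induction`, or `mul_mem_sup` for normalizers; the set of the `n * x ^ k` is a subgroup). So there is a
finite `F ⊆ N` with `s ⊆ closure F ⊔ zpowers x`.
For `n ∈ F` choose `c_n` with `eng n x c_n = 1` and let `E = {eng n x j : n ∈ F, j ≤ c_n}`, finite, contained in `N`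
(`eng n x (j+1) = ⁅eng n x j, x⁆ = e * (x * e⁻¹ * x⁻¹)` with `e = eng n x j ∈ N`). Let `M = closure E ≤ N`; it is
finitely generated, nilpotent (`LNs N`).
`x` normalises `M`: for `e_j = eng n x j` one has `e_{j+1} = e_j * (x * e_j⁻¹ * x⁻¹)`, so
`x * e_j * x⁻¹ = e_{j+1}⁻¹ * e_j ∈ M`; and `x⁻¹ * e_j * x = (x⁻¹ * e_{j+1} * x) * e_j ∈ M` by downward induction on `j`
(from `e_j = e_{j+1} * (x * e_j * x⁻¹)`; for `j = c_n` it is `1`).
Let `P = M ⊔ zpowers x` (a subgroup of `G`), and apply `plotkin_fg` to the group `P`, its subgroup `M.subgroupOf P` (normal since `x` and `M`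
normalise `M`), and `⟨x, _⟩`; `he` for elements `m ∈ M ≤ N`. So `P` is nilpotent. Finally `closure s ≤ P`
(`isNilpotent_mono` in `Basic`).
-/

set_option autoImplicit false

universe u

namespace Pool.Agent.Lib.MP_544a1b_al

open Subgroup
open scoped commutatorElement

theorem plotkin {G : Type u} [Group G] (N : Subgroup G) (x : G)
    (hx : ∀ n ∈ N, x * n * x⁻¹ ∈ N ∧ x⁻¹ * n * x ∈ N) (hN : LNs N)
    (he : ∀ m ∈ N, ∃ c, eng m x c = 1) : LNs (N ⊔ zpowers x) := by
  classical
  -- conjugation by the powers of `x`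
  have hxk : ∀ k : ℤ, ∀ n ∈ N, x ^ k * n * x ^ (-k) ∈ N := by
    intro k
    induction k using Int.induction_on with
    | zero =>
      intro n hn
      simpa using hn
    | succ k ih =>
      intro n hn
      have h1 := (hx _ (ih n hn)).1
      have h2 : x ^ ((k : ℤ) + 1) * n * x ^ (-((k : ℤ) + 1)) =
          x * (x ^ (k : ℤ) * n * x ^ (-(k : ℤ))) * x⁻¹ := by
        rw [neg_add, zpow_add, zpow_add, zpow_one]
        have h3 : x ^ (k : ℤ) * x = x * x ^ (k : ℤ) := by
          rw [← zpow_add_one, ← zpow_one_add, add_comm]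
        have h4 : x ^ (-(1 : ℤ)) = x⁻¹ := by rw [zpow_neg, zpow_one]
        rw [h3, h4]
        group
      rw [h2]
      exact h1
    | pred k ih =>
      intro n hn
      have h1 := (hx _ (ih n hn)).2
      have h2 : x ^ (-(k : ℤ) - 1) * n * x ^ (-(-(k : ℤ) - 1)) =
          x⁻¹ * (x ^ (-(k : ℤ)) * n * x ^ (-(-(k : ℤ)))) * x := by
        group
      rw [h2]
      exact h1
  have hform : ∀ g, g ∈ N ⊔ zpowers x → ∃ n ∈ N, ∃ k : ℤ, g = n * x ^ k := by
    have hle : N ⊔ zpowers x ≤
        { carrier := {g | ∃ n ∈ N, ∃ k : ℤ, g = n * x ^ k}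
          one_mem' := ⟨1, N.one_mem, 0, by simp⟩
          mul_mem' := by
            rintro _ _ ⟨n, hn, k, rfl⟩ ⟨n', hn', k', rfl⟩
            refine ⟨n * (x ^ k * n' * x ^ (-k)), N.mul_mem hn (hxk k n' hn'), k + k', ?_⟩
            rw [zpow_add]
            group
          inv_mem' := by
            rintro _ ⟨n, hn, k, rfl⟩
            refine ⟨x ^ (-k) * n⁻¹ * x ^ (-(-k)), hxk (-k) _ (N.inv_mem hn), -k, ?_⟩
            group } := by
      rw [sup_le_iff]
      constructor
      · intro n hn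
        exact ⟨n, hn, 0, by simp⟩
      · intro g hg
        obtain ⟨k, rfl⟩ := mem_zpowers_iff.1 hg
        exact ⟨1, N.one_mem, k, by simp⟩
    intro g hg
    exact hle hg
  intro s hs
  choose! f hfN hfk using hform
  choose! c hc using he
  have hengN : ∀ n ∈ N, ∀ j, eng n x j ∈ N := by
    intro n hn j
    induction j with
    | zero => exact hn
    | succ j ih =>
      rw [eng_succ, commutatorElement_def]
      have h1 := N.mul_mem ih (hx _ (N.inv_mem ih)).1
      have h2 : eng n x j * x * (eng n x j)⁻¹ * x⁻¹ = eng n x j * (x * (eng n x j)⁻¹ * x⁻¹) := by group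
      rw [h2]
      exact h1
  have heng1 : ∀ n ∈ N, ∀ d, eng n x (c n + d) = 1 := by
    intro n hn d
    induction d with
    | zero => exact hc n hn
    | succ d ih =>
      rw [← add_assoc, eng_succ, ih, commutatorElement_def]
      group
  obtain ⟨F, hF⟩ : ∃ F : Finset G, F = s.image f := ⟨_, rfl⟩
  have hFN : ∀ n ∈ F, n ∈ N := by
    intro n hn
    rw [hF, Finset.mem_image] at hn
    obtain ⟨g, hg, rfl⟩ := hn
    exact hfN g (hs hg)
  obtain ⟨E, hE⟩ : ∃ E : Finset G, E = F.biUnion fun n =>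
    (Finset.range (c n + 1)).image fun j => eng n x j := ⟨_, rfl⟩
  have hEN : (E : Set G) ⊆ (N : Set G) := by
    intro g hg
    rw [hE, Finset.mem_coe, Finset.mem_biUnion] at hg
    obtain ⟨n, hn, hg⟩ := hg
    rw [Finset.mem_image] at hg
    obtain ⟨j, -, rfl⟩ := hg
    exact hengN n (hFN n hn) j
  obtain ⟨M, hM⟩ : ∃ M : Subgroup G, M = closure (E : Set G) := ⟨_, rfl⟩
  have hMN : M ≤ N := by
    rw [hM, closure_le]
    exact hEN
  have hMnil : Group.IsNilpotent M := by
    rw [hM]
    exact hN E hEN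
  have hMeng : ∀ n ∈ F, ∀ j, eng n x j ∈ M := by
    intro n hn j
    rcases Nat.lt_or_ge j (c n + 1) with h | h
    · rw [hM]
      apply Subgroup.subset_closure
      rw [hE, Finset.mem_coe, Finset.mem_biUnion]
      exact ⟨n, hn, Finset.mem_image.2 ⟨j, Finset.mem_range.2 h, rfl⟩⟩
    · obtain ⟨d, rfl⟩ := Nat.exists_eq_add_of_le h
      rw [add_assoc, heng1 n (hFN n hn)]
      exact M.one_mem
  have hconj1 : ∀ n ∈ F, ∀ j, x * eng n x j * x⁻¹ ∈ M := by
    intro n hn j
    have h1 := M.mul_mem (M.inv_mem (hMeng n hn (j + 1))) (hMeng n hn j)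
    rw [eng_succ, commutatorElement_def] at h1
    have h2 : (eng n x j * x * (eng n x j)⁻¹ * x⁻¹)⁻¹ * eng n x j = x * eng n x j * x⁻¹ := by group
    rw [h2] at h1
    exact h1
  have hconj2 : ∀ n ∈ F, ∀ j, x⁻¹ * eng n x j * x ∈ M := by
    intro n hn
    have h0 : ∀ d, x⁻¹ * eng n x (c n + d) * x ∈ M := by
      intro d
      rw [heng1 n (hFN n hn)]
      have : x⁻¹ * 1 * x = 1 := by group
      rw [this]
      exact M.one_mem
    have h1 : ∀ d j, j + d = c n → x⁻¹ * eng n x j * x ∈ M := by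
      intro d
      induction d with
      | zero =>
        intro j hj
        have h2 := h0 0
        rwa [← hj] at h2
      | succ d ih =>
        intro j hj
        have h2 := M.mul_mem (ih (j + 1) (by omega)) (hMeng n hn j)
        rw [eng_succ, commutatorElement_def] at h2
        have h3 : x⁻¹ * (eng n x j * x * (eng n x j)⁻¹ * x⁻¹) * x * eng n x j =
            x⁻¹ * eng n x j * x := by group
        rw [h3] at h2
        exact h2
    intro j
    rcases Nat.lt_or_ge j (c n) with h | h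
    · exact h1 (c n - j) j (by omega)
    · obtain ⟨d, rfl⟩ := Nat.exists_eq_add_of_le h
      exact h0 d
  have hE' : ∀ e ∈ E, x * e * x⁻¹ ∈ M ∧ x⁻¹ * e * x ∈ M := by
    intro e he
    rw [hE, Finset.mem_biUnion] at he
    obtain ⟨n, hn, he⟩ := he
    rw [Finset.mem_image] at he
    obtain ⟨j, -, rfl⟩ := he
    exact ⟨hconj1 n hn j, hconj2 n hn j⟩
  have hMx : ∀ m ∈ M, x * m * x⁻¹ ∈ M := by
    have h1 : M ≤ M.comap (MulAut.conj x).toMonoidHom := by
      conv_lhs => rw [hM]
      rw [closure_le]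
      intro e he
      exact (hE' e he).1
    intro m hm
    exact h1 hm
  have hMx' : ∀ m ∈ M, x⁻¹ * m * x ∈ M := by
    have h1 : M ≤ M.comap (MulAut.conj x⁻¹).toMonoidHom := by
      conv_lhs => rw [hM]
      rw [closure_le]
      intro e he
      show x⁻¹ * e * x⁻¹⁻¹ ∈ M
      rw [inv_inv]
      exact (hE' e he).2
    intro m hm
    have h2 : x⁻¹ * m * x⁻¹⁻¹ ∈ M := h1 hm
    rwa [inv_inv] at h2
  obtain ⟨P, hP⟩ : ∃ P : Subgroup G, P = M ⊔ zpowers x := ⟨_, rfl⟩
  have hMP : M ≤ P := by rw [hP]; exact le_sup_left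
  have hxP : x ∈ P := by rw [hP]; exact (le_sup_right : zpowers x ≤ M ⊔ zpowers x) (mem_zpowers x)
  have hPn : P ≤ normalizer M := by
    rw [hP, sup_le_iff]
    refine ⟨le_normalizer, ?_⟩
    rw [zpowers_le, mem_normalizer_iff]
    intro h
    refine ⟨hMx h, fun h1 => ?_⟩
    have h2 := hMx' _ h1
    have h3 : x⁻¹ * (x * h * x⁻¹) * x = h := by group
    rwa [h3] at h2
  have hmap : (M.subgroupOf P).map P.subtype = M := by
    rw [subgroupOf_map_subtype, inf_eq_left]
    exact hMP
  have hPnil : Group.IsNilpotent P := by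
    refine plotkin_fg (M.subgroupOf P) (normal_subgroupOf_of_le_normalizer hPn) ?_ ?_ ⟨x, hxP⟩ ?_ ?_
    · have hfg : Group.FG M := by
        rw [Group.fg_iff_subgroup_fg, hM]
        exact ⟨E, rfl⟩
      rw [← Group.fg_iff_subgroup_fg]
      exact Group.fg_of_surjective (f := (subgroupOfEquivOfLe hMP).symm.toMonoidHom)
        (subgroupOfEquivOfLe hMP).symm.surjective
    · refine isNilpotent_of_map P.subtype P.subtype_injective _ ?_
      rw [hmap]
      exact hMnil
    · apply map_injective P.subtype_injective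
      rw [Subgroup.map_sup, hmap, MonoidHom.map_zpowers, ← MonoidHom.range_eq_map, range_subtype]
      exact hP.symm
    · intro m hm
      have hmN : (m : G) ∈ N := hMN hm
      refine ⟨c (m : G), Subtype.ext ?_⟩
      have h1 : ∀ j, ((eng m (⟨x, hxP⟩ : P) j : P) : G) = eng (m : G) x j := by
        intro j
        induction j with
        | zero => rfl
        | succ j ih =>
          rw [eng_succ, eng_succ, ← ih]
          rfl
      rw [h1]
      exact hc _ hmN
  refine isNilpotent_mono ?_ hPnil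
  rw [closure_le]
  intro g hg
  obtain ⟨k, hk⟩ := hfk g (hs hg)
  rw [hk]
  refine P.mul_mem (hMP ?_) (P.zpow_mem hxP k)
  have h1 := hMeng (f g) (by rw [hF]; exact Finset.mem_image_of_mem f hg) 0
  exact h1

end Pool.Agent.Lib.MP_544a1b_al
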