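import Pool.Agent.Lib.MP_544a1b_al.EN.Lcs

/-!
EN-Plo: a group generated by a finitely generated nilpotent normal subgroup `M` and an element `x` which
satisfies Engel conditions on `M` is nilpotent.

Proof. Induction on `n` with `M.lowerCentralSeries n = ⊥` (over all groups `P`; `P : Type u`, quotients stay in `Type u`).
`n = 0`: `M = ⊥` (`lowerCentralSeries_zero`), so `P = zpowers x` is commutative, hence nilpotent.
`n + 1`: let `Z = M.lowerCentralSeries n`. It is normal in `P` (for `g ∈ P` conjugation by `g` is an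
automorphism of `P` mapping `M` onto `M`; use `map_lowerCentralSeries` for `MulAut.conj g`), it commutes with `M`
(`⁅Z, M⁆ = M.lowerCentralSeries (n+1) = ⊥`), it is contained in `M`, and finitely generated (`fg_lcs_last`).
(1) For all `j`: `z ∈ Z` and `eng z x j = 1` imply `z ∈ upperCentralSeries P j`. Induction on `j`; `j = 0` is clear.
`j + 1`: `eng z x (j+1) = eng ⁅z, x⁆ x j` (a small induction), `⁅z, x⁆ ∈ Z`, so `⁅z, x⁆ ∈ upperCentralSeries P j =: U`; also
`⁅z, m⁆ = 1` for `m ∈ M`. The elements `g` with `⁅z, g⁆ ∈ U` form a subgroup (the image of `z` in `P / U` commutes with the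
image of `g`), it contains `M` and `x`, so it is everything, and `z ∈ upperCentralSeries P (j+1)`
(`mem_upperCentralSeries_succ_iff`; note the form `x * y * x⁻¹ * y⁻¹ ∈ _`).
(2) `Z = closure S` with `S` finite; each `s ∈ S` is in some `upperCentralSeries P c_s`, so with `c` the maximum of the `c_s`
(`upperCentralSeries_mono`), `Z ≤ upperCentralSeries P c`.
(3) `P ⧸ Z`: the image `M'` of `M` is normal, finitely generated, `M'.lowerCentralSeries n = ⊥` (`map_lowerCentralSeries`), the
Engel condition passes to the images (`map_commutatorElement`, see `Engel.of_surjective` in `EN.Defs`), `M' ⊔ zpowers x' = ⊤`.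
So `P ⧸ Z` is nilpotent by induction: `(⊤ : Subgroup P).lowerCentralSeries k ≤ Z` for some `k`. Then `(⊤).lowerCentralSeries (k + c) = ⊥`:
by induction on `i ≤ c`, `(⊤).lowerCentralSeries (k + i) ≤ upperCentralSeries P (c - i)`. (Or: the preimage in `P` of
`upperCentralSeries (P ⧸ Z) k` is contained in `upperCentralSeries P (c + k)` by induction on `k`.)
-/

set_option autoImplicit false

universe u

namespace Pool.Agent.Lib.MP_544a1b_al

open Subgroup
open scoped commutatorElement

private lemma Plo_eng_succ {P : Type*} [Group P] (z x : P) (j : ℕ) : eng z x (j + 1) = eng ⁅z, x⁆ x j := by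
  induction j with
  | zero => rfl
  | succ j ih => rw [eng_succ, ih, ← eng_succ]

private lemma Plo_eng_map {P Q : Type*} [Group P] [Group Q] (f : P →* Q) (z x : P) (n : ℕ) :
    f (eng z x n) = eng (f z) (f x) n := by
  induction n with
  | zero => rfl
  | succ n ih => rw [eng_succ, eng_succ, map_commutatorElement, ih]

/-- `lcs k ≤ ucs c` implies nilpotent -/
private lemma Plo_nil {P : Type*} [Group P] (c : ℕ) : ∀ k : ℕ,
    (⊤ : Subgroup P).lowerCentralSeries k ≤ Subgroup.upperCentralSeries P c → Group.IsNilpotent P := by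
  induction c with
  | zero =>
    intro k h
    refine Subgroup.nilpotent_iff_lowerCentralSeries.2 ⟨k, ?_⟩
    rw [Subgroup.upperCentralSeries_zero] at h
    exact le_bot_iff.1 h
  | succ c ih =>
    intro k h
    apply ih (k + 1)
    rw [Subgroup.lowerCentralSeries_succ, commutator_le]
    intro g hg y _
    exact (Subgroup.mem_upperCentralSeries_succ_iff.1 (h hg)) y

private lemma Plo_normal {P : Type*} [Group P] {M : Subgroup P} (hn : M.Normal) (n : ℕ) :
    (M.lowerCentralSeries n).Normal := by
  refine ⟨fun z hz g => ?_⟩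
  have h1 : M.map (MulAut.conj g).toMonoidHom = M := by
    apply le_antisymm
    · rintro _ ⟨m, hm, rfl⟩
      exact hn.conj_mem m hm g
    · intro m hm
      refine ⟨g⁻¹ * m * g, ?_, ?_⟩
      · have := hn.conj_mem m hm g⁻¹
        rwa [inv_inv] at this
      · simp [mul_assoc]
  have h2 := Subgroup.map_lowerCentralSeries (S := M) (MulAut.conj g).toMonoidHom n
  rw [h1] at h2
  rw [← h2]
  exact ⟨z, hz, by simp⟩

/-- elements which commute with `M` modulo the upper central series -/
private lemma Plo_up {P : Type*} [Group P] {M Z : Subgroup P} (hZ : Z.Normal) {x : P}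
    (htop : M ⊔ zpowers x = ⊤) (hc : ∀ z ∈ Z, ∀ m ∈ M, ⁅z, m⁆ = 1) (j : ℕ) :
    ∀ z ∈ Z, eng z x j = 1 → z ∈ Subgroup.upperCentralSeries P j := by
  induction j with
  | zero =>
    intro z _ h
    rw [eng_zero] at h
    rw [h]
    exact one_mem _
  | succ j ih =>
    intro z hz h
    rw [Plo_eng_succ] at h
    have hzx : ⁅z, x⁆ ∈ Z := by
      rw [commutatorElement_def]
      have h1 := Z.mul_mem hz (hZ.conj_mem z⁻¹ (Z.inv_mem hz) x)
      simpa [mul_assoc] using h1
    have hU := ih _ hzx h
    rw [Subgroup.mem_upperCentralSeries_succ_iff]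
    set U := Subgroup.upperCentralSeries P j with hUdef
    let K : Subgroup P := (Subgroup.centralizer {(QuotientGroup.mk' U z)}).comap (QuotientGroup.mk' U)
    have hK : ∀ g, g ∈ K ↔ ⁅z, g⁆ ∈ U := by
      intro g
      rw [← (QuotientGroup.eq_one_iff (N := U) ⁅z, g⁆)]
      show QuotientGroup.mk' U g ∈ Subgroup.centralizer {(QuotientGroup.mk' U z)} ↔
        QuotientGroup.mk' U ⁅z, g⁆ = 1
      rw [map_commutatorElement, commutatorElement_eq_one_iff_mul_comm, mem_centralizer_singleton_iff]
      constructor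
      · intro h; exact h.symm
      · intro h; exact h.symm
    have hKtop : K = ⊤ := by
      rw [eq_top_iff, ← htop, sup_le_iff]
      constructor
      · intro m hm
        rw [hK, hc z hz m hm]
        exact one_mem _
      · rw [zpowers_le, hK]
        exact hU
    intro g
    rw [← hK, hKtop]
    trivial

private lemma Plo_main (n : ℕ) : ∀ (P : Type u) [Group P] (M : Subgroup P), M.Normal → M.FG →
    M.lowerCentralSeries n = ⊥ → ∀ x : P, M ⊔ zpowers x = ⊤ → (∀ m ∈ M, ∃ c, eng m x c = 1) →
    Group.IsNilpotent P := by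
  induction n with
  | zero =>
    intro P _ M _ _ hM x htop _
    rw [Subgroup.lowerCentralSeries_zero] at hM
    rw [hM, bot_sup_eq] at htop
    refine Subgroup.nilpotent_iff_lowerCentralSeries.2 ⟨1, ?_⟩
    rw [Subgroup.lowerCentralSeries_succ, Subgroup.lowerCentralSeries_zero, eq_bot_iff, commutator_le]
    intro g _ h _
    have hg : g ∈ zpowers x := by rw [htop]; trivial
    have hh : h ∈ zpowers x := by rw [htop]; trivial
    obtain ⟨a, rfl⟩ := mem_zpowers_iff.1 hg
    obtain ⟨b, rfl⟩ := mem_zpowers_iff.1 hh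
    rw [mem_bot, commutatorElement_eq_one_iff_mul_comm, ← zpow_add, ← zpow_add, add_comm]
  | succ n ih =>
    intro P _ M hn hfg hM x htop he
    set Z := M.lowerCentralSeries n with hZdef
    have hZ : Z.Normal := Plo_normal hn n
    have hZM : Z ≤ M := Subgroup.lowerCentralSeries_le_self M n
    have hc : ∀ z ∈ Z, ∀ m ∈ M, ⁅z, m⁆ = 1 := by
      intro z hz m hm
      have h1 : ⁅z, m⁆ ∈ M.lowerCentralSeries (n + 1) := by
        rw [Subgroup.lowerCentralSeries_succ]
        exact commutator_mem_commutator hz hm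
      rw [hM] at h1
      exact mem_bot.1 h1
    -- `Z ≤ Subgroup.upperCentralSeries P c`
    obtain ⟨c, hcZ⟩ : ∃ c, Z ≤ Subgroup.upperCentralSeries P c := by
      obtain ⟨S, hS⟩ := fg_lcs_last M hfg n hM
      have hS' : ∀ s ∈ S, s ∈ Z := by
        intro s hs
        rw [hZdef, ← hS]
        exact subset_closure hs
      choose! f hf using fun s (hs : s ∈ M) => he s hs
      refine ⟨S.sup f, ?_⟩
      rw [hZdef, ← hS, closure_le]
      intro s hs
      exact Subgroup.upperCentralSeries_mono P (Finset.le_sup hs)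
        (Plo_up hZ htop hc (f s) s (hS' s hs) (hf s (hZM (hS' s hs))))
    -- the quotient
    have hQ : Group.IsNilpotent (P ⧸ Z) := by
      have hsurj : Function.Surjective (QuotientGroup.mk' Z) := QuotientGroup.mk'_surjective Z
      refine ih (P ⧸ Z) (M.map (QuotientGroup.mk' Z)) (hn.map _ hsurj) ?_ ?_ (QuotientGroup.mk' Z x) ?_ ?_
      · obtain ⟨S, hS⟩ := hfg
        classical
        refine ⟨S.image (QuotientGroup.mk' Z), ?_⟩
        rw [Finset.coe_image, ← MonoidHom.map_closure, hS]
      · rw [← Subgroup.map_lowerCentralSeries, ← hZdef, Subgroup.map_eq_bot_iff, QuotientGroup.ker_mk']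
      · rw [← MonoidHom.map_zpowers, ← Subgroup.map_sup, htop, ← MonoidHom.range_eq_map,
          MonoidHom.range_eq_top.2 hsurj]
      · rintro _ ⟨m, hm, rfl⟩
        obtain ⟨c, hc⟩ := he m hm
        refine ⟨c, ?_⟩
        rw [← Plo_eng_map, hc, map_one]
    obtain ⟨k, hk⟩ := Subgroup.nilpotent_iff_lowerCentralSeries.1 hQ
    refine Plo_nil c k (le_trans ?_ hcZ)
    have h1 : ((⊤ : Subgroup P).lowerCentralSeries k).map (QuotientGroup.mk' Z) = ⊥ := by
      rw [Subgroup.map_lowerCentralSeries, ← MonoidHom.range_eq_map,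
        MonoidHom.range_eq_top.2 (QuotientGroup.mk'_surjective Z), hk]
    rw [Subgroup.map_eq_bot_iff, QuotientGroup.ker_mk'] at h1
    exact h1

theorem plotkin_fg {P : Type u} [Group P] (M : Subgroup P) (hn : M.Normal) (hfg : M.FG)
    (hnil : Group.IsNilpotent M) (x : P) (htop : M ⊔ zpowers x = ⊤)
    (he : ∀ m ∈ M, ∃ c, eng m x c = 1) : Group.IsNilpotent P := by
  obtain ⟨n, h⟩ := (Subgroup.isNilpotent_iff_lowerCentralSeries M).1 hnil
  exact Plo_main n P M hn hfg h x htop he

end Pool.Agent.Lib.MP_544a1b_al
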