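import Pool.Agent.Lib.MP_544a1b_al.EN.Ext
import Pool.Agent.Lib.MP_544a1b_al.EN.Div
import Pool.Agent.Lib.MP_544a1b_al.EN.DqB
import Pool.Agent.Lib.MP_544a1b_al.EN.Max

/-!
EN-Pmn: binary nilpotent `p`-groups with finite elementary abelian subgroups are locally nilpotent.
-/

set_option autoImplicit false

universe u

namespace Pool.Agent.Lib.MP_544a1b_al

open Subgroup
open scoped commutatorElement

theorem isNilpotent_of_ab {G : Type u} [Group G] {A : Subgroup G} (hA : Ab A) :
    Group.IsNilpotent A := by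
  rw [isNilpotent_iff_lowerCentralSeries]
  refine ⟨1, ?_⟩
  rw [Subgroup.lowerCentralSeries_succ, Subgroup.lowerCentralSeries_zero,
    commutator_eq_bot_iff_le_centralizer]
  intro a ha
  rw [mem_centralizer_iff]
  intro b hb
  exact (hA b hb a ha).eq

theorem LNs.of_ab {G : Type u} [Group G] {A : Subgroup G} (hA : Ab A) : LNs A := by
  intro s hs
  apply isNilpotent_of_ab
  exact hA.mono ((closure_le A).2 hs)

theorem PG.LN_of_BN {p : ℕ} (hp : p.Prime) {G : Type u} [Group G] (h : PG p G) (hb : BN G) :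
    LN G := by
  have : Fact p.Prime := ⟨hp⟩
  obtain ⟨D, hDn, hD, hdiv, hqc⟩ := h.exists_div hp hb
  have hfin : Finite (G ⧸ D) := by
    apply BN.finite_of_ab_finite hp (h.pg.to_quotient D)
      (hb.of_surjective (QuotientGroup.mk' D) (QuotientGroup.mk'_surjective D))
    intro A hA
    exact h.ab_quotient_finite hp D hD hdiv hqc A hA
  have hnil : Group.IsNilpotent (G ⧸ D) := (h.pg.to_quotient D).isNilpotent
  exact LN_of_quotient (Engel_of_BN hb) D (LNs.of_ab hD) hnil

end Pool.Agent.Lib.MP_544a1b_al
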