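import Pool.Agent.Lib.MP_544a1b_al.EN.Tor

/-!
EN-Pow: commuting powers.

Proof. Let `K = closure {x, y}`, nilpotent, and `T` the torsion subgroup of `G` (`BN.exists_tors`), a normal subgroup. As `⁅x, y⁆ ∈ T`,
`x` and `y` commute modulo `T`, so `⁅x ^ k, y⁆ ∈ T` for all `k`.
Claim by downward induction on `i`: there is `k > 0` with `⁅x ^ k, y⁆ ∈ upperCentralSeries K i` (as elements of `K`). For `i` the class, `k = 1`.
From `i + 1` to `i`: let `u = x ^ k`, `⁅u, y⁆ ∈ upperCentralSeries K (i+1)`; modulo `Z = upperCentralSeries K i` it is central, so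
`⁅u ^ m, y⁆ = ⁅u, y⁆ ^ m` modulo `Z` (`commutator_pow_left` in `Basic`, applied in `K ⧸ Z`). `⁅u, y⁆ ∈ T` has finite
order `m > 0`, so `⁅x ^ (k * m), y⁆ ∈ Z`. At `i = 0` we get `⁅x ^ k, y⁆ = 1`.
-/

set_option autoImplicit false

universe u

namespace Pool.Agent.Lib.MP_544a1b_al

open Subgroup
open scoped commutatorElement

private theorem pow_aux_T {K : Type u} [Group K] (T : Subgroup K) [T.Normal] {x y : K}
    (h : ⁅x, y⁆ ∈ T) (n : ℕ) : ⁅x ^ n, y⁆ ∈ T := by
  have hk : ∀ g : K, QuotientGroup.mk' T g = 1 ↔ g ∈ T := by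
    intro g
    rw [← MonoidHom.mem_ker, QuotientGroup.ker_mk']
  rw [← hk, map_commutatorElement] at h
  rw [← hk, map_commutatorElement, map_pow]
  exact commutatorElement_eq_one_iff_commute.2 ((commutatorElement_eq_one_iff_commute.1 h).pow_left n)

private theorem pow_aux_Z {K : Type u} [Group K] (i : ℕ) (a x : K)
    (h : ⁅a, x⁆ ∈ Subgroup.upperCentralSeries K (i + 1)) (m : ℕ) (hm : ⁅a, x⁆ ^ m = 1) :
    ⁅a ^ m, x⁆ ∈ Subgroup.upperCentralSeries K i := by
  set Z := Subgroup.upperCentralSeries K i with hZ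
  have hk : ∀ g : K, QuotientGroup.mk' Z g = 1 ↔ g ∈ Z := by
    intro g
    rw [← MonoidHom.mem_ker, QuotientGroup.ker_mk']
  rw [← hk, map_commutatorElement, map_pow, commutator_pow_left]
  · rw [← map_commutatorElement, ← map_pow, hm, map_one]
  · rw [← map_commutatorElement]
    have h1 : ⁅⁅a, x⁆, a⁆ ∈ Z := Subgroup.mem_upperCentralSeries_succ_iff.1 h a
    rw [← hk, map_commutatorElement] at h1
    exact commutatorElement_eq_one_iff_commute.1 h1

private theorem pow_aux_main {K : Type u} [Group K] [hK : Group.IsNilpotent K] (T : Subgroup K)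
    [T.Normal] (hT : ∀ g ∈ T, IsOfFinOrder g) {x y : K} (h : ⁅x, y⁆ ∈ T) :
    ∃ k : ℕ, 0 < k ∧ ⁅x ^ k, y⁆ = 1 := by
  obtain ⟨c, hc⟩ := hK.nilpotent
  have key : ∀ k i : ℕ, k + i = c → ∃ n : ℕ, 0 < n ∧ ⁅x ^ n, y⁆ ∈ Subgroup.upperCentralSeries K i := by
    intro k
    induction k with
    | zero =>
      intro i hi
      rw [zero_add] at hi
      refine ⟨1, Nat.one_pos, ?_⟩
      rw [hi, hc]
      exact mem_top _
    | succ k ih =>
      intro i hi
      obtain ⟨n, hn, h1⟩ := ih (i + 1) (by omega)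
      obtain ⟨m, hm, h2⟩ := isOfFinOrder_iff_pow_eq_one.1 (hT _ (pow_aux_T T h n))
      refine ⟨n * m, Nat.mul_pos hn hm, ?_⟩
      rw [pow_mul]
      exact pow_aux_Z i (x ^ n) y h1 m h2
  obtain ⟨n, hn, h1⟩ := key c 0 (by omega)
  rw [Subgroup.upperCentralSeries_zero, mem_bot] at h1
  exact ⟨n, hn, h1⟩

theorem BN.exists_pow_commute {G : Type u} [Group G] (h : BN G) {x y : G}
    (hxy : IsOfFinOrder ⁅x, y⁆) : ∃ k : ℕ, 0 < k ∧ Commute (x ^ k) y := by
  have hnil := h x y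
  obtain ⟨T, hTn, hT⟩ := h.exists_tors
  have hTn2 : (T.comap (closure ({x, y} : Set G)).subtype).Normal := hTn.comap _
  obtain ⟨k, hk, h1⟩ := pow_aux_main (K := closure ({x, y} : Set G))
    (T.comap (closure ({x, y} : Set G)).subtype) (by
      intro g hg
      have h2 := (hT _).1 (mem_comap.1 hg)
      rw [isOfFinOrder_iff_pow_eq_one] at h2 ⊢
      obtain ⟨m, hm, h3⟩ := h2
      exact ⟨m, hm, Subtype.ext (by simpa using h3)⟩)
    (x := ⟨x, subset_closure (by simp)⟩) (y := ⟨y, subset_closure (by simp)⟩)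
    (mem_comap.2 ((hT _).2 hxy))
  refine ⟨k, hk, ?_⟩
  have h2 := congrArg Subtype.val h1
  exact commutatorElement_eq_one_iff_commute.1 h2

end Pool.Agent.Lib.MP_544a1b_al
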